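import Mathlib

/-!
# Truth-trees with parity and the recursive rule

Formulas, truth-trees as in Makinson's relevance-sensitive truth-trees, and the soundness of
acceptability for models whose worlds are the subsets of a set `X`: negation is evaluated at the
complement, implication with unions.
-/

set_option autoImplicit false

namespace Pool.Agent.X81.TruthTrees

/-- Formulas. -/
inductive Fm : Type
  | atom (n : ℕ) : Fm
  | neg (a : Fm) : Fm
  | and (a b : Fm) : Fm
  | or (a b : Fm) : Fm
  | imp (a b : Fm) : Fm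

/-- A node of a truth-tree, as an element of a branch: its formula, the positions on the branch of
its inputs (the nodes it came from), and, for a critical node, the position of its partner. -/
structure Node where
  /-- the formula -/
  label : Fm
  /-- the positions of the inputs -/
  src : List ℕ
  /-- the position of the partner of a critical node -/
  partner : Option ℕ

/-- The list of the nodes of a branch, starting with the root (position `0`). -/
abbrev Branch : Type := List Node

/-- The formula at a position. -/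
def lab (B : Branch) (i : ℕ) : Option Fm := (B[i]?).map Node.label

/-- `Tree S B`: the finite ways to continue the branch `B` by the rules, where the recursive rule
passes from `α` to `β` when `α → β` belongs to `S`. -/
inductive Tree (S : Set Fm) : Branch → Type
  | leaf (B : Branch) : Tree S B
  | conj (B : Branch) (i : ℕ) (α β : Fm) (h : lab B i = some (Fm.and α β))
      (t : Tree S (B ++ [⟨α, [i], none⟩, ⟨β, [i], none⟩])) : Tree S B
  | negDisj (B : Branch) (i : ℕ) (α β : Fm) (h : lab B i = some (Fm.neg (Fm.or α β)))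
      (t : Tree S (B ++ [⟨Fm.neg α, [i], none⟩, ⟨Fm.neg β, [i], none⟩])) : Tree S B
  | negNeg (B : Branch) (i : ℕ) (α : Fm) (h : lab B i = some (Fm.neg (Fm.neg α)))
      (t : Tree S (B ++ [⟨α, [i], none⟩])) : Tree S B
  | negConj (B : Branch) (i : ℕ) (α β : Fm) (h : lab B i = some (Fm.neg (Fm.and α β)))
      (t₁ : Tree S (B ++ [⟨Fm.neg α, [i], none⟩]))
      (t₂ : Tree S (B ++ [⟨Fm.neg β, [i], none⟩])) : Tree S B
  | disj (B : Branch) (i : ℕ) (α β : Fm) (h : lab B i = some (Fm.or α β))
      (t₁ : Tree S (B ++ [⟨α, [i], none⟩])) (t₂ : Tree S (B ++ [⟨β, [i], none⟩])) : Tree S B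
  | mp (B : Branch) (i j : ℕ) (α β : Fm) (h₁ : lab B i = some α)
      (h₂ : lab B j = some (Fm.imp α β)) (t : Tree S (B ++ [⟨β, [i, j], none⟩])) : Tree S B
  | counter (B : Branch) (i : ℕ) (α β : Fm) (h : lab B i = some (Fm.neg (Fm.imp α β)))
      (t : Tree S (B ++ [⟨α, [i], some (B.length + 1)⟩, ⟨Fm.neg β, [i], some B.length⟩])) :
      Tree S B
  | recur (B : Branch) (i : ℕ) (α β : Fm) (h : lab B i = some α) (hS : Fm.imp α β ∈ S)
      (t : Tree S (B ++ [⟨β, [i], none⟩])) : Tree S B

/-- The branches (from the root to a leaf) of a tree. -/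
def Tree.branches {S : Set Fm} : {B : Branch} → Tree S B → List Branch
  | B, Tree.leaf _ => [B]
  | _, Tree.conj _ _ _ _ _ t => t.branches
  | _, Tree.negDisj _ _ _ _ _ t => t.branches
  | _, Tree.negNeg _ _ _ _ t => t.branches
  | _, Tree.negConj _ _ _ _ _ t₁ t₂ => t₁.branches ++ t₂.branches
  | _, Tree.disj _ _ _ _ _ t₁ t₂ => t₁.branches ++ t₂.branches
  | _, Tree.mp _ _ _ _ _ _ _ t => t.branches
  | _, Tree.counter _ _ _ _ _ t => t.branches
  | _, Tree.recur _ _ _ _ _ _ t => t.branches

/-- A truth-tree for `φ`: its root is labelled `¬φ`. -/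
abbrev TruthTree (S : Set Fm) (φ : Fm) : Type := Tree S [⟨Fm.neg φ, [], none⟩]

/-- `InTrace B n k`: the node `k` belongs to the trace `T(n)` of the node `n` of the branch `B`. -/
inductive InTrace (B : Branch) (n : ℕ) : ℕ → Prop
  | self : InTrace B n n
  | step (m k : ℕ) (e : Node) : InTrace B n m → B[m]? = some e → k ∈ e.src → InTrace B n k

/-- The nodes `n`, `m` are a crash-pair on the branch `B`. -/
def CrashPair (B : Branch) (n m : ℕ) : Prop :=
  ∃ ζ : Fm, lab B n = some ζ ∧ lab B m = some (Fm.neg ζ)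

/-- The branch `B` carries a crash-pair `Z` such that for every critical node `c` on `B`,
`c ∈ T(Z)` exactly when the partner of `c` is in `T(Z)`. -/
def ParityAt (B : Branch) : Prop :=
  ∃ n m, CrashPair B n m ∧ ∀ (c d : ℕ) (e : Node), B[c]? = some e → e.partner = some d →
    ((InTrace B n c ∨ InTrace B m c) ↔ (InTrace B n d ∨ InTrace B m d))

/-- The branch `B` carries a crash-pair `Z` such that for every critical node `c` on `B`, if
`c ∈ T(Z)` then the partner of `c` lies on `B` and in `T(Z)`. -/
def ParityAt' (B : Branch) : Prop :=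
  ∃ n m, CrashPair B n m ∧ ∀ (c d : ℕ) (e : Node), B[c]? = some e → e.partner = some d →
    (InTrace B n c ∨ InTrace B m c) → (d < B.length ∧ (InTrace B n d ∨ InTrace B m d))

/-! ## Models -/

/-- Truth at the world `w ⊆ X`. -/
def sat {X : Type} (v : ℕ → Set X → Prop) : Set X → Fm → Prop
  | w, Fm.atom n => v n w
  | w, Fm.neg a => ¬ sat v wᶜ a
  | w, Fm.and a b => sat v w a ∧ sat v w b
  | w, Fm.or a b => sat v w a ∨ sat v w b
  | w, Fm.imp a b => ∀ u : Set X, sat v u a → sat v (w ∪ u) b

/-- The valuation is closed under taking subsets of worlds. -/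
def Down {X : Type} (v : ℕ → Set X → Prop) : Prop := ∀ n w w', w' ⊆ w → v n w → v n w'

lemma sat_mono {X : Type} {v : ℕ → Set X → Prop} (hv : Down v) (φ : Fm) :
    ∀ w w' : Set X, w' ⊆ w → sat v w φ → sat v w' φ := by
  induction φ with
  | atom n => exact fun w w' h => hv n w w' h
  | neg a ih =>
    intro w w' h h1 h2
    exact h1 (ih _ _ (Set.compl_subset_compl.2 h) h2)
  | and a b iha ihb => exact fun w w' h h1 => ⟨iha w w' h h1.1, ihb w w' h h1.2⟩
  | or a b iha ihb => exact fun w w' h h1 => h1.imp (iha w w' h) (ihb w w' h)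
  | imp a b _ ihb =>
    intro w w' h h1 u hu
    exact ihb _ _ (Set.union_subset_union_left u h) (h1 u hu)

/-- The invariant: `w i` is the world of the node `i`. -/
structure Inv {X : Type} (v : ℕ → Set X → Prop) (B : Branch) (w : ℕ → Set X) : Prop where
  pos : 0 < B.length
  root : w 0 = Set.univ
  sats : ∀ (i : ℕ) (n : Node), B[i]? = some n → sat v (w i) n.label
  hsrc : ∀ (i : ℕ) (n : Node), B[i]? = some n → 0 < i → ∃ j, j ∈ n.src
  hlt : ∀ (i : ℕ) (n : Node), B[i]? = some n → ∀ j ∈ n.src, j < i
  hnone : ∀ (i : ℕ) (n : Node), B[i]? = some n → n.partner = none → ∀ j ∈ n.src, w j ⊆ w i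
  hsome : ∀ (i : ℕ) (n : Node) (p : ℕ), B[i]? = some n → n.partner = some p → ∀ j ∈ n.src,
    w j ⊆ w i ∪ w p ∧ j < p ∧ p < B.length

lemma lab_some {B : Branch} {i : ℕ} {f : Fm} (h : lab B i = some f) :
    ∃ n, B[i]? = some n ∧ n.label = f := by
  unfold lab at h
  rw [Option.map_eq_some_iff] at h
  exact h

lemma lt_of_get {B : Branch} {i : ℕ} {n : Node} (h : B[i]? = some n) : i < B.length :=
  (List.getElem?_eq_some_iff.1 h).1

lemma inv_append {X : Type} {v : ℕ → Set X → Prop} {B : Branch} {w : ℕ → Set X}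
    (hI : Inv v B w) (e : Node) (u : Set X) (he : sat v u e.label) (hp : e.partner = none)
    (hs : ∃ j, j ∈ e.src) (hlt : ∀ j ∈ e.src, j < B.length) (hu : ∀ j ∈ e.src, w j ⊆ u) :
    Inv v (B ++ [e]) (Function.update w B.length u) := by
  have old : ∀ j, j < B.length → Function.update w B.length u j = w j := fun j hj =>
    Function.update_of_ne (by omega) _ _
  have get : ∀ i n, (B ++ [e])[i]? = some n → (i < B.length ∧ B[i]? = some n) ∨
      (i = B.length ∧ n = e) := by
    intro i n h
    rcases Nat.lt_or_ge i B.length with hi | hi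
    · rw [List.getElem?_append_left hi] at h
      exact Or.inl ⟨hi, h⟩
    · rw [List.getElem?_append_right hi] at h
      have h2 := lt_of_get h
      have h3 : i = B.length := by
        simp at h2; omega
      subst h3
      simp at h
      exact Or.inr ⟨rfl, h.symm⟩
  refine ⟨by simp, ?_, ?_, ?_, ?_, ?_, ?_⟩
  · rw [old 0 hI.pos]; exact hI.root
  · intro i n h
    rcases get i n h with ⟨hi, h⟩ | ⟨rfl, rfl⟩
    · rw [old i hi]; exact hI.sats i n h
    · rw [Function.update_self]; exact he
  · intro i n h h0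
    rcases get i n h with ⟨_, h⟩ | ⟨rfl, rfl⟩
    · exact hI.hsrc i n h h0
    · exact hs
  · intro i n h j hj
    rcases get i n h with ⟨_, h⟩ | ⟨rfl, rfl⟩
    · exact hI.hlt i n h j hj
    · exact hlt j hj
  · intro i n h hn j hj
    rcases get i n h with ⟨hi, h⟩ | ⟨rfl, rfl⟩
    · rw [old i hi, old j (by have := hI.hlt i n h j hj; omega)]
      exact hI.hnone i n h hn j hj
    · rw [Function.update_self, old j (hlt j hj)]
      exact hu j hj
  · intro i n p h hn j hj
    rcases get i n h with ⟨hi, h⟩ | ⟨rfl, rfl⟩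
    · obtain ⟨h1, h2, h3⟩ := hI.hsome i n p h hn j hj
      rw [old i hi, old j (by have := hI.hlt i n h j hj; omega), old p h3]
      refine ⟨h1, h2, ?_⟩
      simp; omega
    · rw [hp] at hn; simp at hn

lemma inv_counter {X : Type} {v : ℕ → Set X → Prop} {B : Branch} {w : ℕ → Set X}
    (hI : Inv v B w) (i : ℕ) (hi : i < B.length) (a b : Fm) (u₁ u₂ : Set X)
    (h₁ : sat v u₁ a) (h₂ : sat v u₂ b) (hu : w i ⊆ u₁ ∪ u₂) :
    Inv v (B ++ [⟨a, [i], some (B.length + 1)⟩, ⟨b, [i], some B.length⟩])
      (Function.update (Function.update w B.length u₁) (B.length + 1) u₂) := by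
  set w' := Function.update (Function.update w B.length u₁) (B.length + 1) u₂ with hw'
  have old : ∀ j, j < B.length → w' j = w j := fun j hj => by
    rw [hw', Function.update_of_ne (by omega), Function.update_of_ne (by omega)]
  have n1 : w' B.length = u₁ := by
    rw [hw', Function.update_of_ne (by omega), Function.update_self]
  have n2 : w' (B.length + 1) = u₂ := by rw [hw', Function.update_self]
  have get : ∀ k n, (B ++ [⟨a, [i], some (B.length + 1)⟩, ⟨b, [i], some B.length⟩])[k]? = some n →
      (k < B.length ∧ B[k]? = some n) ∨ (k = B.length ∧ n = ⟨a, [i], some (B.length + 1)⟩) ∨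
      (k = B.length + 1 ∧ n = ⟨b, [i], some B.length⟩) := by
    intro k n h
    rcases Nat.lt_or_ge k B.length with hk | hk
    · rw [List.getElem?_append_left hk] at h
      exact Or.inl ⟨hk, h⟩
    · rw [List.getElem?_append_right hk] at h
      have h2 := lt_of_get h
      have h3 : k = B.length ∨ k = B.length + 1 := by
        simp at h2; omega
      rcases h3 with h3 | h3
      · subst h3
        simp at h
        exact Or.inr (Or.inl ⟨rfl, h.symm⟩)
      · subst h3
        simp at h
        exact Or.inr (Or.inr ⟨rfl, h.symm⟩)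
  refine ⟨by simp, ?_, ?_, ?_, ?_, ?_, ?_⟩
  · rw [old 0 hI.pos]; exact hI.root
  · intro k n h
    rcases get k n h with ⟨hk, h⟩ | ⟨rfl, rfl⟩ | ⟨rfl, rfl⟩
    · rw [old k hk]; exact hI.sats k n h
    · rw [n1]; exact h₁
    · rw [n2]; exact h₂
  · intro k n h h0
    rcases get k n h with ⟨_, h⟩ | ⟨rfl, rfl⟩ | ⟨rfl, rfl⟩
    · exact hI.hsrc k n h h0
    · exact ⟨i, by simp⟩
    · exact ⟨i, by simp⟩
  · intro k n h j hj
    rcases get k n h with ⟨_, h⟩ | ⟨rfl, rfl⟩ | ⟨rfl, rfl⟩
    · exact hI.hlt k n h j hj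
    · simp at hj; omega
    · simp at hj; omega
  · intro k n h hn j hj
    rcases get k n h with ⟨hk, h⟩ | ⟨rfl, rfl⟩ | ⟨rfl, rfl⟩
    · rw [old k hk, old j (by have := hI.hlt k n h j hj; omega)]
      exact hI.hnone k n h hn j hj
    · simp at hn
    · simp at hn
  · intro k n p h hn j hj
    rcases get k n h with ⟨hk, h⟩ | ⟨rfl, rfl⟩ | ⟨rfl, rfl⟩
    · obtain ⟨h1, h2, h3⟩ := hI.hsome k n p h hn j hj
      rw [old k hk, old j (by have := hI.hlt k n h j hj; omega), old p h3]
      refine ⟨h1, h2, ?_⟩
      simp; omega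
    · simp only [Option.some.injEq] at hn
      simp only [List.mem_singleton] at hj
      subst hn hj
      rw [old j hi, n1, n2]
      exact ⟨hu, by omega, by simp⟩
    · simp only [Option.some.injEq] at hn
      simp only [List.mem_singleton] at hj
      subst hn hj
      rw [old j hi, n1, n2, Set.union_comm]
      exact ⟨hu, by omega, by simp⟩

/-- A weak form of parity, implied by both versions. -/
def ParityW (B : Branch) : Prop :=
  ∃ n m, CrashPair B n m ∧ ∀ (c d : ℕ) (e : Node), B[c]? = some e → e.partner = some d →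
    (InTrace B n c ∨ InTrace B m c) → (InTrace B n d ∨ InTrace B m d)

lemma ParityAt.weak {B : Branch} (h : ParityAt B) : ParityW B := by
  obtain ⟨n, m, h1, h2⟩ := h
  exact ⟨n, m, h1, fun c d e hc hd => (h2 c d e hc hd).1⟩

lemma ParityAt'.weak {B : Branch} (h : ParityAt' B) : ParityW B := by
  obtain ⟨n, m, h1, h2⟩ := h
  exact ⟨n, m, h1, fun c d e hc hd h => (h2 c d e hc hd h).2⟩

/-- Parity is impossible under the invariant. -/
lemma no_parity {X : Type} {v : ℕ → Set X → Prop} (hv : Down v) {B : Branch} {w : ℕ → Set X}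
    (hI : Inv v B w) : ¬ ParityW B := by
  rintro ⟨n, m, ⟨ζ, hζ₁, hζ₂⟩, hpar⟩
  obtain ⟨en, hen, hln⟩ := lab_some hζ₁
  obtain ⟨em, hem, hlm⟩ := lab_some hζ₂
  have s1 : sat v (w n) ζ := hln ▸ hI.sats n en hen
  have s2 : ¬ sat v (w m)ᶜ ζ := by
    have := hI.sats m em hem
    rw [hlm] at this
    exact this
  apply s2
  refine sat_mono hv ζ _ _ ?_ s1
  intro x hx
  by_contra hxn
  -- the token `x` reaches neither of the two nodes
  have hxm : x ∉ w m := hx
  have bound : ∀ a, a < B.length → ∀ k, InTrace B a k → k < B.length := by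
    intro a ha k h
    induction h with
    | self => exact ha
    | step b k e _ h2 h3 _ =>
      have := hI.hlt b e h2 k h3
      have := lt_of_get h2
      omega
  have hT : ∀ k, (InTrace B n k ∨ InTrace B m k) → k < B.length := by
    rintro k (h | h)
    · exact bound n (lt_of_get hen) k h
    · exact bound m (lt_of_get hem) k h
  have zero : ∀ N, ∀ k, k ≤ N → (InTrace B n k ∨ InTrace B m k) →
      (InTrace B n 0 ∨ InTrace B m 0) := by
    intro N
    induction N with
    | zero =>
      intro k hk h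
      have : k = 0 := by omega
      subst this; exact h
    | succ N ih =>
      intro k hk h
      rcases Nat.eq_zero_or_pos k with h0 | h0
      · subst h0; exact h
      · have hlt := hT k h
        obtain ⟨e, he⟩ : ∃ e, B[k]? = some e := ⟨B[k], List.getElem?_eq_getElem hlt⟩
        obtain ⟨j, hj⟩ := hI.hsrc k e he h0
        refine ih j ?_ ?_
        · have := hI.hlt k e he j hj
          omega
        · exact h.imp (fun h => InTrace.step k j e h he hj) (fun h => InTrace.step k j e h he hj)
  have h0T := zero n n le_rfl (Or.inl InTrace.self)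
  -- descend: nodes of the trace that contain `x` are followed by later ones
  have key : ∀ N, ∀ k, B.length - k ≤ N → (InTrace B n k ∨ InTrace B m k) → x ∈ w k → False := by
    intro N
    induction N with
    | zero =>
      intro k hk h _
      have := hT k h
      omega
    | succ N ih =>
      intro k hk h hxk
      have hcase : ∃ b e, (InTrace B n b ∨ InTrace B m b) ∧ B[b]? = some e ∧ k ∈ e.src := by
        rcases h with h | h
        · cases h with
          | self => exact absurd hxk hxn
          | step b _ e h1 h2 h3 => exact ⟨b, e, Or.inl h1, h2, h3⟩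
        · cases h with
          | self => exact absurd hxk hxm
          | step b _ e h1 h2 h3 => exact ⟨b, e, Or.inr h1, h2, h3⟩
      obtain ⟨b, e, hb, he, hke⟩ := hcase
      have hkb := hI.hlt b e he k hke
      have hbl := lt_of_get he
      rcases hpart : e.partner with _ | p
      · exact ih b (by omega) hb (hI.hnone b e he hpart k hke hxk)
      · obtain ⟨h1, h2, h3⟩ := hI.hsome b e p he hpart k hke
        rcases h1 hxk with h4 | h4
        · exact ih b (by omega) hb h4
        · exact ih p (by omega) (hpar b p e he hpart hb) h4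
  exact key _ 0 le_rfl h0T (by rw [hI.root]; trivial)

/-- The formulas true at the world `∅` in all models over `X`. -/
def Valid (X : Type) : Set Fm := {φ | ∀ v : ℕ → Set X → Prop, Down v → sat v ∅ φ}

lemma exists_branch {X : Type} {v : ℕ → Set X → Prop} (hv : Down v) {B : Branch}
    (t : Tree (Valid X) B) : ∀ w, Inv v B w → ∃ B' ∈ t.branches, ∃ w', Inv v B' w' := by
  induction t with
  | leaf B => exact fun w h => ⟨B, by simp [Tree.branches], w, h⟩
  | conj B i α β h t ih =>
    intro w hI
    obtain ⟨n, hn, hl⟩ := lab_some h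
    have hs := hI.sats i n hn
    rw [hl] at hs
    have hi := lt_of_get hn
    have h1 := inv_append hI ⟨α, [i], none⟩ (w i) hs.1 rfl ⟨i, by simp⟩
      (by intro j hj; simp at hj; omega) (by intro j hj; simp at hj; rw [hj])
    have h2 := inv_append h1 ⟨β, [i], none⟩ (w i) hs.2 rfl ⟨i, by simp⟩
      (by intro j hj; simp at hj; simp; omega)
      (by
        intro j hj
        simp at hj
        rw [hj, Function.update_of_ne (by omega)])
    rw [List.append_assoc] at h2
    exact ih _ h2
  | negDisj B i α β h t ih =>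
    intro w hI
    obtain ⟨n, hn, hl⟩ := lab_some h
    have hs := hI.sats i n hn
    rw [hl] at hs
    have hs' : ¬ (sat v (w i)ᶜ α ∨ sat v (w i)ᶜ β) := hs
    rw [not_or] at hs'
    have hi := lt_of_get hn
    have h1 := inv_append hI ⟨Fm.neg α, [i], none⟩ (w i) hs'.1 rfl ⟨i, by simp⟩
      (by intro j hj; simp at hj; omega) (by intro j hj; simp at hj; rw [hj])
    have h2 := inv_append h1 ⟨Fm.neg β, [i], none⟩ (w i) hs'.2 rfl ⟨i, by simp⟩
      (by intro j hj; simp at hj; simp; omega)
      (by
        intro j hj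
        simp at hj
        rw [hj, Function.update_of_ne (by omega)])
    rw [List.append_assoc] at h2
    exact ih _ h2
  | negNeg B i α h t ih =>
    intro w hI
    obtain ⟨n, hn, hl⟩ := lab_some h
    have hs := hI.sats i n hn
    rw [hl] at hs
    have hs' : ¬ ¬ sat v ((w i)ᶜ)ᶜ α := hs
    rw [compl_compl, not_not] at hs'
    have hi := lt_of_get hn
    exact ih _ (inv_append hI ⟨α, [i], none⟩ (w i) hs' rfl ⟨i, by simp⟩
      (by intro j hj; simp at hj; omega) (by intro j hj; simp at hj; rw [hj]))
  | negConj B i α β h t₁ t₂ ih₁ ih₂ =>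
    intro w hI
    obtain ⟨n, hn, hl⟩ := lab_some h
    have hs := hI.sats i n hn
    rw [hl] at hs
    have hs' : ¬ (sat v (w i)ᶜ α ∧ sat v (w i)ᶜ β) := hs
    rw [not_and_or] at hs'
    have hi := lt_of_get hn
    rcases hs' with hs' | hs'
    · obtain ⟨B', hB', w', hw'⟩ := ih₁ _ (inv_append hI ⟨Fm.neg α, [i], none⟩ (w i) hs' rfl
        ⟨i, by simp⟩ (by intro j hj; simp at hj; omega) (by intro j hj; simp at hj; rw [hj]))
      exact ⟨B', by simp [Tree.branches, hB'], w', hw'⟩
    · obtain ⟨B', hB', w', hw'⟩ := ih₂ _ (inv_append hI ⟨Fm.neg β, [i], none⟩ (w i) hs' rfl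
        ⟨i, by simp⟩ (by intro j hj; simp at hj; omega) (by intro j hj; simp at hj; rw [hj]))
      exact ⟨B', by simp [Tree.branches, hB'], w', hw'⟩
  | disj B i α β h t₁ t₂ ih₁ ih₂ =>
    intro w hI
    obtain ⟨n, hn, hl⟩ := lab_some h
    have hs := hI.sats i n hn
    rw [hl] at hs
    have hi := lt_of_get hn
    rcases hs with hs' | hs'
    · obtain ⟨B', hB', w', hw'⟩ := ih₁ _ (inv_append hI ⟨α, [i], none⟩ (w i) hs' rfl
        ⟨i, by simp⟩ (by intro j hj; simp at hj; omega) (by intro j hj; simp at hj; rw [hj]))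
      exact ⟨B', by simp [Tree.branches, hB'], w', hw'⟩
    · obtain ⟨B', hB', w', hw'⟩ := ih₂ _ (inv_append hI ⟨β, [i], none⟩ (w i) hs' rfl
        ⟨i, by simp⟩ (by intro j hj; simp at hj; omega) (by intro j hj; simp at hj; rw [hj]))
      exact ⟨B', by simp [Tree.branches, hB'], w', hw'⟩
  | mp B i j α β h₁ h₂ t ih =>
    intro w hI
    obtain ⟨n, hn, hl⟩ := lab_some h₁
    obtain ⟨m, hm, hl'⟩ := lab_some h₂
    have hs := hI.sats i n hn
    rw [hl] at hs
    have hs' := hI.sats j m hm
    rw [hl'] at hs'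
    have hi := lt_of_get hn
    have hj := lt_of_get hm
    exact ih _ (inv_append hI ⟨β, [i, j], none⟩ (w j ∪ w i) (hs' (w i) hs) rfl ⟨i, by simp⟩
      (by
        intro k hk
        simp at hk
        rcases hk with rfl | rfl <;> assumption)
      (by
        intro k hk
        simp at hk
        rcases hk with rfl | rfl
        · exact Set.subset_union_right
        · exact Set.subset_union_left))
  | counter B i α β h t ih =>
    intro w hI
    obtain ⟨n, hn, hl⟩ := lab_some h
    have hs := hI.sats i n hn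
    rw [hl] at hs
    have hs' : ¬ ∀ u : Set X, sat v u α → sat v ((w i)ᶜ ∪ u) β := hs
    push Not at hs'
    obtain ⟨u, hu1, hu2⟩ := hs'
    have hi := lt_of_get hn
    refine ih _ (inv_counter hI i hi α (Fm.neg β) u ((w i) \ u) hu1 ?_ ?_)
    · show ¬ sat v ((w i) \ u)ᶜ β
      have : ((w i) \ u)ᶜ = (w i)ᶜ ∪ u := by
        rw [Set.sdiff_eq, Set.compl_inter, compl_compl]
      rw [this]
      exact hu2
    · intro x hx
      by_cases hxu : x ∈ u
      · exact Or.inl hxu
      · exact Or.inr ⟨hx, hxu⟩
  | recur B i α β h hS t ih =>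
    intro w hI
    obtain ⟨n, hn, hl⟩ := lab_some h
    have hs := hI.sats i n hn
    rw [hl] at hs
    have hs' := hS v hv (w i) hs
    rw [Set.empty_union] at hs'
    have hi := lt_of_get hn
    exact ih _ (inv_append hI ⟨β, [i], none⟩ (w i) hs' rfl ⟨i, by simp⟩
      (by intro j hj; simp at hj; omega) (by intro j hj; simp at hj; rw [hj]))

/-- Soundness: a tree with parity whose recursive steps use valid implications shows validity. -/
theorem sound {X : Type} {φ : Fm} (t : TruthTree (Valid X) φ)
    (ht : ∀ B ∈ t.branches, ParityW B) : φ ∈ Valid X := by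
  intro v hv
  by_contra hcon
  have one : ∀ (i : ℕ) (n : Node), ([⟨Fm.neg φ, [], none⟩] : Branch)[i]? = some n →
      i = 0 ∧ n = ⟨Fm.neg φ, [], none⟩ := by
    intro i n h
    have hi := lt_of_get h
    simp at hi
    subst hi
    simp at h
    exact ⟨rfl, h.symm⟩
  have hI : Inv v [⟨Fm.neg φ, [], none⟩] (fun _ => Set.univ) := by
    refine ⟨by simp, rfl, ?_, ?_, ?_, ?_, ?_⟩
    · intro i n h
      obtain ⟨rfl, rfl⟩ := one i n h
      show ¬ sat v (Set.univ)ᶜ φ
      rw [Set.compl_univ]
      exact hcon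
    · intro i n h h0
      obtain ⟨rfl, rfl⟩ := one i n h
      omega
    · intro i n h j hj
      obtain ⟨rfl, rfl⟩ := one i n h
      simp at hj
    · intro i n h _ j hj
      obtain ⟨rfl, rfl⟩ := one i n h
      simp at hj
    · intro i n p h _ j hj
      obtain ⟨rfl, rfl⟩ := one i n h
      simp at hj
  obtain ⟨B', hB', w', hw'⟩ := exists_branch hv t _ hI
  exact no_parity hv hw' (ht B' hB')

/-! ## Acceptable formulas -/

/-- The least set `S` of formulas such that every formula with a truth-tree over `S` (that is,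
whose recursive steps use members of `S`) all of whose branches satisfy `P` belongs to `S`. -/
def Acc (P : Branch → Prop) : Set Fm :=
  {φ | ∀ S : Set Fm, (∀ ψ, (∃ t : TruthTree S ψ, ∀ B ∈ t.branches, P B) → ψ ∈ S) → φ ∈ S}

lemma tree_mono {S S' : Set Fm} (h : S ⊆ S') {B : Branch} (t : Tree S B) :
    ∃ t' : Tree S' B, t'.branches = t.branches := by
  induction t with
  | leaf B => exact ⟨Tree.leaf B, rfl⟩
  | conj B i α β h t ih => obtain ⟨t', h'⟩ := ih; exact ⟨Tree.conj B i α β h t', h'⟩
  | negDisj B i α β h t ih => obtain ⟨t', h'⟩ := ih; exact ⟨Tree.negDisj B i α β h t', h'⟩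
  | negNeg B i α h t ih => obtain ⟨t', h'⟩ := ih; exact ⟨Tree.negNeg B i α h t', h'⟩
  | negConj B i α β h t₁ t₂ ih₁ ih₂ =>
    obtain ⟨t₁', h₁'⟩ := ih₁
    obtain ⟨t₂', h₂'⟩ := ih₂
    exact ⟨Tree.negConj B i α β h t₁' t₂', by simp [Tree.branches, h₁', h₂']⟩
  | disj B i α β h t₁ t₂ ih₁ ih₂ =>
    obtain ⟨t₁', h₁'⟩ := ih₁
    obtain ⟨t₂', h₂'⟩ := ih₂
    exact ⟨Tree.disj B i α β h t₁' t₂', by simp [Tree.branches, h₁', h₂']⟩
  | mp B i j α β h₁ h₂ t ih => obtain ⟨t', h'⟩ := ih; exact ⟨Tree.mp B i j α β h₁ h₂ t', h'⟩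
  | counter B i α β h t ih => obtain ⟨t', h'⟩ := ih; exact ⟨Tree.counter B i α β h t', h'⟩
  | recur B i α β h₁ hS t ih =>
    obtain ⟨t', h'⟩ := ih
    exact ⟨Tree.recur B i α β h₁ (h hS) t', h'⟩

/-- `Acc P` is a fixed point: its members are exactly the formulas with a tree over `Acc P`. -/
theorem acc_iff (P : Branch → Prop) (φ : Fm) :
    φ ∈ Acc P ↔ ∃ t : TruthTree (Acc P) φ, ∀ B ∈ t.branches, P B := by
  have back : ∀ φ, (∃ t : TruthTree (Acc P) φ, ∀ B ∈ t.branches, P B) → φ ∈ Acc P := by
    rintro φ ⟨t, ht⟩ S hS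
    obtain ⟨t', h'⟩ := tree_mono (S := Acc P) (S' := S) (fun ψ hψ => hψ S hS) t
    exact hS φ ⟨t', by rw [h']; exact ht⟩
  refine ⟨fun h => ?_, back φ⟩
  apply h {φ | ∃ t : TruthTree (Acc P) φ, ∀ B ∈ t.branches, P B}
  rintro ψ ⟨t, ht⟩
  obtain ⟨t', h'⟩ := tree_mono (S' := Acc P) (fun ψ hψ => back ψ hψ) t
  exact ⟨t', by rw [h']; exact ht⟩

/-- Acceptable formulas are valid in all the models. -/
theorem acc_valid {P : Branch → Prop} (hP : ∀ B, P B → ParityW B) (X : Type) :
    Acc P ⊆ Valid X := fun _ h =>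
  h (Valid X) fun _ ⟨t, ht⟩ => sound t fun B hB => hP B (ht B hB)

/-- The sentence letters of a formula. -/
def letters : Fm → Set ℕ
  | Fm.atom n => {n}
  | Fm.neg a => letters a
  | Fm.and a b => letters a ∪ letters b
  | Fm.or a b => letters a ∪ letters b
  | Fm.imp a b => letters a ∪ letters b

lemma sat_letters {X : Type} {v : ℕ → Set X → Prop} {x : X} (φ : Fm)
    (h : ∀ n ∈ letters φ, ∀ w, v n w ↔ x ∉ w) : ∀ w, sat v w φ ↔ x ∉ w := by
  induction φ with
  | atom n => exact h n rfl
  | neg a ih =>
    intro w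
    have := ih h wᶜ
    show ¬ sat v wᶜ a ↔ _
    rw [this]
    simp
  | and a b iha ihb =>
    intro w
    have h1 := iha (fun n hn => h n (Or.inl hn)) w
    have h2 := ihb (fun n hn => h n (Or.inr hn)) w
    show (_ ∧ _) ↔ _
    rw [h1, h2]; simp
  | or a b iha ihb =>
    intro w
    have h1 := iha (fun n hn => h n (Or.inl hn)) w
    have h2 := ihb (fun n hn => h n (Or.inr hn)) w
    show (_ ∨ _) ↔ _
    rw [h1, h2]; simp
  | imp a b iha ihb =>
    intro w
    have h1 := iha (fun n hn => h n (Or.inl hn))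
    have h2 := ihb (fun n hn => h n (Or.inr hn))
    show (∀ u, _ → _) ↔ _
    constructor
    · intro h3
      have := (h2 _).1 (h3 ∅ ((h1 ∅).2 (by simp)))
      simpa using this
    · intro h3 u hu
      rw [h2]
      rintro (h4 | h4)
      · exact h3 h4
      · exact (h1 u).1 hu h4

/-- Letter-sharing for every version of acceptability. -/
theorem letter_sharing {P : Branch → Prop} (hP : ∀ B, P B → ParityW B) (φ ψ : Fm)
    (h : Fm.imp φ ψ ∈ Acc P) : ∃ n, n ∈ letters φ ∧ n ∈ letters ψ := by
  classical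
  by_contra hcon
  push Not at hcon
  have hv := acc_valid hP Bool h
  let v : ℕ → Set Bool → Prop := fun n w => if n ∈ letters φ then true ∉ w else false ∉ w
  have hd : Down v := by
    intro n w w' hw h1
    by_cases hn : n ∈ letters φ
    · simp only [v, hn, if_true] at h1 ⊢
      exact fun h2 => h1 (hw h2)
    · simp only [v, hn, if_false] at h1 ⊢
      exact fun h2 => h1 (hw h2)
  have h1 := sat_letters (v := v) (x := true) φ (fun n hn w => by simp [v, hn])
  have h2 := sat_letters (v := v) (x := false) ψ (fun n hn w => by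
    have : n ∉ letters φ := fun h' => hcon n h' hn
    simp [v, this])
  have h3 : ∀ u : Set Bool, sat v u φ → sat v (∅ ∪ u) ψ := hv v hd
  have h4 := h3 {false} ((h1 _).2 (by simp))
  rw [h2] at h4
  simp at h4

end Pool.Agent.X81.TruthTrees
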