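import Mathlib
import Pool.Agent.X81.TruthTrees

/-!
# An abstract form of truth-trees with parity

A branch is replaced by a set of labelled formulas; the label of a formula is the set of the
critical nodes in its trace (tokens `(j, false)` and `(j, true)` for the `j`-th critical pair).
-/

set_option autoImplicit false

namespace Pool.Agent.X81.TruthTrees

/-- Labels. -/
abbrev Lb : Type := Set (ℕ × Bool)

/-- Closed under partners. -/
def Closed (U : Lb) : Prop := ∀ j, (j, true) ∈ U ↔ (j, false) ∈ U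

/-- Closed trees, abstractly. -/
inductive Cr (S : Set Fm) : ℕ → Set (Fm × Lb) → Prop
  | crash (k : ℕ) (Γ : Set (Fm × Lb)) (ζ : Fm) (L₁ L₂ : Lb) (h₁ : (ζ, L₁) ∈ Γ)
      (h₂ : (Fm.neg ζ, L₂) ∈ Γ) (h : Closed (L₁ ∪ L₂)) : Cr S k Γ
  | conj (k : ℕ) (Γ : Set (Fm × Lb)) (α β : Fm) (L : Lb) (h : (Fm.and α β, L) ∈ Γ)
      (t : Cr S k (insert (α, L) (insert (β, L) Γ))) : Cr S k Γ
  | negDisj (k : ℕ) (Γ : Set (Fm × Lb)) (α β : Fm) (L : Lb) (h : (Fm.neg (Fm.or α β), L) ∈ Γ)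
      (t : Cr S k (insert (Fm.neg α, L) (insert (Fm.neg β, L) Γ))) : Cr S k Γ
  | negNeg (k : ℕ) (Γ : Set (Fm × Lb)) (α : Fm) (L : Lb) (h : (Fm.neg (Fm.neg α), L) ∈ Γ)
      (t : Cr S k (insert (α, L) Γ)) : Cr S k Γ
  | negConj (k : ℕ) (Γ : Set (Fm × Lb)) (α β : Fm) (L : Lb) (h : (Fm.neg (Fm.and α β), L) ∈ Γ)
      (t₁ : Cr S k (insert (Fm.neg α, L) Γ)) (t₂ : Cr S k (insert (Fm.neg β, L) Γ)) : Cr S k Γ
  | disj (k : ℕ) (Γ : Set (Fm × Lb)) (α β : Fm) (L : Lb) (h : (Fm.or α β, L) ∈ Γ)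
      (t₁ : Cr S k (insert (α, L) Γ)) (t₂ : Cr S k (insert (β, L) Γ)) : Cr S k Γ
  | mp (k : ℕ) (Γ : Set (Fm × Lb)) (α β : Fm) (L₁ L₂ : Lb) (h₁ : (α, L₁) ∈ Γ)
      (h₂ : (Fm.imp α β, L₂) ∈ Γ) (t : Cr S k (insert (β, L₁ ∪ L₂) Γ)) : Cr S k Γ
  | counter (k : ℕ) (Γ : Set (Fm × Lb)) (α β : Fm) (L : Lb) (h : (Fm.neg (Fm.imp α β), L) ∈ Γ)
      (t : ∀ j, k ≤ j → Cr S (j + 1)
        (insert (α, insert (j, false) L) (insert (Fm.neg β, insert (j, true) L) Γ))) : Cr S k Γ
  | recur (k : ℕ) (Γ : Set (Fm × Lb)) (α β : Fm) (L : Lb) (h : (α, L) ∈ Γ)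
      (hS : Fm.imp α β ∈ S) (t : Cr S k (insert (β, L) Γ)) : Cr S k Γ

lemma Cr.weaken {S : Set Fm} {k : ℕ} {Γ : Set (Fm × Lb)} (t : Cr S k Γ) :
    ∀ (k' : ℕ) (Γ' : Set (Fm × Lb)), k ≤ k' → Γ ⊆ Γ' → Cr S k' Γ' := by
  induction t with
  | crash k Γ ζ L₁ L₂ h₁ h₂ h =>
    exact fun k' Γ' _ hΓ => Cr.crash k' Γ' ζ L₁ L₂ (hΓ h₁) (hΓ h₂) h
  | conj k Γ α β L h _ ih =>
    exact fun k' Γ' hk hΓ => Cr.conj k' Γ' α β L (hΓ h)
      (ih k' _ hk (Set.insert_subset_insert (Set.insert_subset_insert hΓ)))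
  | negDisj k Γ α β L h _ ih =>
    exact fun k' Γ' hk hΓ => Cr.negDisj k' Γ' α β L (hΓ h)
      (ih k' _ hk (Set.insert_subset_insert (Set.insert_subset_insert hΓ)))
  | negNeg k Γ α L h _ ih =>
    exact fun k' Γ' hk hΓ => Cr.negNeg k' Γ' α L (hΓ h)
      (ih k' _ hk (Set.insert_subset_insert hΓ))
  | negConj k Γ α β L h _ _ ih₁ ih₂ =>
    exact fun k' Γ' hk hΓ => Cr.negConj k' Γ' α β L (hΓ h)
      (ih₁ k' _ hk (Set.insert_subset_insert hΓ)) (ih₂ k' _ hk (Set.insert_subset_insert hΓ))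
  | disj k Γ α β L h _ _ ih₁ ih₂ =>
    exact fun k' Γ' hk hΓ => Cr.disj k' Γ' α β L (hΓ h)
      (ih₁ k' _ hk (Set.insert_subset_insert hΓ)) (ih₂ k' _ hk (Set.insert_subset_insert hΓ))
  | mp k Γ α β L₁ L₂ h₁ h₂ _ ih =>
    exact fun k' Γ' hk hΓ => Cr.mp k' Γ' α β L₁ L₂ (hΓ h₁) (hΓ h₂)
      (ih k' _ hk (Set.insert_subset_insert hΓ))
  | counter k Γ α β L h _ ih =>
    exact fun k' Γ' hk hΓ => Cr.counter k' Γ' α β L (hΓ h) fun j hj =>
      ih j (hk.trans hj) (j + 1) _ le_rfl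
        (Set.insert_subset_insert (Set.insert_subset_insert hΓ))
  | recur k Γ α β L h hS _ ih =>
    exact fun k' Γ' hk hΓ => Cr.recur k' Γ' α β L (hΓ h) hS
      (ih k' _ hk (Set.insert_subset_insert hΓ))

/-! ## Comparison with trees -/

/-- The labels `ℓ` of the positions of a branch, with the tokens `τ` of the critical nodes. -/
structure LInv (B : Branch) (ℓ : ℕ → Lb) (τ : ℕ → ℕ × Bool) : Prop where
  hlab : ∀ (i : ℕ) (n : Node), B[i]? = some n →
    ∀ x, x ∈ ℓ i ↔ (∃ j ∈ n.src, x ∈ ℓ j) ∨ (n.partner ≠ none ∧ x = τ i)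
  hpar : ∀ (i : ℕ) (n : Node) (p : ℕ), B[i]? = some n → n.partner = some p →
    ∃ m : Node, B[p]? = some m ∧ m.partner = some i ∧ τ p = ((τ i).1, !(τ i).2)
  hlt : ∀ (i : ℕ) (n : Node), B[i]? = some n → ∀ j ∈ n.src, j < i

/-- The tokens are different and have pair numbers below `k`. -/
structure FInv (B : Branch) (τ : ℕ → ℕ × Bool) (k : ℕ) : Prop where
  inj : ∀ (i i' : ℕ) (n n' : Node), B[i]? = some n → B[i']? = some n' → n.partner ≠ none →
    n'.partner ≠ none → τ i = τ i' → i = i'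
  bnd : ∀ (i : ℕ) (n : Node), B[i]? = some n → n.partner ≠ none → (τ i).1 < k

/-- The labelled formulas of a branch. -/
def Ent (B : Branch) (ℓ : ℕ → Lb) : Set (Fm × Lb) :=
  {x | ∃ (i : ℕ) (n : Node), B[i]? = some n ∧ x = (n.label, ℓ i)}

lemma get_one {B : Branch} {e : Node} {i : ℕ} {n : Node} (h : (B ++ [e])[i]? = some n) :
    (i < B.length ∧ B[i]? = some n) ∨ (i = B.length ∧ n = e) := by
  rcases Nat.lt_or_ge i B.length with hi | hi
  · rw [List.getElem?_append_left hi] at h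
    exact Or.inl ⟨hi, h⟩
  · rw [List.getElem?_append_right hi] at h
    have h2 := lt_of_get h
    have h3 : i = B.length := by
      simp at h2; omega
    subst h3
    simp at h
    exact Or.inr ⟨rfl, h.symm⟩

lemma get_two {B : Branch} {e₁ e₂ : Node} {i : ℕ} {n : Node} (h : (B ++ [e₁, e₂])[i]? = some n) :
    (i < B.length ∧ B[i]? = some n) ∨ (i = B.length ∧ n = e₁) ∨ (i = B.length + 1 ∧ n = e₂) := by
  rcases Nat.lt_or_ge i B.length with hi | hi
  · rw [List.getElem?_append_left hi] at h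
    exact Or.inl ⟨hi, h⟩
  · rw [List.getElem?_append_right hi] at h
    have h2 := lt_of_get h
    have h3 : i = B.length ∨ i = B.length + 1 := by
      simp at h2; omega
    rcases h3 with h3 | h3
    · subst h3
      simp at h
      exact Or.inr (Or.inl ⟨rfl, h.symm⟩)
    · subst h3
      simp at h
      exact Or.inr (Or.inr ⟨rfl, h.symm⟩)

lemma get_old {B B' : Branch} {i : ℕ} {n : Node} (h : B[i]? = some n) :
    (B ++ B')[i]? = some n := by
  rw [List.getElem?_append_left (lt_of_get h)]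
  exact h

lemma linv_append {B : Branch} {ℓ : ℕ → Lb} {τ : ℕ → ℕ × Bool} (hI : LInv B ℓ τ) (e : Node)
    (hp : e.partner = none) (hs : ∀ j ∈ e.src, j < B.length) (L : Lb)
    (hL : ∀ x, x ∈ L ↔ ∃ j ∈ e.src, x ∈ ℓ j) :
    LInv (B ++ [e]) (Function.update ℓ B.length L) τ := by
  have old : ∀ j, j < B.length → Function.update ℓ B.length L j = ℓ j := fun j hj =>
    Function.update_of_ne (by omega) _ _
  refine ⟨?_, ?_, ?_⟩
  · intro i n h x
    rcases get_one h with ⟨hi, h⟩ | ⟨rfl, rfl⟩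
    · rw [old i hi, hI.hlab i n h x]
      have : (∃ j ∈ n.src, x ∈ Function.update ℓ B.length L j) ↔ ∃ j ∈ n.src, x ∈ ℓ j := by
        constructor
        · rintro ⟨j, hj, hx⟩
          rw [old j (by have := hI.hlt i n h j hj; omega)] at hx
          exact ⟨j, hj, hx⟩
        · rintro ⟨j, hj, hx⟩
          refine ⟨j, hj, ?_⟩
          rw [old j (by have := hI.hlt i n h j hj; omega)]
          exact hx
      rw [this]
    · rw [Function.update_self, hL]
      constructor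
      · rintro ⟨j, hj, hx⟩
        refine Or.inl ⟨j, hj, ?_⟩
        rw [old j (hs j hj)]
        exact hx
      · rintro (⟨j, hj, hx⟩ | ⟨h1, _⟩)
        · rw [old j (hs j hj)] at hx
          exact ⟨j, hj, hx⟩
        · exact absurd hp h1
  · intro i n p h hn
    rcases get_one h with ⟨hi, h⟩ | ⟨rfl, rfl⟩
    · obtain ⟨m, h1, h2, h3⟩ := hI.hpar i n p h hn
      exact ⟨m, get_old h1, h2, h3⟩
    · rw [hp] at hn; simp at hn
  · intro i n h j hj
    rcases get_one h with ⟨_, h⟩ | ⟨rfl, rfl⟩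
    · exact hI.hlt i n h j hj
    · exact hs j hj

lemma finv_append {B : Branch} {τ : ℕ → ℕ × Bool} {k : ℕ} (hF : FInv B τ k) (e : Node)
    (hp : e.partner = none) : FInv (B ++ [e]) τ k := by
  refine ⟨?_, ?_⟩
  · intro i i' n n' h h' hn hn' ht
    rcases get_one h with ⟨_, h⟩ | ⟨rfl, rfl⟩
    · rcases get_one h' with ⟨_, h'⟩ | ⟨rfl, rfl⟩
      · exact hF.inj i i' n n' h h' hn hn' ht
      · exact absurd hp hn'
    · exact absurd hp hn
  · intro i n h hn
    rcases get_one h with ⟨_, h⟩ | ⟨rfl, rfl⟩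
    · exact hF.bnd i n h hn
    · exact absurd hp hn

lemma linv_counter {B : Branch} {ℓ : ℕ → Lb} {τ : ℕ → ℕ × Bool} (hI : LInv B ℓ τ) (i : ℕ)
    (hi : i < B.length) (a b : Fm) (j : ℕ) :
    LInv (B ++ [⟨a, [i], some (B.length + 1)⟩, ⟨b, [i], some B.length⟩])
      (Function.update (Function.update ℓ B.length (insert (j, false) (ℓ i))) (B.length + 1)
        (insert (j, true) (ℓ i)))
      (Function.update (Function.update τ B.length (j, false)) (B.length + 1) (j, true)) := by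
  set ℓ' := Function.update (Function.update ℓ B.length (insert (j, false) (ℓ i))) (B.length + 1)
        (insert (j, true) (ℓ i)) with hℓ'
  set τ' := Function.update (Function.update τ B.length (j, false)) (B.length + 1) (j, true)
    with hτ'
  have old : ∀ j, j < B.length → ℓ' j = ℓ j := fun j hj => by
    rw [hℓ', Function.update_of_ne (by omega), Function.update_of_ne (by omega)]
  have oldt : ∀ j, j < B.length → τ' j = τ j := fun j hj => by
    rw [hτ', Function.update_of_ne (by omega), Function.update_of_ne (by omega)]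
  have n1 : ℓ' B.length = insert (j, false) (ℓ i) := by
    rw [hℓ', Function.update_of_ne (by omega), Function.update_self]
  have n2 : ℓ' (B.length + 1) = insert (j, true) (ℓ i) := by rw [hℓ', Function.update_self]
  have t1 : τ' B.length = (j, false) := by
    rw [hτ', Function.update_of_ne (by omega), Function.update_self]
  have t2 : τ' (B.length + 1) = (j, true) := by rw [hτ', Function.update_self]
  refine ⟨?_, ?_, ?_⟩
  · intro q n h x
    rcases get_two h with ⟨hq, h⟩ | ⟨rfl, rfl⟩ | ⟨rfl, rfl⟩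
    · rw [old q hq, oldt q hq, hI.hlab q n h x]
      have : (∃ j ∈ n.src, x ∈ ℓ' j) ↔ ∃ j ∈ n.src, x ∈ ℓ j := by
        constructor
        · rintro ⟨j, hj, hx⟩
          rw [old j (by have := hI.hlt q n h j hj; omega)] at hx
          exact ⟨j, hj, hx⟩
        · rintro ⟨j, hj, hx⟩
          refine ⟨j, hj, ?_⟩
          rw [old j (by have := hI.hlt q n h j hj; omega)]
          exact hx
      rw [this]
    · rw [n1, t1]
      constructor
      · rintro (rfl | hx)
        · exact Or.inr ⟨by simp, rfl⟩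
        · exact Or.inl ⟨i, by simp, by rw [old i hi]; exact hx⟩
      · rintro (⟨q, hq, hx⟩ | ⟨_, hx⟩)
        · simp only [List.mem_singleton] at hq
          subst hq
          rw [old q hi] at hx
          exact Or.inr hx
        · exact Or.inl hx
    · rw [n2, t2]
      constructor
      · rintro (rfl | hx)
        · exact Or.inr ⟨by simp, rfl⟩
        · exact Or.inl ⟨i, by simp, by rw [old i hi]; exact hx⟩
      · rintro (⟨q, hq, hx⟩ | ⟨_, hx⟩)
        · simp only [List.mem_singleton] at hq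
          subst hq
          rw [old q hi] at hx
          exact Or.inr hx
        · exact Or.inl hx
  · intro q n p h hn
    rcases get_two h with ⟨hq, h⟩ | ⟨rfl, rfl⟩ | ⟨rfl, rfl⟩
    · obtain ⟨m, h1, h2, h3⟩ := hI.hpar q n p h hn
      refine ⟨m, get_old h1, h2, ?_⟩
      rw [oldt q hq, oldt p (lt_of_get h1), h3]
    · simp only [Option.some.injEq] at hn
      subst hn
      refine ⟨⟨b, [i], some B.length⟩, ?_, rfl, ?_⟩
      · rw [List.getElem?_append_right (by omega)]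
        simp
      · rw [t1, t2]; rfl
    · simp only [Option.some.injEq] at hn
      subst hn
      refine ⟨⟨a, [i], some (B.length + 1)⟩, ?_, rfl, ?_⟩
      · rw [List.getElem?_append_right (by omega)]
        simp
      · rw [t1, t2]; rfl
  · intro q n h r hr
    rcases get_two h with ⟨hq, h⟩ | ⟨rfl, rfl⟩ | ⟨rfl, rfl⟩
    · exact hI.hlt q n h r hr
    · simp only [List.mem_singleton] at hr
      omega
    · simp only [List.mem_singleton] at hr
      omega

lemma finv_counter {B : Branch} {τ : ℕ → ℕ × Bool} {k : ℕ} (hF : FInv B τ k) (i : ℕ)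
    (a b : Fm) :
    FInv (B ++ [⟨a, [i], some (B.length + 1)⟩, ⟨b, [i], some B.length⟩])
      (Function.update (Function.update τ B.length (k, false)) (B.length + 1) (k, true))
      (k + 1) := by
  set τ' := Function.update (Function.update τ B.length (k, false)) (B.length + 1) (k, true)
    with hτ'
  have oldt : ∀ j, j < B.length → τ' j = τ j := fun j hj => by
    rw [hτ', Function.update_of_ne (by omega), Function.update_of_ne (by omega)]
  have t1 : τ' B.length = (k, false) := by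
    rw [hτ', Function.update_of_ne (by omega), Function.update_self]
  have t2 : τ' (B.length + 1) = (k, true) := by rw [hτ', Function.update_self]
  have bnd : ∀ (i : ℕ) (n : Node), B[i]? = some n → n.partner ≠ none → (τ' i).1 < k := by
    intro i n h hn
    rw [oldt i (lt_of_get h)]
    exact hF.bnd i n h hn
  refine ⟨?_, ?_⟩
  · intro p q n n' h h' hn hn' ht
    rcases get_two h with ⟨hp, h⟩ | ⟨rfl, rfl⟩ | ⟨rfl, rfl⟩ <;>
      rcases get_two h' with ⟨hq, h'⟩ | ⟨rfl, rfl⟩ | ⟨rfl, rfl⟩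
    · rw [oldt p hp, oldt q hq] at ht
      exact hF.inj p q n n' h h' hn hn' ht
    · have := bnd p n h hn
      rw [ht, t1] at this
      simp at this
    · have := bnd p n h hn
      rw [ht, t2] at this
      simp at this
    · have := bnd q n' h' hn'
      rw [← ht, t1] at this
      simp at this
    · rfl
    · rw [t1, t2] at ht
      simp at ht
    · have := bnd q n' h' hn'
      rw [← ht, t2] at this
      simp at this
    · rw [t1, t2] at ht
      simp at ht
    · rfl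
  · intro p n h hn
    rcases get_two h with ⟨hp, h⟩ | ⟨rfl, rfl⟩ | ⟨rfl, rfl⟩
    · have := bnd p n h hn
      omega
    · rw [t1]; simp
    · rw [t2]; simp

lemma label_of_trace {B : Branch} {ℓ : ℕ → Lb} {τ : ℕ → ℕ × Bool} (hI : LInv B ℓ τ) {i c : ℕ}
    (h : InTrace B i c) : ℓ c ⊆ ℓ i := by
  induction h with
  | self => exact le_rfl
  | step m k e _ h2 h3 ih =>
    intro x hx
    exact ih ((hI.hlab m e h2 x).2 (Or.inl ⟨k, h3, hx⟩))

lemma trace_trans {B : Branch} {i j k : ℕ} (h₁ : InTrace B i j) (h₂ : InTrace B j k) :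
    InTrace B i k := by
  induction h₂ with
  | self => exact h₁
  | step m k e _ h2 h3 ih => exact InTrace.step m k e ih h2 h3

lemma mem_label {B : Branch} {ℓ : ℕ → Lb} {τ : ℕ → ℕ × Bool} (hI : LInv B ℓ τ) :
    ∀ i, i < B.length → ∀ x, x ∈ ℓ i →
      ∃ (c : ℕ) (n : Node), InTrace B i c ∧ B[c]? = some n ∧ n.partner ≠ none ∧ x = τ c := by
  intro i
  induction i using Nat.strong_induction_on with
  | _ i ih =>
    intro hi x hx
    have he : B[i]? = some B[i] := List.getElem?_eq_getElem hi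
    rcases (hI.hlab i _ he x).1 hx with ⟨j, hj, hxj⟩ | ⟨h1, h2⟩
    · have hlt := hI.hlt i _ he j hj
      obtain ⟨c, n, h3, h4, h5, h6⟩ := ih j hlt (by omega) x hxj
      exact ⟨c, n, trace_trans (InTrace.step i j _ InTrace.self he hj) h3, h4, h5, h6⟩
    · exact ⟨i, _, InTrace.self, he, h1, h2⟩

lemma trace_mem {B : Branch} {ℓ : ℕ → Lb} {τ : ℕ → ℕ × Bool} (hI : LInv B ℓ τ) {i c : ℕ}
    {n : Node} (h : InTrace B i c) (hc : B[c]? = some n) (hn : n.partner ≠ none) :
    τ c ∈ ℓ i :=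
  label_of_trace hI h ((hI.hlab c n hc _).2 (Or.inr ⟨hn, rfl⟩))

lemma closed_of_parity {B : Branch} {ℓ : ℕ → Lb} {τ : ℕ → ℕ × Bool} (hI : LInv B ℓ τ) {n m : ℕ}
    (hn : n < B.length) (hm : m < B.length)
    (h : ∀ (c d : ℕ) (e : Node), B[c]? = some e → e.partner = some d →
      ((InTrace B n c ∨ InTrace B m c) ↔ (InTrace B n d ∨ InTrace B m d))) :
    Closed (ℓ n ∪ ℓ m) := by
  have key : ∀ x : ℕ × Bool, x ∈ ℓ n ∪ ℓ m → (x.1, !x.2) ∈ ℓ n ∪ ℓ m := by
    intro x hx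
    obtain ⟨c, e, h1, h2, h3, h4⟩ : ∃ (c : ℕ) (e : Node), (InTrace B n c ∨ InTrace B m c) ∧
        B[c]? = some e ∧ e.partner ≠ none ∧ x = τ c := by
      rcases hx with hx | hx
      · obtain ⟨c, e, h1, h2⟩ := mem_label hI n hn x hx
        exact ⟨c, e, Or.inl h1, h2⟩
      · obtain ⟨c, e, h1, h2⟩ := mem_label hI m hm x hx
        exact ⟨c, e, Or.inr h1, h2⟩
    obtain ⟨d, hd⟩ := Option.ne_none_iff_exists'.1 h3
    obtain ⟨e', h5, h6, h7⟩ := hI.hpar c e d h2 hd
    have hne : e'.partner ≠ none := by rw [h6]; simp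
    subst h4
    rw [← h7]
    rcases (h c d e h2 hd).1 h1 with h8 | h8
    · exact Or.inl (trace_mem hI h8 h5 hne)
    · exact Or.inr (trace_mem hI h8 h5 hne)
  intro j
  exact ⟨fun h => key _ h, fun h => key _ h⟩

lemma parity_of_closed {B : Branch} {ℓ : ℕ → Lb} {τ : ℕ → ℕ × Bool} {k : ℕ} (hI : LInv B ℓ τ)
    (hF : FInv B τ k) {n m : ℕ} (hn : n < B.length) (hm : m < B.length)
    (h : Closed (ℓ n ∪ ℓ m)) : ∀ (c d : ℕ) (e : Node), B[c]? = some e → e.partner = some d →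
      ((InTrace B n c ∨ InTrace B m c) ↔ (InTrace B n d ∨ InTrace B m d)) := by
  have hc : ∀ x : ℕ × Bool, x ∈ ℓ n ∪ ℓ m → (x.1, !x.2) ∈ ℓ n ∪ ℓ m := by
    rintro ⟨j, b⟩ hx
    cases b
    · exact (h j).2 hx
    · exact (h j).1 hx
  have key : ∀ (c d : ℕ) (e : Node), B[c]? = some e → e.partner = some d →
      (InTrace B n c ∨ InTrace B m c) → (InTrace B n d ∨ InTrace B m d) := by
    intro c d e h1 h2 h3
    have hne : e.partner ≠ none := by rw [h2]; simp
    have h4 : τ c ∈ ℓ n ∪ ℓ m := by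
      rcases h3 with h3 | h3
      · exact Or.inl (trace_mem hI h3 h1 hne)
      · exact Or.inr (trace_mem hI h3 h1 hne)
    obtain ⟨e', h5, h6, h7⟩ := hI.hpar c e d h1 h2
    have hne' : e'.partner ≠ none := by rw [h6]; simp
    have h8 := hc _ h4
    rw [← h7] at h8
    rcases h8 with h8 | h8
    · obtain ⟨c', e'', h9, h10, h11, h12⟩ := mem_label hI n hn _ h8
      have := hF.inj d c' e' e'' h5 h10 hne' h11 h12
      subst this
      exact Or.inl h9
    · obtain ⟨c', e'', h9, h10, h11, h12⟩ := mem_label hI m hm _ h8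
      have := hF.inj d c' e' e'' h5 h10 hne' h11 h12
      subst this
      exact Or.inr h9
  intro c d e h1 h2
  refine ⟨key c d e h1 h2, fun h3 => ?_⟩
  obtain ⟨e', h5, h6, _⟩ := hI.hpar c e d h1 h2
  exact key d c e' h5 h6 h3

lemma ent_one {B : Branch} {ℓ : ℕ → Lb} (e : Node) (L : Lb) :
    Ent (B ++ [e]) (Function.update ℓ B.length L) = insert (e.label, L) (Ent B ℓ) := by
  ext x
  constructor
  · rintro ⟨i, n, h, rfl⟩
    rcases get_one h with ⟨hi, h⟩ | ⟨rfl, rfl⟩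
    · right
      exact ⟨i, n, h, by rw [Function.update_of_ne (by omega)]⟩
    · left
      rw [Function.update_self]
  · rintro (rfl | ⟨i, n, h, rfl⟩)
    · exact ⟨B.length, e, by simp, by rw [Function.update_self]⟩
    · have := lt_of_get h
      exact ⟨i, n, get_old h, by rw [Function.update_of_ne (by omega)]⟩

lemma ent_two {B : Branch} {ℓ : ℕ → Lb} (a b : Node) (L₁ L₂ : Lb) :
    Ent (B ++ [a, b]) (Function.update (Function.update ℓ B.length L₁) (B.length + 1) L₂) =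
      insert (a.label, L₁) (insert (b.label, L₂) (Ent B ℓ)) := by
  have h := ent_one (B := B ++ [a]) (ℓ := Function.update ℓ B.length L₁) b L₂
  have hl : (B ++ [a]).length = B.length + 1 := by simp
  rw [List.append_assoc, hl, ent_one] at h
  rw [Set.insert_comm]
  exact h

/-- The rules that add two nodes with the same label. -/
lemma linv_two {B : Branch} {ℓ : ℕ → Lb} {τ : ℕ → ℕ × Bool} (hI : LInv B ℓ τ) (i : ℕ)
    (hi : i < B.length) (a b : Fm) :
    LInv (B ++ [⟨a, [i], none⟩, ⟨b, [i], none⟩])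
      (Function.update (Function.update ℓ B.length (ℓ i)) (B.length + 1) (ℓ i)) τ := by
  have h1 := linv_append hI ⟨a, [i], none⟩ rfl (by simpa using hi) (ℓ i) (by simp)
  have h2 := linv_append h1 ⟨b, [i], none⟩ rfl (by simp; omega) (ℓ i) (by
    intro x
    simp only [List.mem_singleton, exists_eq_left]
    rw [Function.update_of_ne (by omega)])
  rw [List.append_assoc] at h2
  simpa using h2

lemma finv_two {B : Branch} {τ : ℕ → ℕ × Bool} {k : ℕ} (hF : FInv B τ k) (i : ℕ)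
    (a b : Fm) : FInv (B ++ [⟨a, [i], none⟩, ⟨b, [i], none⟩]) τ k := by
  have h1 := finv_append hF ⟨a, [i], none⟩ rfl
  have h2 := finv_append h1 ⟨b, [i], none⟩ rfl
  rw [List.append_assoc] at h2
  exact h2

lemma mem_ent {B : Branch} {ℓ : ℕ → Lb} {i : ℕ} {n : Node} (h : B[i]? = some n) :
    (n.label, ℓ i) ∈ Ent B ℓ := ⟨i, n, h, rfl⟩

lemma lab_ent {B : Branch} {ℓ : ℕ → Lb} {i : ℕ} {f : Fm} (h : lab B i = some f) :
    i < B.length ∧ (f, ℓ i) ∈ Ent B ℓ := by
  obtain ⟨n, h1, rfl⟩ := lab_some h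
  exact ⟨lt_of_get h1, mem_ent h1⟩

lemma ent_lab {B : Branch} {ℓ : ℕ → Lb} {f : Fm} {L : Lb} (h : (f, L) ∈ Ent B ℓ) :
    ∃ i, i < B.length ∧ lab B i = some f ∧ L = ℓ i := by
  obtain ⟨i, n, h1, h2⟩ := h
  rw [Prod.mk.injEq] at h2
  refine ⟨i, lt_of_get h1, ?_, h2.2⟩
  rw [lab, h1, h2.1]
  rfl

/-- From trees to the abstract form. -/
lemma tree_cr {S : Set Fm} {B : Branch} (t : Tree S B) : ∀ (k : ℕ) (ℓ : ℕ → Lb)
    (τ : ℕ → ℕ × Bool), LInv B ℓ τ → (∀ B' ∈ t.branches, ParityAt B') → Cr S k (Ent B ℓ) := by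
  induction t with
  | leaf B =>
    intro k ℓ τ hI hP
    obtain ⟨n, m, ⟨ζ, h1, h2⟩, h3⟩ := hP B (by simp [Tree.branches])
    obtain ⟨hn, h1'⟩ := lab_ent (ℓ := ℓ) h1
    obtain ⟨hm, h2'⟩ := lab_ent (ℓ := ℓ) h2
    exact Cr.crash k _ ζ _ _ h1' h2' (closed_of_parity hI hn hm h3)
  | conj B i α β h t ih =>
    intro k ℓ τ hI hP
    obtain ⟨hi, h'⟩ := lab_ent (ℓ := ℓ) h
    have := ih k _ τ (linv_two hI i hi α β) hP
    rw [ent_two] at this
    exact Cr.conj k _ α β _ h' this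
  | negDisj B i α β h t ih =>
    intro k ℓ τ hI hP
    obtain ⟨hi, h'⟩ := lab_ent (ℓ := ℓ) h
    have := ih k _ τ (linv_two hI i hi (Fm.neg α) (Fm.neg β)) hP
    rw [ent_two] at this
    exact Cr.negDisj k _ α β _ h' this
  | negNeg B i α h t ih =>
    intro k ℓ τ hI hP
    obtain ⟨hi, h'⟩ := lab_ent (ℓ := ℓ) h
    have := ih k _ τ (linv_append hI ⟨α, [i], none⟩ rfl (by simpa using hi) (ℓ i) (by simp)) hP
    rw [ent_one] at this
    exact Cr.negNeg k _ α _ h' this
  | negConj B i α β h t₁ t₂ ih₁ ih₂ =>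
    intro k ℓ τ hI hP
    obtain ⟨hi, h'⟩ := lab_ent (ℓ := ℓ) h
    have h1 := ih₁ k _ τ (linv_append hI ⟨Fm.neg α, [i], none⟩ rfl (by simpa using hi) (ℓ i)
      (by simp)) (fun B' hB' => hP B' (by simp [Tree.branches, hB']))
    have h2 := ih₂ k _ τ (linv_append hI ⟨Fm.neg β, [i], none⟩ rfl (by simpa using hi) (ℓ i)
      (by simp)) (fun B' hB' => hP B' (by simp [Tree.branches, hB']))
    rw [ent_one] at h1 h2
    exact Cr.negConj k _ α β _ h' h1 h2
  | disj B i α β h t₁ t₂ ih₁ ih₂ =>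
    intro k ℓ τ hI hP
    obtain ⟨hi, h'⟩ := lab_ent (ℓ := ℓ) h
    have h1 := ih₁ k _ τ (linv_append hI ⟨α, [i], none⟩ rfl (by simpa using hi) (ℓ i)
      (by simp)) (fun B' hB' => hP B' (by simp [Tree.branches, hB']))
    have h2 := ih₂ k _ τ (linv_append hI ⟨β, [i], none⟩ rfl (by simpa using hi) (ℓ i)
      (by simp)) (fun B' hB' => hP B' (by simp [Tree.branches, hB']))
    rw [ent_one] at h1 h2
    exact Cr.disj k _ α β _ h' h1 h2
  | mp B i j α β h₁ h₂ t ih =>
    intro k ℓ τ hI hP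
    obtain ⟨hi, h₁'⟩ := lab_ent (ℓ := ℓ) h₁
    obtain ⟨hj, h₂'⟩ := lab_ent (ℓ := ℓ) h₂
    have := ih k _ τ (linv_append hI ⟨β, [i, j], none⟩ rfl (by simp [hi, hj]) (ℓ i ∪ ℓ j)
      (by simp)) hP
    rw [ent_one] at this
    exact Cr.mp k _ α β _ _ h₁' h₂' this
  | counter B i α β h t ih =>
    intro k ℓ τ hI hP
    obtain ⟨hi, h'⟩ := lab_ent (ℓ := ℓ) h
    refine Cr.counter k _ α β _ h' fun j _ => ?_
    have := ih (j + 1) _ _ (linv_counter hI i hi α (Fm.neg β) j) hP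
    rw [ent_two] at this
    exact this
  | recur B i α β h hS t ih =>
    intro k ℓ τ hI hP
    obtain ⟨hi, h'⟩ := lab_ent (ℓ := ℓ) h
    have := ih k _ τ (linv_append hI ⟨β, [i], none⟩ rfl (by simpa using hi) (ℓ i) (by simp)) hP
    rw [ent_one] at this
    exact Cr.recur k _ α β _ h' hS this

/-- From the abstract form to trees. -/
lemma cr_tree {S : Set Fm} {k : ℕ} {Γ : Set (Fm × Lb)} (t : Cr S k Γ) : ∀ (B : Branch)
    (ℓ : ℕ → Lb) (τ : ℕ → ℕ × Bool), LInv B ℓ τ → FInv B τ k → Γ ⊆ Ent B ℓ →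
    ∃ t : Tree S B, ∀ B' ∈ t.branches, ParityAt B' := by
  induction t with
  | crash k Γ ζ L₁ L₂ h₁ h₂ h =>
    intro B ℓ τ hI hF hΓ
    obtain ⟨n, hn, h3, rfl⟩ := ent_lab (hΓ h₁)
    obtain ⟨m, hm, h4, rfl⟩ := ent_lab (hΓ h₂)
    refine ⟨Tree.leaf B, ?_⟩
    intro B' hB'
    simp only [Tree.branches, List.mem_singleton] at hB'
    subst hB'
    exact ⟨n, m, ⟨ζ, h3, h4⟩, parity_of_closed hI hF hn hm h⟩
  | conj k Γ α β L h _ ih =>
    intro B ℓ τ hI hF hΓ
    obtain ⟨i, hi, h3, rfl⟩ := ent_lab (hΓ h)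
    obtain ⟨t, ht⟩ := ih _ _ τ (linv_two hI i hi α β) (finv_two hF i α β) (by
      rw [ent_two]
      exact Set.insert_subset_insert (Set.insert_subset_insert hΓ))
    exact ⟨Tree.conj B i α β h3 t, ht⟩
  | negDisj k Γ α β L h _ ih =>
    intro B ℓ τ hI hF hΓ
    obtain ⟨i, hi, h3, rfl⟩ := ent_lab (hΓ h)
    obtain ⟨t, ht⟩ := ih _ _ τ (linv_two hI i hi (Fm.neg α) (Fm.neg β))
      (finv_two hF i (Fm.neg α) (Fm.neg β)) (by
      rw [ent_two]
      exact Set.insert_subset_insert (Set.insert_subset_insert hΓ))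
    exact ⟨Tree.negDisj B i α β h3 t, ht⟩
  | negNeg k Γ α L h _ ih =>
    intro B ℓ τ hI hF hΓ
    obtain ⟨i, hi, h3, rfl⟩ := ent_lab (hΓ h)
    obtain ⟨t, ht⟩ := ih _ _ τ (linv_append hI ⟨α, [i], none⟩ rfl (by simpa using hi) (ℓ i)
      (by simp)) (finv_append hF _ rfl) (by
      rw [ent_one]
      exact Set.insert_subset_insert hΓ)
    exact ⟨Tree.negNeg B i α h3 t, ht⟩
  | negConj k Γ α β L h _ _ ih₁ ih₂ =>
    intro B ℓ τ hI hF hΓ
    obtain ⟨i, hi, h3, rfl⟩ := ent_lab (hΓ h)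
    obtain ⟨t₁, ht₁⟩ := ih₁ _ _ τ (linv_append hI ⟨Fm.neg α, [i], none⟩ rfl
      (by simpa using hi) (ℓ i) (by simp)) (finv_append hF _ rfl) (by
      rw [ent_one]
      exact Set.insert_subset_insert hΓ)
    obtain ⟨t₂, ht₂⟩ := ih₂ _ _ τ (linv_append hI ⟨Fm.neg β, [i], none⟩ rfl
      (by simpa using hi) (ℓ i) (by simp)) (finv_append hF _ rfl) (by
      rw [ent_one]
      exact Set.insert_subset_insert hΓ)
    refine ⟨Tree.negConj B i α β h3 t₁ t₂, ?_⟩
    intro B' hB'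
    simp only [Tree.branches, List.mem_append] at hB'
    exact hB'.elim (ht₁ B') (ht₂ B')
  | disj k Γ α β L h _ _ ih₁ ih₂ =>
    intro B ℓ τ hI hF hΓ
    obtain ⟨i, hi, h3, rfl⟩ := ent_lab (hΓ h)
    obtain ⟨t₁, ht₁⟩ := ih₁ _ _ τ (linv_append hI ⟨α, [i], none⟩ rfl
      (by simpa using hi) (ℓ i) (by simp)) (finv_append hF _ rfl) (by
      rw [ent_one]
      exact Set.insert_subset_insert hΓ)
    obtain ⟨t₂, ht₂⟩ := ih₂ _ _ τ (linv_append hI ⟨β, [i], none⟩ rfl
      (by simpa using hi) (ℓ i) (by simp)) (finv_append hF _ rfl) (by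
      rw [ent_one]
      exact Set.insert_subset_insert hΓ)
    refine ⟨Tree.disj B i α β h3 t₁ t₂, ?_⟩
    intro B' hB'
    simp only [Tree.branches, List.mem_append] at hB'
    exact hB'.elim (ht₁ B') (ht₂ B')
  | mp k Γ α β L₁ L₂ h₁ h₂ _ ih =>
    intro B ℓ τ hI hF hΓ
    obtain ⟨i, hi, h3, rfl⟩ := ent_lab (hΓ h₁)
    obtain ⟨j, hj, h4, rfl⟩ := ent_lab (hΓ h₂)
    obtain ⟨t, ht⟩ := ih _ _ τ (linv_append hI ⟨β, [i, j], none⟩ rfl (by simp [hi, hj])
      (ℓ i ∪ ℓ j) (by simp)) (finv_append hF _ rfl) (by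
      rw [ent_one]
      exact Set.insert_subset_insert hΓ)
    exact ⟨Tree.mp B i j α β h3 h4 t, ht⟩
  | counter k Γ α β L h _ ih =>
    intro B ℓ τ hI hF hΓ
    obtain ⟨i, hi, h3, rfl⟩ := ent_lab (hΓ h)
    obtain ⟨t, ht⟩ := ih k le_rfl _ _ _ (linv_counter hI i hi α (Fm.neg β) k)
      (finv_counter hF i α (Fm.neg β)) (by
      rw [ent_two]
      exact Set.insert_subset_insert (Set.insert_subset_insert hΓ))
    exact ⟨Tree.counter B i α β h3 t, ht⟩
  | recur k Γ α β L h hS _ ih =>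
    intro B ℓ τ hI hF hΓ
    obtain ⟨i, hi, h3, rfl⟩ := ent_lab (hΓ h)
    obtain ⟨t, ht⟩ := ih _ _ τ (linv_append hI ⟨β, [i], none⟩ rfl (by simpa using hi) (ℓ i)
      (by simp)) (finv_append hF _ rfl) (by
      rw [ent_one]
      exact Set.insert_subset_insert hΓ)
    exact ⟨Tree.recur B i α β h3 hS t, ht⟩

/-- A formula has a tree with parity over `S` iff it has an abstract closed tree. -/
theorem tree_iff_cr (S : Set Fm) (φ : Fm) :
    (∃ t : TruthTree S φ, ∀ B ∈ t.branches, ParityAt B) ↔ Cr S 0 {(Fm.neg φ, (∅ : Lb))} := by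
  have one : ∀ (i : ℕ) (n : Node), ([⟨Fm.neg φ, [], none⟩] : Branch)[i]? = some n →
      i = 0 ∧ n = ⟨Fm.neg φ, [], none⟩ := by
    intro i n h
    have hi := lt_of_get h
    simp at hi
    subst hi
    simp at h
    exact ⟨rfl, h.symm⟩
  have hI : LInv [⟨Fm.neg φ, [], none⟩] (fun _ => (∅ : Lb)) (fun _ => (0, true)) := by
    refine ⟨?_, ?_, ?_⟩
    · intro i n h x
      obtain ⟨rfl, rfl⟩ := one i n h
      simp
    · intro i n p h hn
      obtain ⟨rfl, rfl⟩ := one i n h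
      simp at hn
    · intro i n h j hj
      obtain ⟨rfl, rfl⟩ := one i n h
      simp at hj
  have hF : FInv [⟨Fm.neg φ, [], none⟩] (fun _ => (0, true)) 0 := by
    refine ⟨?_, ?_⟩
    · intro i i' n n' h _ hn
      obtain ⟨rfl, rfl⟩ := one i n h
      simp at hn
    · intro i n h hn
      obtain ⟨rfl, rfl⟩ := one i n h
      simp at hn
  have hE : Ent [⟨Fm.neg φ, [], none⟩] (fun _ => (∅ : Lb)) = {(Fm.neg φ, (∅ : Lb))} := by
    ext x
    constructor
    · rintro ⟨i, n, h, rfl⟩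
      obtain ⟨rfl, rfl⟩ := one i n h
      rfl
    · rintro rfl
      exact ⟨0, _, rfl, rfl⟩
  constructor
  · rintro ⟨t, ht⟩
    have := tree_cr t 0 _ _ hI ht
    rw [hE] at this
    exact this
  · intro h
    exact cr_tree h _ _ _ hI hF (by rw [hE])

/-- The acceptable formulas, with the `iff` version of parity. -/
abbrev AA : Set Fm := Acc ParityAt

theorem mem_AA (φ : Fm) : φ ∈ AA ↔ Cr AA 0 {(Fm.neg φ, (∅ : Lb))} := by
  rw [acc_iff, tree_iff_cr]

end Pool.Agent.X81.TruthTrees
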