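import Mathlib
import Pool.Agent.X81.TruthTrees2

/-!
# Acceptable formulas: closure properties and the signed translation
-/

set_option autoImplicit false

namespace Pool.Agent.X81.TruthTrees

lemma imp_intro {α β : Fm} (h : ∀ j, Cr AA (j + 1) {(α, {(j, false)}), (Fm.neg β, {(j, true)})}) :
    Fm.imp α β ∈ AA := by
  rw [mem_AA]
  refine Cr.counter 0 _ α β ∅ (by simp) fun j _ => (h j).weaken _ _ le_rfl ?_
  intro x hx
  simp only [Set.mem_insert_iff, Set.mem_singleton_iff] at hx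
  rcases hx with rfl | rfl <;> simp

lemma contra {α β : Fm} (h : Fm.imp α β ∈ AA) : Fm.imp (Fm.neg β) (Fm.neg α) ∈ AA := by
  apply imp_intro
  intro j
  refine Cr.negNeg _ _ α {(j, true)} (by simp) ?_
  refine Cr.recur _ _ α β {(j, true)} (by simp) h ?_
  exact Cr.crash _ _ β {(j, true)} {(j, false)} (by simp) (by simp) (by intro q; simp <;> omega)

lemma det {α β : Fm} (h₁ : α ∈ AA) (h₂ : Fm.imp α β ∈ AA) : β ∈ AA := by
  rw [mem_AA] at h₁ ⊢
  refine Cr.recur _ _ (Fm.neg β) (Fm.neg α) ∅ (by simp) (contra h₂) ?_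
  exact h₁.weaken _ _ le_rfl (by simp)

lemma adj {α β : Fm} (h₁ : α ∈ AA) (h₂ : β ∈ AA) : Fm.and α β ∈ AA := by
  rw [mem_AA] at h₁ h₂ ⊢
  exact Cr.negConj _ _ α β ∅ (by simp) (h₁.weaken _ _ le_rfl (by simp))
    (h₂.weaken _ _ le_rfl (by simp))

lemma ident (α : Fm) : Fm.imp α α ∈ AA := by
  apply imp_intro
  intro j
  exact Cr.crash _ _ α {(j, false)} {(j, true)} (by simp) (by simp) (by intro q; simp <;> omega)

lemma trans {α β γ : Fm} (h₁ : Fm.imp α β ∈ AA) (h₂ : Fm.imp β γ ∈ AA) : Fm.imp α γ ∈ AA := by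
  apply imp_intro
  intro j
  refine Cr.recur _ _ α β {(j, false)} (by simp) h₁ ?_
  refine Cr.recur _ _ β γ {(j, false)} (by simp) h₂ ?_
  exact Cr.crash _ _ γ {(j, false)} {(j, true)} (by simp) (by simp) (by intro q; simp <;> omega)

lemma and_left (α β : Fm) : Fm.imp (Fm.and α β) α ∈ AA := by
  apply imp_intro
  intro j
  refine Cr.conj _ _ α β {(j, false)} (by simp) ?_
  exact Cr.crash _ _ α {(j, false)} {(j, true)} (by simp) (by simp) (by intro q; simp <;> omega)

lemma and_right (α β : Fm) : Fm.imp (Fm.and α β) β ∈ AA := by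
  apply imp_intro
  intro j
  refine Cr.conj _ _ α β {(j, false)} (by simp) ?_
  exact Cr.crash _ _ β {(j, false)} {(j, true)} (by simp) (by simp) (by intro q; simp <;> omega)

lemma and_intro {α β γ : Fm} (h₁ : Fm.imp α β ∈ AA) (h₂ : Fm.imp α γ ∈ AA) :
    Fm.imp α (Fm.and β γ) ∈ AA := by
  apply imp_intro
  intro j
  refine Cr.negConj _ _ β γ {(j, true)} (by simp) ?_ ?_
  · refine Cr.recur _ _ α β {(j, false)} (by simp) h₁ ?_
    exact Cr.crash _ _ β {(j, false)} {(j, true)} (by simp) (by simp) (by intro q; simp <;> omega)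
  · refine Cr.recur _ _ α γ {(j, false)} (by simp) h₂ ?_
    exact Cr.crash _ _ γ {(j, false)} {(j, true)} (by simp) (by simp) (by intro q; simp <;> omega)

lemma or_elim {α β γ : Fm} (h₁ : Fm.imp α γ ∈ AA) (h₂ : Fm.imp β γ ∈ AA) :
    Fm.imp (Fm.or α β) γ ∈ AA := by
  apply imp_intro
  intro j
  refine Cr.disj _ _ α β {(j, false)} (by simp) ?_ ?_
  · refine Cr.recur _ _ α γ {(j, false)} (by simp) h₁ ?_
    exact Cr.crash _ _ γ {(j, false)} {(j, true)} (by simp) (by simp) (by intro q; simp <;> omega)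
  · refine Cr.recur _ _ β γ {(j, false)} (by simp) h₂ ?_
    exact Cr.crash _ _ γ {(j, false)} {(j, true)} (by simp) (by simp) (by intro q; simp <;> omega)

lemma or_inl (α β : Fm) : Fm.imp α (Fm.or α β) ∈ AA := by
  apply imp_intro
  intro j
  refine Cr.negDisj _ _ α β {(j, true)} (by simp) ?_
  exact Cr.crash _ _ α {(j, false)} {(j, true)} (by simp) (by simp) (by intro q; simp <;> omega)

lemma or_inr (α β : Fm) : Fm.imp β (Fm.or α β) ∈ AA := by
  apply imp_intro
  intro j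
  refine Cr.negDisj _ _ α β {(j, true)} (by simp) ?_
  exact Cr.crash _ _ β {(j, false)} {(j, true)} (by simp) (by simp) (by intro q; simp <;> omega)

lemma and_mono {α β γ δ : Fm} (h₁ : Fm.imp α γ ∈ AA) (h₂ : Fm.imp β δ ∈ AA) :
    Fm.imp (Fm.and α β) (Fm.and γ δ) ∈ AA :=
  and_intro (trans (and_left α β) h₁) (trans (and_right α β) h₂)

lemma or_mono {α β γ δ : Fm} (h₁ : Fm.imp α γ ∈ AA) (h₂ : Fm.imp β δ ∈ AA) :
    Fm.imp (Fm.or α β) (Fm.or γ δ) ∈ AA :=
  or_elim (trans h₁ (or_inl γ δ)) (trans h₂ (or_inr γ δ))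

lemma nn_intro (α : Fm) : Fm.imp α (Fm.neg (Fm.neg α)) ∈ AA := by
  apply imp_intro
  intro j
  refine Cr.negNeg _ _ (Fm.neg α) {(j, true)} (by simp) ?_
  exact Cr.crash _ _ α {(j, false)} {(j, true)} (by simp) (by simp) (by intro q; simp <;> omega)

lemma nn_elim (α : Fm) : Fm.imp (Fm.neg (Fm.neg α)) α ∈ AA := by
  apply imp_intro
  intro j
  refine Cr.negNeg _ _ α {(j, false)} (by simp) ?_
  exact Cr.crash _ _ α {(j, false)} {(j, true)} (by simp) (by simp) (by intro q; simp <;> omega)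

lemma imp_mono {α β α' β' : Fm} (h₁ : Fm.imp α' α ∈ AA) (h₂ : Fm.imp β β' ∈ AA) :
    Fm.imp (Fm.imp α β) (Fm.imp α' β') ∈ AA := by
  apply imp_intro
  intro j
  refine Cr.counter _ _ α' β' {(j, true)} (by simp) fun i hi => ?_
  refine Cr.recur _ _ α' α {(i, false), (j, true)} (by simp) h₁ ?_
  refine Cr.mp _ _ α β {(i, false), (j, true)} {(j, false)} (by simp) (by simp) ?_
  refine Cr.recur _ _ β β' ({(i, false), (j, true)} ∪ {(j, false)}) (by simp) h₂ ?_
  exact Cr.crash _ _ β' ({(i, false), (j, true)} ∪ {(j, false)}) {(i, true), (j, true)}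
    (by simp) (by simp) (by intro q; simp <;> omega)

/-! ## The formula `τ` above all formulas with given letters -/

/-- `d ∨ ¬(d → d)`. -/
def cc (d : Fm) : Fm := Fm.or d (Fm.neg (Fm.imp d d))

/-- `¬(c → ¬c)`. -/
def tau (c : Fm) : Fm := Fm.neg (Fm.imp c (Fm.neg c))

lemma c_one (d : Fm) : Fm.imp (Fm.neg (Fm.imp (cc d) (cc d))) (cc d) ∈ AA := by
  apply imp_intro
  intro j
  refine Cr.negDisj _ _ d (Fm.neg (Fm.imp d d)) {(j, true)} (by unfold cc; simp) ?_
  refine Cr.negNeg _ _ (Fm.imp d d) {(j, true)} (by simp) ?_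
  refine Cr.counter _ _ (cc d) (cc d) {(j, false)} (by simp) fun i hi => ?_
  refine Cr.negDisj _ _ d (Fm.neg (Fm.imp d d)) {(i, true), (j, false)}
    (by unfold cc; simp) ?_
  refine Cr.negNeg _ _ (Fm.imp d d) {(i, true), (j, false)} (by simp) ?_
  refine Cr.disj _ _ d (Fm.neg (Fm.imp d d)) {(i, false), (j, false)} (by unfold cc; simp) ?_ ?_
  · refine Cr.mp _ _ d d {(i, false), (j, false)} {(j, true)} (by simp) (by simp) ?_
    exact Cr.crash _ _ d ({(i, false), (j, false)} ∪ {(j, true)}) {(i, true), (j, false)}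
      (by simp) (by simp) (by intro q; simp <;> omega)
  · refine Cr.counter _ _ d d {(i, false), (j, false)} (by simp) fun l hl => ?_
    refine Cr.mp _ _ d d {(l, false), (i, false), (j, false)} {(j, true)} (by simp)
      (by simp) ?_
    refine Cr.mp _ _ d d ({(l, false), (i, false), (j, false)} ∪ {(j, true)})
      {(i, true), (j, false)} (by simp) (by simp) ?_
    exact Cr.crash _ _ d (({(l, false), (i, false), (j, false)} ∪ {(j, true)}) ∪
      {(i, true), (j, false)}) {(l, true), (i, false), (j, false)}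
      (by simp) (by simp) (by intro q; simp <;> omega)

lemma ff_intro (c : Fm) : Fm.imp c (Fm.imp (Fm.neg c) (Fm.neg (Fm.imp c c))) ∈ AA := by
  apply imp_intro
  intro j
  refine Cr.counter _ _ (Fm.neg c) (Fm.neg (Fm.imp c c)) {(j, true)} (by simp) fun i hi => ?_
  refine Cr.negNeg _ _ (Fm.imp c c) {(i, true), (j, true)} (by simp) ?_
  refine Cr.mp _ _ c c {(j, false)} {(i, true), (j, true)} (by simp) (by simp) ?_
  exact Cr.crash _ _ c ({(j, false)} ∪ {(i, true), (j, true)}) {(i, false), (j, true)}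
      (by simp) (by simp) (by intro q; simp <;> omega)

lemma c_tau (c : Fm) : Fm.imp c (tau c) ∈ AA := by
  apply imp_intro
  intro j
  refine Cr.negNeg _ _ (Fm.imp c (Fm.neg c)) {(j, true)} (by unfold tau; simp) ?_
  refine Cr.mp _ _ c (Fm.neg c) {(j, false)} {(j, true)} (by simp) (by simp) ?_
  exact Cr.crash _ _ c {(j, false)} ({(j, false)} ∪ {(j, true)})
      (by simp) (by simp) (by intro q; simp <;> omega)

lemma tau_c {c : Fm} (hc : Fm.imp (Fm.neg (Fm.imp c c)) c ∈ AA) :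
    Fm.imp (tau c) (Fm.imp c (tau c)) ∈ AA := by
  apply imp_intro
  intro j
  refine Cr.counter _ _ c (tau c) {(j, true)} (by simp) fun i hi => ?_
  refine Cr.negNeg _ _ (Fm.imp c (Fm.neg c)) {(i, true), (j, true)} (by unfold tau; simp) ?_
  refine Cr.counter _ _ c (Fm.neg c) {(j, false)} (by unfold tau; simp) fun l hl => ?_
  refine Cr.negNeg _ _ c {(l, true), (j, false)} (by simp) ?_
  refine Cr.mp _ _ c (Fm.neg c) {(l, false), (j, false)} {(i, true), (j, true)} (by simp)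
    (by simp) ?_
  refine Cr.recur _ _ c (Fm.imp (Fm.neg c) (Fm.neg (Fm.imp c c))) {(l, true), (j, false)}
    (by simp) (ff_intro c) ?_
  refine Cr.mp _ _ (Fm.neg c) (Fm.neg (Fm.imp c c))
    ({(l, false), (j, false)} ∪ {(i, true), (j, true)}) {(l, true), (j, false)} (by simp)
    (by simp) ?_
  refine Cr.recur _ _ (Fm.neg (Fm.imp c c)) c
    (({(l, false), (j, false)} ∪ {(i, true), (j, true)}) ∪ {(l, true), (j, false)})
    (by simp) hc ?_
  refine Cr.mp _ _ c (Fm.neg c) {(i, false), (j, true)} {(i, true), (j, true)} (by simp)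
    (by simp) ?_
  exact Cr.crash _ _ c
    (({(l, false), (j, false)} ∪ {(i, true), (j, true)}) ∪ {(l, true), (j, false)})
    ({(i, false), (j, true)} ∪ {(i, true), (j, true)}) (by simp) (by simp) (by intro q; simp <;> omega)

lemma tau_tau {c : Fm} (hc : Fm.imp (Fm.neg (Fm.imp c c)) c ∈ AA) :
    Fm.imp (tau c) (Fm.imp (tau c) (tau c)) ∈ AA := by
  apply imp_intro
  intro j
  refine Cr.counter _ _ (tau c) (tau c) {(j, true)} (by simp) fun i hi => ?_
  refine Cr.counter _ _ c (Fm.neg c) {(j, false)} (by unfold tau; simp) fun l hl => ?_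
  refine Cr.negNeg _ _ c {(l, true), (j, false)} (by simp) ?_
  refine Cr.recur _ _ (tau c) (Fm.imp c (tau c)) {(i, false), (j, true)} (by simp)
    (tau_c hc) ?_
  refine Cr.mp _ _ c (tau c) {(l, false), (j, false)} {(i, false), (j, true)} (by simp)
    (by simp) ?_
  refine Cr.recur _ _ (tau c) (Fm.imp c (tau c)) ({(l, false), (j, false)} ∪
    {(i, false), (j, true)}) (by simp) (tau_c hc) ?_
  refine Cr.mp _ _ c (tau c) {(l, true), (j, false)} ({(l, false), (j, false)} ∪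
    {(i, false), (j, true)}) (by simp) (by simp) ?_
  exact Cr.crash _ _ (tau c) ({(l, true), (j, false)} ∪ ({(l, false), (j, false)} ∪
    {(i, false), (j, true)})) {(i, true), (j, true)} (by simp) (by simp) (by intro q; simp <;> omega)

lemma assertion (a b : Fm) : Fm.imp a (Fm.imp (Fm.imp a b) b) ∈ AA := by
  apply imp_intro
  intro j
  refine Cr.counter _ _ (Fm.imp a b) b {(j, true)} (by simp) fun i hi => ?_
  refine Cr.mp _ _ a b {(j, false)} {(i, false), (j, true)} (by simp) (by simp) ?_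
  exact Cr.crash _ _ b ({(j, false)} ∪ {(i, false), (j, true)}) {(i, true), (j, true)}
    (by simp) (by simp) (by intro q; simp <;> omega)

lemma contraction (a : Fm) : Fm.imp (Fm.imp a (Fm.neg a)) (Fm.neg a) ∈ AA := by
  apply imp_intro
  intro j
  refine Cr.negNeg _ _ a {(j, true)} (by simp) ?_
  refine Cr.mp _ _ a (Fm.neg a) {(j, true)} {(j, false)} (by simp) (by simp) ?_
  exact Cr.crash _ _ a {(j, true)} ({(j, true)} ∪ {(j, false)})
    (by simp) (by simp) (by intro q; simp <;> omega)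

/-- `¬τ → (τ → ¬τ)` for an idempotent `τ`. -/
lemma neg_tau {t : Fm} (ht : Fm.imp t (Fm.imp t t) ∈ AA) :
    Fm.imp (Fm.neg t) (Fm.imp t (Fm.neg t)) ∈ AA := by
  apply imp_intro
  intro j
  refine Cr.counter _ _ t (Fm.neg t) {(j, true)} (by simp) fun i hi => ?_
  refine Cr.negNeg _ _ t {(i, true), (j, true)} (by simp) ?_
  refine Cr.recur _ _ t (Fm.imp t t) {(i, false), (j, true)} (by simp) ht ?_
  refine Cr.mp _ _ t t {(i, true), (j, true)} {(i, false), (j, true)} (by simp)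
    (by simp) ?_
  exact Cr.crash _ _ t ({(i, true), (j, true)} ∪ {(i, false), (j, true)}) {(j, false)}
    (by simp) (by simp) (by intro q; simp <;> omega)

/-- The implication step of the upper bound. -/
lemma bound_imp {a b t : Fm} (h₁ : Fm.imp (Fm.neg a) t ∈ AA) (h₂ : Fm.imp b t ∈ AA) :
    Fm.imp (Fm.imp a b) t ∈ AA := by
  apply imp_intro
  intro j
  refine Cr.recur _ _ (Fm.neg t) (Fm.neg (Fm.neg a)) {(j, true)} (by simp) (contra h₁) ?_
  refine Cr.negNeg _ _ a {(j, true)} (by simp) ?_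
  refine Cr.mp _ _ a b {(j, true)} {(j, false)} (by simp) (by simp) ?_
  refine Cr.recur _ _ (Fm.neg t) (Fm.neg b) {(j, true)} (by simp) (contra h₂) ?_
  exact Cr.crash _ _ b ({(j, true)} ∪ {(j, false)}) {(j, true)}
    (by simp) (by simp) (by intro q; simp <;> omega)

lemma bound_neg_imp {a b t : Fm} (ht : Fm.imp t (Fm.imp t t) ∈ AA) (h₁ : Fm.imp a t ∈ AA)
    (h₂ : Fm.imp (Fm.neg b) t ∈ AA) : Fm.imp (Fm.neg (Fm.imp a b)) t ∈ AA := by
  apply imp_intro
  intro j
  refine Cr.counter _ _ a b {(j, false)} (by simp) fun i hi => ?_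
  refine Cr.recur _ _ a t {(i, false), (j, false)} (by simp) h₁ ?_
  refine Cr.recur _ _ (Fm.neg b) t {(i, true), (j, false)} (by simp) h₂ ?_
  refine Cr.recur _ _ t (Fm.imp t t) {(i, false), (j, false)} (by simp) ht ?_
  refine Cr.mp _ _ t t {(i, true), (j, false)} {(i, false), (j, false)} (by simp)
    (by simp) ?_
  exact Cr.crash _ _ t ({(i, true), (j, false)} ∪ {(i, false), (j, false)}) {(j, true)}
    (by simp) (by simp) (by intro q; simp <;> omega)

lemma neg_or_left (a b : Fm) : Fm.imp (Fm.neg (Fm.or a b)) (Fm.neg a) ∈ AA := contra (or_inl a b)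

lemma neg_or_right (a b : Fm) : Fm.imp (Fm.neg (Fm.or a b)) (Fm.neg b) ∈ AA := contra (or_inr a b)

lemma neg_and (a b c : Fm) (h₁ : Fm.imp (Fm.neg a) c ∈ AA) (h₂ : Fm.imp (Fm.neg b) c ∈ AA) :
    Fm.imp (Fm.neg (Fm.and a b)) c ∈ AA := by
  apply imp_intro
  intro j
  refine Cr.negConj _ _ a b {(j, false)} (by simp) ?_ ?_
  · refine Cr.recur _ _ (Fm.neg a) c {(j, false)} (by simp) h₁ ?_
    exact Cr.crash _ _ c {(j, false)} {(j, true)} (by simp) (by simp) (by intro q; simp <;> omega)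
  · refine Cr.recur _ _ (Fm.neg b) c {(j, false)} (by simp) h₂ ?_
    exact Cr.crash _ _ c {(j, false)} {(j, true)} (by simp) (by simp) (by intro q; simp <;> omega)

/-- Everything with letters below `t` is below `t`. -/
lemma bound {t : Fm} (ht : Fm.imp t (Fm.imp t t) ∈ AA) (φ : Fm)
    (h : ∀ n ∈ letters φ, Fm.imp (Fm.atom n) t ∈ AA ∧ Fm.imp (Fm.neg (Fm.atom n)) t ∈ AA) :
    Fm.imp φ t ∈ AA ∧ Fm.imp (Fm.neg φ) t ∈ AA := by
  induction φ with
  | atom n => exact h n rfl
  | neg a ih =>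
    obtain ⟨h1, h2⟩ := ih h
    exact ⟨h2, trans (nn_elim a) h1⟩
  | and a b iha ihb =>
    obtain ⟨h1, h2⟩ := iha (fun n hn => h n (Or.inl hn))
    obtain ⟨h3, h4⟩ := ihb (fun n hn => h n (Or.inr hn))
    exact ⟨trans (and_left a b) h1, neg_and a b t h2 h4⟩
  | or a b iha ihb =>
    obtain ⟨h1, h2⟩ := iha (fun n hn => h n (Or.inl hn))
    obtain ⟨h3, h4⟩ := ihb (fun n hn => h n (Or.inr hn))
    exact ⟨or_elim h1 h3, trans (neg_or_left a b) h2⟩
  | imp a b iha ihb =>
    obtain ⟨h1, h2⟩ := iha (fun n hn => h n (Or.inl hn))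
    obtain ⟨h3, h4⟩ := ihb (fun n hn => h n (Or.inr hn))
    exact ⟨bound_imp h2 h3, bound_neg_imp ht h1 h4⟩

/-- The disjunction of the formulas `p ∨ ¬p` over the letters of a formula. -/
def dd : Fm → Fm
  | Fm.atom n => Fm.or (Fm.atom n) (Fm.neg (Fm.atom n))
  | Fm.neg a => dd a
  | Fm.and a b => Fm.or (dd a) (dd b)
  | Fm.or a b => Fm.or (dd a) (dd b)
  | Fm.imp a b => Fm.or (dd a) (dd b)

lemma dd_mem (φ : Fm) : dd φ ∈ AA := by
  have base : ∀ a : Fm, Fm.or a (Fm.neg a) ∈ AA := by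
    intro a
    rw [mem_AA]
    refine Cr.negDisj _ _ a (Fm.neg a) ∅ (by simp) ?_
    exact Cr.crash _ _ (Fm.neg a) ∅ ∅ (by simp) (by simp) (by intro q; simp <;> omega)
  induction φ with
  | atom n => exact base _
  | neg a ih => exact ih
  | and a b iha _ => exact det iha (or_inl _ _)
  | or a b iha _ => exact det iha (or_inl _ _)
  | imp a b iha _ => exact det iha (or_inl _ _)

lemma dd_neg (φ : Fm) : Fm.imp (Fm.neg (dd φ)) (dd φ) ∈ AA := by
  have step : ∀ a b : Fm, Fm.imp (Fm.neg a) a ∈ AA →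
      Fm.imp (Fm.neg (Fm.or a b)) (Fm.or a b) ∈ AA := fun a b h =>
    trans (neg_or_left a b) (trans h (or_inl a b))
  induction φ with
  | atom n => exact trans (neg_or_left _ _) (or_inr _ _)
  | neg a ih => exact ih
  | and a b iha _ => exact step _ _ iha
  | or a b iha _ => exact step _ _ iha
  | imp a b iha _ => exact step _ _ iha

lemma dd_letters (φ : Fm) : ∀ n ∈ letters φ,
    Fm.imp (Fm.atom n) (dd φ) ∈ AA ∧ Fm.imp (Fm.neg (Fm.atom n)) (dd φ) ∈ AA := by
  have step : ∀ a b : Fm, (∀ n ∈ letters a,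
      Fm.imp (Fm.atom n) (dd a) ∈ AA ∧ Fm.imp (Fm.neg (Fm.atom n)) (dd a) ∈ AA) →
      (∀ n ∈ letters b, Fm.imp (Fm.atom n) (dd b) ∈ AA ∧
        Fm.imp (Fm.neg (Fm.atom n)) (dd b) ∈ AA) → ∀ n ∈ letters a ∪ letters b,
      Fm.imp (Fm.atom n) (Fm.or (dd a) (dd b)) ∈ AA ∧
        Fm.imp (Fm.neg (Fm.atom n)) (Fm.or (dd a) (dd b)) ∈ AA := by
    rintro a b ha hb n (hn | hn)
    · exact ⟨trans (ha n hn).1 (or_inl _ _), trans (ha n hn).2 (or_inl _ _)⟩
    · exact ⟨trans (hb n hn).1 (or_inr _ _), trans (hb n hn).2 (or_inr _ _)⟩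
  induction φ with
  | atom n =>
    rintro m rfl
    exact ⟨or_inl _ _, or_inr _ _⟩
  | neg a ih => exact ih
  | and a b iha ihb => exact step a b iha ihb
  | or a b iha ihb => exact step a b iha ihb
  | imp a b iha ihb => exact step a b iha ihb

/-- A formula that behaves like a top element for the formulas with letters in `δ`. -/
lemma exists_top (δ : Fm) : ∃ t : Fm, Fm.imp t (Fm.imp t t) ∈ AA ∧ Fm.imp (Fm.imp t t) t ∈ AA ∧
    Fm.imp (Fm.neg t) t ∈ AA ∧ ∀ φ, letters φ ⊆ letters δ →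
      Fm.imp φ t ∈ AA ∧ Fm.imp (Fm.neg φ) t ∈ AA := by
  set d := dd δ with hd
  have h1 := c_one d
  have h2 : cc d ∈ AA := det (dd_mem δ) (or_inl _ _)
  have h3 : Fm.imp (Fm.neg (cc d)) (cc d) ∈ AA :=
    trans (neg_or_left _ _) (trans (dd_neg δ) (or_inl _ _))
  have h4 := tau_tau h1
  have h5 : tau (cc d) ∈ AA := det h2 (c_tau _)
  refine ⟨tau (cc d), h4, det h5 (assertion _ _), ?_, ?_⟩
  · refine trans (nn_elim _) (trans (contraction (cc d)) (trans h3 (c_tau _)))
  · intro φ hφ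
    apply bound h4
    intro n hn
    obtain ⟨h6, h7⟩ := dd_letters δ n (hφ hn)
    exact ⟨trans h6 (trans (or_inl _ _) (c_tau _)), trans h7 (trans (or_inl _ _) (c_tau _))⟩

end Pool.Agent.X81.TruthTrees
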