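import Mathlib
import Pool.Agent.X81.TruthTrees3

/-!
# The signed translation of acceptable formulas, and omissibility
-/

set_option autoImplicit false

namespace Pool.Agent.X81.TruthTrees

/-- The two translations of a formula (`true`: the upper one); `P n`, `Q n` are the upper and the
lower translation of the letter `n`. -/
def tr (P Q : ℕ → Fm) : Bool → Fm → Fm
  | true, Fm.atom n => P n
  | false, Fm.atom n => Q n
  | s, Fm.neg a => Fm.neg (tr P Q (!s) a)
  | s, Fm.and a b => Fm.and (tr P Q s a) (tr P Q s b)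
  | s, Fm.or a b => Fm.or (tr P Q s a) (tr P Q s b)
  | true, Fm.imp a b =>
      Fm.and (Fm.imp (tr P Q true a) (tr P Q true b)) (Fm.imp (tr P Q false a) (tr P Q false b))
  | false, Fm.imp a b => Fm.imp (tr P Q true a) (tr P Q false b)

lemma tr_neg (P Q : ℕ → Fm) (s : Bool) (a : Fm) :
    tr P Q s (Fm.neg a) = Fm.neg (tr P Q (!s) a) := by cases s <;> rfl

lemma tr_and (P Q : ℕ → Fm) (s : Bool) (a b : Fm) :
    tr P Q s (Fm.and a b) = Fm.and (tr P Q s a) (tr P Q s b) := by cases s <;> rfl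

lemma tr_or (P Q : ℕ → Fm) (s : Bool) (a b : Fm) :
    tr P Q s (Fm.or a b) = Fm.or (tr P Q s a) (tr P Q s b) := by cases s <;> rfl

lemma tr_le {P Q : ℕ → Fm} (h : ∀ n, Fm.imp (Q n) (P n) ∈ AA) (φ : Fm) :
    Fm.imp (tr P Q false φ) (tr P Q true φ) ∈ AA := by
  induction φ with
  | atom n => exact h n
  | neg a ih => exact contra ih
  | and a b iha ihb => exact and_mono iha ihb
  | or a b iha ihb => exact or_mono iha ihb
  | imp a b iha ihb => exact and_intro (imp_mono (ident _) ihb) (imp_mono iha (ident _))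

/-- `m j = some b`: the pair `j` is active and its token `(j, b)` is the unmarked one. `Un m L`:
the greatest active pair with a token in `L` has only its unmarked token in `L`. -/
def Un (m : ℕ → Option Bool) (L : Lb) : Prop :=
  ∃ j b, m j = some b ∧ (j, b) ∈ L ∧ (j, !b) ∉ L ∧
    ∀ i, j < i → m i ≠ none → ∀ c : Bool, (i, c) ∉ L

lemma un_union {m : ℕ → Option Bool} {L₁ L₂ : Lb} (h₁ : Un m L₁) (h₂ : Un m L₂) :
    Un m (L₁ ∪ L₂) := by
  obtain ⟨j₁, b₁, h1, h2, h3, h4⟩ := h₁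
  obtain ⟨j₂, b₂, g1, g2, g3, g4⟩ := h₂
  rcases lt_trichotomy j₁ j₂ with hj | hj | hj
  · refine ⟨j₂, b₂, g1, Or.inr g2, ?_, ?_⟩
    · rintro (h | h)
      · exact h4 j₂ hj (by rw [g1]; simp) _ h
      · exact g3 h
    · rintro i hi hm c (h | h)
      · exact h4 i (hj.trans hi) hm c h
      · exact g4 i hi hm c h
  · subst hj
    rw [h1] at g1
    simp only [Option.some.injEq] at g1
    subst g1
    refine ⟨j₁, b₁, h1, Or.inl h2, ?_, ?_⟩
    · rintro (h | h)
      · exact h3 h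
      · exact g3 h
    · rintro i hi hm c (h | h)
      · exact h4 i hi hm c h
      · exact g4 i hi hm c h
  · refine ⟨j₁, b₁, h1, Or.inl h2, ?_, ?_⟩
    · rintro (h | h)
      · exact h3 h
      · exact g4 j₁ hj (by rw [h1]; simp) _ h
    · rintro i hi hm c (h | h)
      · exact h4 i hi hm c h
      · exact g4 i (hj.trans hi) hm c h

lemma un_not_closed {m : ℕ → Option Bool} {L : Lb} (h : Un m L) : ¬ Closed L := by
  obtain ⟨j, b, _, h2, h3, _⟩ := h
  intro hc
  cases b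
  · exact h3 ((hc j).2 h2)
  · exact h3 ((hc j).1 h2)

lemma un_update {m : ℕ → Option Bool} {L : Lb} (h : Un m L) {k j : ℕ} (hk : k ≤ j)
    (hL : ∀ y ∈ L, y.1 < k) (v : Option Bool) : Un (Function.update m j v) L := by
  obtain ⟨i, b, h1, h2, h3, h4⟩ := h
  have hi : i < k := hL _ h2
  refine ⟨i, b, ?_, h2, h3, ?_⟩
  · rw [Function.update_of_ne (by omega)]
    exact h1
  · intro l hl hm c hc
    have := hL _ hc
    simp only at this
    rw [Function.update_of_ne (by omega)] at hm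
    exact h4 l hl hm c hc

lemma un_insert {m : ℕ → Option Bool} {L : Lb} (h : Un m L) {j : ℕ} (hj : m j = none)
    (c : Bool) : Un m (insert (j, c) L) := by
  obtain ⟨i, b, h1, h2, h3, h4⟩ := h
  have hne : i ≠ j := by
    rintro rfl
    rw [h1] at hj
    simp at hj
  refine ⟨i, b, h1, Or.inr h2, ?_, ?_⟩
  · rintro (h | h)
    · simp only [Prod.mk.injEq] at h
      exact hne h.1
    · exact h3 h
  · rintro l hl hm d (h | h)
    · simp only [Prod.mk.injEq] at h
      rw [h.1] at hm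
      exact hm hj
    · exact h4 l hl hm d h

lemma un_new {m : ℕ → Option Bool} {L : Lb} {k j : ℕ} (hk : k ≤ j) (hL : ∀ y ∈ L, y.1 < k)
    (hm : ∀ i, k ≤ i → m i = none) (b : Bool) :
    Un (Function.update m j (some b)) (insert (j, b) L) := by
  refine ⟨j, b, by rw [Function.update_self], Or.inl rfl, ?_, ?_⟩
  · rintro (h | h)
    · simp only [Prod.mk.injEq] at h
      cases b <;> simp at h
    · have := hL _ h
      simp only at this
      omega
  · intro i hi hn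
    rw [Function.update_of_ne (by omega)] at hn
    exact absurd (hm i (by omega)) hn

/-- The labelled formula `(φ, L)` is represented in `Γ'`. -/
def Good (P Q : ℕ → Fm) (m : ℕ → Option Bool) (Γ' : Set (Fm × Lb)) (φ : Fm) (L : Lb) : Prop :=
  ∃ s : Bool, (tr P Q s φ, L) ∈ Γ' ∧ (s = true → Un m L)

lemma Good.mono {P Q : ℕ → Fm} {m : ℕ → Option Bool} {Γ' Γ'' : Set (Fm × Lb)} {φ : Fm} {L : Lb}
    (h : Good P Q m Γ' φ L) (hΓ : Γ' ⊆ Γ'') : Good P Q m Γ'' φ L := by
  obtain ⟨s, h1, h2⟩ := h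
  exact ⟨s, hΓ h1, h2⟩

/-- The translation of closed trees. -/
theorem tr_cr {P Q : ℕ → Fm} (hPQ : ∀ n, Fm.imp (Q n) (P n) ∈ AA) {S : Set Fm}
    (hS : ∀ φ ∈ S, tr P Q true φ ∈ AA) {k : ℕ} {Γ : Set (Fm × Lb)} (t : Cr S k Γ) :
    ∀ (m : ℕ → Option Bool) (Γ' : Set (Fm × Lb)), (∀ i, k ≤ i → m i = none) →
      (∀ φ L, (φ, L) ∈ Γ → ∀ y ∈ L, y.1 < k) →
      (∀ φ L, (φ, L) ∈ Γ → Good P Q m Γ' φ L) → Cr AA k Γ' := by
  -- one new formula
  have ins : ∀ (m : ℕ → Option Bool) (Γ Γ' : Set (Fm × Lb)) (α : Fm) (L : Lb) (s : Bool),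
      (∀ φ L, (φ, L) ∈ Γ → Good P Q m Γ' φ L) → (s = true → Un m L) →
      ∀ φ L', (φ, L') ∈ insert (α, L) Γ → Good P Q m (insert (tr P Q s α, L) Γ') φ L' := by
    intro m Γ Γ' α L s hG hs φ L' h
    rcases h with h | h
    · simp only [Prod.mk.injEq] at h
      obtain ⟨rfl, rfl⟩ := h
      exact ⟨s, Or.inl rfl, hs⟩
    · exact (hG φ L' h).mono (Set.subset_insert _ _)
  have bnd : ∀ (k : ℕ) (Γ : Set (Fm × Lb)) (α : Fm) (L : Lb),
      (∀ φ L, (φ, L) ∈ Γ → ∀ y ∈ L, y.1 < k) → (∀ y ∈ L, y.1 < k) →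
      ∀ φ L', (φ, L') ∈ insert (α, L) Γ → ∀ y ∈ L', y.1 < k := by
    intro k Γ α L hB hL φ L' h
    rcases h with h | h
    · simp only [Prod.mk.injEq] at h
      obtain ⟨rfl, rfl⟩ := h
      exact hL
    · exact hB φ L' h
  induction t with
  | crash k Γ ζ L₁ L₂ h₁ h₂ h =>
    intro m Γ' hm hB hG
    obtain ⟨s, g1, g2⟩ := hG _ _ h₁
    obtain ⟨s', g3, g4⟩ := hG _ _ h₂
    rw [tr_neg] at g3
    cases s <;> cases s'
    · refine Cr.recur _ _ _ _ L₁ g1 (tr_le hPQ ζ) ?_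
      exact Cr.crash _ _ _ L₁ L₂ (Or.inl rfl) (Or.inr g3) h
    · exact Cr.crash _ _ _ L₁ L₂ g1 g3 h
    · exact Cr.crash _ _ _ L₁ L₂ g1 g3 h
    · exact absurd h (un_not_closed (un_union (g2 rfl) (g4 rfl)))
  | conj k Γ α β L h _ ih =>
    intro m Γ' hm hB hG
    obtain ⟨s, g1, g2⟩ := hG _ _ h
    rw [tr_and] at g1
    exact Cr.conj _ _ _ _ L g1 (ih m _ hm (bnd k _ _ _ (bnd k _ _ _ hB (hB _ _ h)) (hB _ _ h))
      (ins m _ _ _ _ s (ins m _ _ _ _ s hG g2) g2))
  | negDisj k Γ α β L h _ ih =>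
    intro m Γ' hm hB hG
    obtain ⟨s, g1, g2⟩ := hG _ _ h
    rw [tr_neg, tr_or] at g1
    have := ih m _ hm (bnd k _ _ _ (bnd k _ _ _ hB (hB _ _ h)) (hB _ _ h))
      (ins m _ _ _ _ s (ins m _ _ _ _ s hG g2) g2)
    rw [tr_neg, tr_neg] at this
    exact Cr.negDisj _ _ _ _ L g1 this
  | negNeg k Γ α L h _ ih =>
    intro m Γ' hm hB hG
    obtain ⟨s, g1, g2⟩ := hG _ _ h
    rw [tr_neg, tr_neg, Bool.not_not] at g1
    exact Cr.negNeg _ _ _ L g1 (ih m _ hm (bnd k _ _ _ hB (hB _ _ h)) (ins m _ _ _ _ s hG g2))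
  | negConj k Γ α β L h _ _ ih₁ ih₂ =>
    intro m Γ' hm hB hG
    obtain ⟨s, g1, g2⟩ := hG _ _ h
    rw [tr_neg, tr_and] at g1
    have h1 := ih₁ m _ hm (bnd k _ _ _ hB (hB _ _ h)) (ins m _ _ _ _ s hG g2)
    have h2 := ih₂ m _ hm (bnd k _ _ _ hB (hB _ _ h)) (ins m _ _ _ _ s hG g2)
    rw [tr_neg] at h1 h2
    exact Cr.negConj _ _ _ _ L g1 h1 h2
  | disj k Γ α β L h _ _ ih₁ ih₂ =>
    intro m Γ' hm hB hG
    obtain ⟨s, g1, g2⟩ := hG _ _ h
    rw [tr_or] at g1
    exact Cr.disj _ _ _ _ L g1 (ih₁ m _ hm (bnd k _ _ _ hB (hB _ _ h)) (ins m _ _ _ _ s hG g2))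
      (ih₂ m _ hm (bnd k _ _ _ hB (hB _ _ h)) (ins m _ _ _ _ s hG g2))
  | mp k Γ α β L₁ L₂ h₁ h₂ _ ih =>
    intro m Γ' hm hB hG
    obtain ⟨s, g1, g2⟩ := hG _ _ h₁
    obtain ⟨s', g3, g4⟩ := hG _ _ h₂
    have hb : ∀ y ∈ L₁ ∪ L₂, y.1 < k := by
      rintro y (hy | hy)
      · exact hB _ _ h₁ y hy
      · exact hB _ _ h₂ y hy
    cases s <;> cases s'
    · -- `α⁻` and `α⁺ → β⁻`
      refine Cr.recur _ _ _ _ L₁ g1 (tr_le hPQ α) ?_
      refine Cr.mp _ _ (tr P Q true α) (tr P Q false β) L₁ L₂ (Or.inl rfl) (Or.inr g3) ?_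
      refine (ih m (insert (tr P Q false β, L₁ ∪ L₂) Γ') hm (bnd k _ _ _ hB hb)
        (ins m _ _ _ _ false hG (by simp))).weaken _ _ le_rfl ?_
      exact Set.insert_subset_insert (Set.subset_insert _ _)
    · -- `α⁻` and `(α⁺ → β⁺) ∧ (α⁻ → β⁻)`
      refine Cr.conj _ _ _ _ L₂ g3 ?_
      refine Cr.mp _ _ (tr P Q false α) (tr P Q false β) L₁ L₂ (Or.inr (Or.inr g1))
        (Or.inr (Or.inl rfl)) ?_
      refine (ih m (insert (tr P Q false β, L₁ ∪ L₂) Γ') hm (bnd k _ _ _ hB hb)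
        (ins m _ _ _ _ false hG (by simp))).weaken _ _ le_rfl ?_
      exact Set.insert_subset_insert ((Set.subset_insert _ _).trans (Set.subset_insert _ _))
    · -- `α⁺` and `α⁺ → β⁻`
      refine Cr.mp _ _ (tr P Q true α) (tr P Q false β) L₁ L₂ g1 g3 ?_
      exact ih m (insert (tr P Q false β, L₁ ∪ L₂) Γ') hm (bnd k _ _ _ hB hb)
        (ins m _ _ _ _ false hG (by simp))
    · -- `α⁺` and `(α⁺ → β⁺) ∧ (α⁻ → β⁻)`
      refine Cr.conj _ _ _ _ L₂ g3 ?_
      refine Cr.mp _ _ (tr P Q true α) (tr P Q true β) L₁ L₂ (Or.inr (Or.inr g1))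
        (Or.inl rfl) ?_
      refine (ih m (insert (tr P Q true β, L₁ ∪ L₂) Γ') hm (bnd k _ _ _ hB hb)
        (ins m _ _ _ _ true hG (fun _ => un_union (g2 rfl) (g4 rfl)))).weaken _ _ le_rfl ?_
      exact Set.insert_subset_insert ((Set.subset_insert _ _).trans (Set.subset_insert _ _))
  | counter k Γ α β L h _ ih =>
    intro m Γ' hm hB hG
    obtain ⟨s, g1, g2⟩ := hG _ _ h
    rw [tr_neg] at g1
    have hL := hB _ _ h
    have hB' : ∀ j, k ≤ j → ∀ φ L', (φ, L') ∈ insert (α, insert (j, false) L)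
        (insert (Fm.neg β, insert (j, true) L) Γ) → ∀ y ∈ L', y.1 < j + 1 := by
      intro j hj
      refine bnd _ _ _ _ (bnd _ _ _ _ (fun φ L' h' y hy => ?_) ?_) ?_
      · have := hB φ L' h' y hy
        omega
      · rintro y (rfl | hy)
        · simp
        · have := hL y hy
          omega
      · rintro y (rfl | hy)
        · simp
        · have := hL y hy
          omega
    have hup : ∀ (j : ℕ) (v : Option Bool), k ≤ j → ∀ Γ'', Γ' ⊆ Γ'' → ∀ φ L', (φ, L') ∈ Γ →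
        Good P Q (Function.update m j v) Γ'' φ L' := by
      intro j v hj Γ'' hΓ φ L' h'
      obtain ⟨s, g3, g4⟩ := hG φ L' h'
      exact ⟨s, hΓ g3, fun hs => un_update (g4 hs) hj (hB _ _ h') v⟩
    have hm' : ∀ (j : ℕ) (v : Option Bool), k ≤ j → ∀ i, j + 1 ≤ i →
        Function.update m j v i = none := by
      intro j v hj i hi
      rw [Function.update_of_ne (by omega)]
      exact hm i (by omega)
    cases s
    · -- the formula `¬((α⁺ → β⁺) ∧ (α⁻ → β⁻))`
      refine Cr.negConj _ _ _ _ L g1 ?_ ?_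
      · refine Cr.counter _ _ _ _ L (Or.inl rfl) fun j hj => ?_
        have h1 := ins (Function.update m j (some false)) Γ
          (insert (Fm.neg (Fm.imp (tr P Q true α) (tr P Q true β)), L) Γ') (Fm.neg β)
          (insert (j, true) L) false (hup j _ hj _ (Set.subset_insert _ _)) (by simp)
        have h2 := ins (Function.update m j (some false)) _ _ α (insert (j, false) L) true h1
          (fun _ => un_new hj hL hm false)
        exact ih j hj (Function.update m j (some false)) _ (hm' j _ hj) (hB' j hj) h2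
      · refine Cr.counter _ _ _ _ L (Or.inl rfl) fun j hj => ?_
        have h1 := ins (Function.update m j (some true)) Γ
          (insert (Fm.neg (Fm.imp (tr P Q false α) (tr P Q false β)), L) Γ') (Fm.neg β)
          (insert (j, true) L) true (hup j _ hj _ (Set.subset_insert _ _))
          (fun _ => un_new hj hL hm true)
        have h2 := ins (Function.update m j (some true)) _ _ α (insert (j, false) L) false h1
          (by simp)
        exact ih j hj (Function.update m j (some true)) _ (hm' j _ hj) (hB' j hj) h2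
    · -- the formula `¬(α⁺ → β⁻)`
      refine Cr.counter _ _ _ _ L g1 fun j hj => ?_
      have h1 := ins m Γ Γ' (Fm.neg β) (insert (j, true) L) true hG
        (fun _ => un_insert (g2 rfl) (hm j hj) _)
      have h2 := ins m _ _ α (insert (j, false) L) true h1
        (fun _ => un_insert (g2 rfl) (hm j hj) _)
      exact ih j hj m _ (fun i hi => hm i (by omega)) (hB' j hj) h2
  | recur k Γ α β L h hS' _ ih =>
    intro m Γ' hm hB hG
    obtain ⟨s, g1, g2⟩ := hG _ _ h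
    have h1 : Fm.imp (tr P Q s α) (tr P Q s β) ∈ AA := by
      have := hS _ hS'
      cases s
      · exact det this (and_right _ _)
      · exact det this (and_left _ _)
    exact Cr.recur _ _ _ _ L g1 h1 (ih m _ hm (bnd k _ _ _ hB (hB _ _ h))
      (ins m _ _ _ _ s hG g2))

/-- The upper translation of an acceptable formula is acceptable. -/
theorem tr_mem {P Q : ℕ → Fm} (hPQ : ∀ n, Fm.imp (Q n) (P n) ∈ AA) (φ : Fm) (h : φ ∈ AA) :
    tr P Q true φ ∈ AA := by
  apply h {φ | tr P Q true φ ∈ AA}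
  intro ψ hψ
  rw [tree_iff_cr] at hψ
  show tr P Q true ψ ∈ AA
  rw [mem_AA]
  refine tr_cr hPQ (fun φ hφ => hφ) hψ (fun _ => none) _ (fun _ _ => rfl) ?_ ?_
  · intro φ L hL y hy
    simp only [Set.mem_singleton_iff, Prod.mk.injEq] at hL
    rw [hL.2] at hy
    exact absurd hy (Set.notMem_empty _)
  · intro φ L hL
    simp only [Set.mem_singleton_iff, Prod.mk.injEq] at hL
    obtain ⟨rfl, rfl⟩ := hL
    exact ⟨false, rfl, by simp⟩

/-- Formulas whose letters are translated to themselves. -/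
lemma tr_self {P Q : ℕ → Fm} (φ : Fm)
    (h : ∀ n ∈ letters φ, P n = Fm.atom n ∧ Q n = Fm.atom n) (s : Bool) :
    Fm.imp φ (tr P Q s φ) ∈ AA ∧ Fm.imp (tr P Q s φ) φ ∈ AA := by
  induction φ generalizing s with
  | atom n =>
    obtain ⟨h1, h2⟩ := h n rfl
    cases s
    · show Fm.imp _ (Q n) ∈ AA ∧ Fm.imp (Q n) _ ∈ AA
      rw [h2]
      exact ⟨ident _, ident _⟩
    · show Fm.imp _ (P n) ∈ AA ∧ Fm.imp (P n) _ ∈ AA
      rw [h1]
      exact ⟨ident _, ident _⟩
  | neg a ih =>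
    rw [tr_neg]
    exact ⟨contra (ih h _).2, contra (ih h _).1⟩
  | and a b iha ihb =>
    rw [tr_and]
    have h1 := iha (fun n hn => h n (Or.inl hn)) s
    have h2 := ihb (fun n hn => h n (Or.inr hn)) s
    exact ⟨and_mono h1.1 h2.1, and_mono h1.2 h2.2⟩
  | or a b iha ihb =>
    rw [tr_or]
    have h1 := iha (fun n hn => h n (Or.inl hn)) s
    have h2 := ihb (fun n hn => h n (Or.inr hn)) s
    exact ⟨or_mono h1.1 h2.1, or_mono h1.2 h2.2⟩
  | imp a b iha ihb =>
    have h1 := iha (fun n hn => h n (Or.inl hn))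
    have h2 := ihb (fun n hn => h n (Or.inr hn))
    cases s
    · exact ⟨imp_mono (h1 true).2 (h2 false).1, imp_mono (h1 true).1 (h2 false).2⟩
    · exact ⟨and_intro (imp_mono (h1 true).2 (h2 true).1) (imp_mono (h1 false).2 (h2 false).1),
        trans (and_left _ _) (imp_mono (h1 true).1 (h2 true).2)⟩

/-- Formulas whose letters are translated to `t` and `¬t`. -/
lemma tr_top {P Q : ℕ → Fm} {t : Fm} (ht₁ : Fm.imp t (Fm.imp t t) ∈ AA)
    (ht₂ : Fm.imp (Fm.imp t t) t ∈ AA) (φ : Fm)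
    (h : ∀ n ∈ letters φ, P n = t ∧ Q n = Fm.neg t) :
    (Fm.imp t (tr P Q true φ) ∈ AA ∧ Fm.imp (tr P Q true φ) t ∈ AA) ∧
    (Fm.imp (Fm.neg t) (tr P Q false φ) ∈ AA ∧ Fm.imp (tr P Q false φ) (Fm.neg t) ∈ AA) := by
  induction φ with
  | atom n =>
    obtain ⟨h1, h2⟩ := h n rfl
    show (Fm.imp t (P n) ∈ AA ∧ Fm.imp (P n) t ∈ AA) ∧
      (Fm.imp (Fm.neg t) (Q n) ∈ AA ∧ Fm.imp (Q n) (Fm.neg t) ∈ AA)
    rw [h1, h2]
    exact ⟨⟨ident _, ident _⟩, ⟨ident _, ident _⟩⟩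
  | neg a ih =>
    obtain ⟨⟨h1, h2⟩, ⟨h3, h4⟩⟩ := ih h
    rw [tr_neg, tr_neg]
    exact ⟨⟨trans (nn_intro t) (contra h4), trans (contra h3) (nn_elim t)⟩,
      ⟨contra h2, contra h1⟩⟩
  | and a b iha ihb =>
    obtain ⟨⟨h1, h2⟩, ⟨h3, h4⟩⟩ := iha (fun n hn => h n (Or.inl hn))
    obtain ⟨⟨g1, g2⟩, ⟨g3, g4⟩⟩ := ihb (fun n hn => h n (Or.inr hn))
    rw [tr_and, tr_and]
    exact ⟨⟨and_intro h1 g1, trans (and_left _ _) h2⟩, ⟨and_intro h3 g3, trans (and_left _ _) h4⟩⟩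
  | or a b iha ihb =>
    obtain ⟨⟨h1, h2⟩, ⟨h3, h4⟩⟩ := iha (fun n hn => h n (Or.inl hn))
    obtain ⟨⟨g1, g2⟩, ⟨g3, g4⟩⟩ := ihb (fun n hn => h n (Or.inr hn))
    rw [tr_or, tr_or]
    exact ⟨⟨trans h1 (or_inl _ _), or_elim h2 g2⟩, ⟨trans h3 (or_inl _ _), or_elim h4 g4⟩⟩
  | imp a b iha ihb =>
    obtain ⟨⟨h1, h2⟩, ⟨h3, h4⟩⟩ := iha (fun n hn => h n (Or.inl hn))
    obtain ⟨⟨g1, g2⟩, ⟨g3, g4⟩⟩ := ihb (fun n hn => h n (Or.inr hn))
    have hnn : Fm.imp t (Fm.imp (Fm.neg t) (Fm.neg t)) ∈ AA := by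
      apply imp_intro
      intro j
      refine Cr.counter _ _ (Fm.neg t) (Fm.neg t) {(j, true)} (by simp) fun i hi => ?_
      refine Cr.negNeg _ _ t {(i, true), (j, true)} (by simp) ?_
      refine Cr.recur _ _ t (Fm.imp t t) {(i, true), (j, true)} (by simp) ht₁ ?_
      refine Cr.mp _ _ t t {(j, false)} {(i, true), (j, true)} (by simp) (by simp) ?_
      exact Cr.crash _ _ t ({(j, false)} ∪ {(i, true), (j, true)}) {(i, false), (j, true)}
        (by simp) (by simp) (by intro q; simp <;> omega)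
    refine ⟨⟨and_intro (trans ht₁ (imp_mono h2 g1)) (trans hnn (imp_mono h4 g3)),
      trans (and_left _ _) (trans (imp_mono h1 g2) ht₂)⟩, ?_, ?_⟩
    · exact trans (neg_tau ht₁) (imp_mono h2 g3)
    · exact trans (imp_mono h1 g4) (contraction t)

/-- Omissibility. -/
theorem omissibility (α β γ : Fm) (h₁ : Disjoint (letters β) (letters α))
    (h₂ : Disjoint (letters β) (letters γ))
    (h : Fm.imp (Fm.and α β) γ ∈ AA ∨ Fm.imp α (Fm.or β γ) ∈ AA) : Fm.imp α γ ∈ AA := by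
  classical
  obtain ⟨t, ht1, ht2, ht3, ht4⟩ := exists_top (Fm.imp α γ)
  let P : ℕ → Fm := fun n => if n ∈ letters β then t else Fm.atom n
  let Q : ℕ → Fm := fun n => if n ∈ letters β then Fm.neg t else Fm.atom n
  have hPQ : ∀ n, Fm.imp (Q n) (P n) ∈ AA := by
    intro n
    by_cases hn : n ∈ letters β
    · simpa only [P, Q, hn, if_true] using ht3
    · simpa only [P, Q, hn, if_false] using ident (Fm.atom n)
  have hα := tr_self (P := P) (Q := Q) α (fun n hn => by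
    have : n ∉ letters β := fun h' => Set.disjoint_left.1 h₁ h' hn
    simp only [P, Q, this, if_false, and_self])
  have hγ := tr_self (P := P) (Q := Q) γ (fun n hn => by
    have : n ∉ letters β := fun h' => Set.disjoint_left.1 h₂ h' hn
    simp only [P, Q, this, if_false, and_self])
  obtain ⟨⟨hβ1, _⟩, ⟨_, hβ2⟩⟩ := tr_top (P := P) (Q := Q) ht1 ht2 β (fun n hn => by
    simp only [P, Q, hn, if_true, and_self])
  have hαt := (ht4 α (fun n hn => Or.inl hn)).1
  have hγt := (ht4 γ (fun n hn => Or.inr hn)).2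
  rcases h with h | h
  · have h3 := tr_mem hPQ _ h
    have h4 := det h3 (and_left _ _)
    rw [tr_and] at h4
    exact trans (and_intro (hα true).1 (trans hαt hβ1)) (trans h4 (hγ true).2)
  · have h3 := tr_mem hPQ _ h
    have h4 := det h3 (and_right _ _)
    rw [tr_or] at h4
    exact trans (hα false).1 (trans h4 (or_elim (trans hβ2 (trans (contra hγt) (nn_elim γ)))
      (hγ false).2))

end Pool.Agent.X81.TruthTrees
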