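import Mathlib

/-!
# The Erdős–Gallai theorem (sufficiency)

Proof after Tripathi, Venugopalan and West.
-/

set_option autoImplicit false

open Classical Finset

namespace Pool.Agent.X81.ErdosGallai

variable {V : Type*} [Fintype V]

/-- degree -/
noncomputable def dg (H : SimpleGraph V) (x : V) : ℕ := (univ.filter (fun y => H.Adj x y)).card

/-- add an edge -/
def add (H : SimpleGraph V) (a b : V) : SimpleGraph V where
  Adj x y := H.Adj x y ∨ (a ≠ b ∧ ((x = a ∧ y = b) ∨ (x = b ∧ y = a)))
  symm := by
    constructor
    rintro x y (h | ⟨h, h1 | h1⟩)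
    · exact Or.inl h.symm
    · exact Or.inr ⟨h, Or.inr ⟨h1.2, h1.1⟩⟩
    · exact Or.inr ⟨h, Or.inl ⟨h1.2, h1.1⟩⟩
  loopless := by
    constructor
    rintro x (h | ⟨h, h1 | h1⟩)
    · exact H.loopless.irrefl x h
    · exact h (h1.1.symm.trans h1.2)
    · exact h (h1.2.symm.trans h1.1)

/-- delete an edge -/
def del (H : SimpleGraph V) (a b : V) : SimpleGraph V where
  Adj x y := H.Adj x y ∧ ¬ ((x = a ∧ y = b) ∨ (x = b ∧ y = a))
  symm := by
    constructor
    rintro x y ⟨h, h1⟩
    refine ⟨h.symm, ?_⟩
    rintro (h2 | h2)
    · exact h1 (Or.inr ⟨h2.2, h2.1⟩)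
    · exact h1 (Or.inl ⟨h2.2, h2.1⟩)
  loopless := by
    constructor
    rintro x ⟨h, _⟩
    exact H.loopless.irrefl x h

lemma add_adj (H : SimpleGraph V) (a b x y : V) : (add H a b).Adj x y ↔
    H.Adj x y ∨ (a ≠ b ∧ ((x = a ∧ y = b) ∨ (x = b ∧ y = a))) := Iff.rfl

lemma del_adj (H : SimpleGraph V) (a b x y : V) : (del H a b).Adj x y ↔
    H.Adj x y ∧ ¬ ((x = a ∧ y = b) ∨ (x = b ∧ y = a)) := Iff.rfl

lemma card_le_fin {n : ℕ} (v : Fin n) :
    (univ.filter (fun i : Fin n => i ≤ v)).card = v.val + 1 := by
  have h : univ.filter (fun i : Fin n => i ≤ v) = Finset.Iic v := by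
    ext i; simp
  rw [h, Fin.card_Iic]

lemma dg_add (H : SimpleGraph V) {a b : V} (hab : a ≠ b) (hn : ¬ H.Adj a b) (x : V) :
    dg (add H a b) x = dg H x + (if x = a then 1 else 0) + (if x = b then 1 else 0) := by
  unfold dg
  have hn' : ¬ H.Adj b a := fun h => hn h.symm
  by_cases h1 : x = a
  · subst h1
    have : univ.filter (fun y => (add H x b).Adj x y) =
        insert b (univ.filter (fun y => H.Adj x y)) := by
      ext y
      rw [mem_filter, mem_insert, mem_filter, add_adj]
      constructor
      · rintro ⟨_, h | ⟨_, h | h⟩⟩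
        · exact Or.inr ⟨mem_univ _, h⟩
        · exact Or.inl h.2
        · exact absurd h.1 hab
      · rintro (h | h)
        · exact ⟨mem_univ _, Or.inr ⟨hab, Or.inl ⟨rfl, h⟩⟩⟩
        · exact ⟨mem_univ _, Or.inl h.2⟩
    rw [this, card_insert_of_notMem (by simpa using hn), if_pos rfl, if_neg hab]
  · by_cases h2 : x = b
    · subst h2
      have : univ.filter (fun y => (add H a x).Adj x y) =
          insert a (univ.filter (fun y => H.Adj x y)) := by
        ext y
        rw [mem_filter, mem_insert, mem_filter, add_adj]
        constructor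
        · rintro ⟨_, h | ⟨_, h | h⟩⟩
          · exact Or.inr ⟨mem_univ _, h⟩
          · exact absurd h.1 h1
          · exact Or.inl h.2
        · rintro (h | h)
          · exact ⟨mem_univ _, Or.inr ⟨hab, Or.inr ⟨rfl, h⟩⟩⟩
          · exact ⟨mem_univ _, Or.inl h.2⟩
      rw [this, card_insert_of_notMem (by simpa using hn'), if_neg h1, if_pos rfl]
    · rw [if_neg h1, if_neg h2]
      congr 1
      ext y
      simp [add_adj, h1, h2]

lemma dg_del (H : SimpleGraph V) {a b : V} (hab : H.Adj a b) (x : V) :
    dg H x = dg (del H a b) x + (if x = a then 1 else 0) + (if x = b then 1 else 0) := by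
  have hne : a ≠ b := hab.ne
  have h1 := dg_add (del H a b) hne (by rw [del_adj]; intro h; exact h.2 (Or.inl ⟨rfl, rfl⟩)) x
  have h2 : add (del H a b) a b = H := by
    ext y z
    rw [add_adj, del_adj]
    constructor
    · rintro (h | ⟨_, h | h⟩)
      · exact h.1
      · rw [h.1, h.2]; exact hab
      · rw [h.1, h.2]; exact hab.symm
    · intro h
      by_cases h3 : (y = a ∧ z = b) ∨ (y = b ∧ z = a)
      · exact Or.inr ⟨hne, h3⟩
      · exact Or.inl ⟨h, h3⟩
  rw [h2] at h1
  exact h1

/-- exchange lemma -/
lemma exists_private (H : SimpleGraph V) {i v : V} (hdeg : dg H v < dg H i) :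
    ∃ u, H.Adj i u ∧ ¬ H.Adj v u ∧ u ≠ v ∧ u ≠ i := by
  by_contra hno
  have hno : ∀ u, H.Adj i u → ¬ H.Adj v u → u = v := by
    intro u h1 h2
    by_contra h3
    exact hno ⟨u, h1, h2, h3, fun h4 => H.loopless.irrefl i (h4 ▸ h1)⟩
  apply absurd hdeg
  apply not_lt.mpr
  unfold dg
  by_cases hiv : H.Adj i v
  · -- N(i) ⊆ (N(v) \ {i}) ∪ {v}
    have hsub : univ.filter (fun y => H.Adj i y) ⊆
        insert v ((univ.filter (fun y => H.Adj v y)).erase i) := by
      intro u hu
      have hu' : H.Adj i u := (mem_filter.mp hu).2
      by_cases h : H.Adj v u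
      · refine mem_insert_of_mem (mem_erase.mpr ⟨?_, mem_filter.mpr ⟨mem_univ _, h⟩⟩)
        rintro rfl
        exact H.loopless.irrefl _ hu'
      · rw [hno u hu' h]
        exact mem_insert_self _ _
    refine (card_le_card hsub).trans ((card_insert_le _ _).trans ?_)
    have hmem : i ∈ univ.filter (fun y => H.Adj v y) := mem_filter.mpr ⟨mem_univ _, hiv.symm⟩
    rw [card_erase_of_mem hmem]
    have : 0 < (univ.filter (fun y => H.Adj v y)).card := card_pos.mpr ⟨i, hmem⟩
    omega
  · apply card_le_card
    intro u hu
    have hu' : H.Adj i u := (mem_filter.mp hu).2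
    by_cases h : H.Adj v u
    · exact mem_filter.mpr ⟨mem_univ _, h⟩
    · have := hno u hu' h
      rw [this] at hu'
      exact absurd hu' hiv

lemma even_sum_dg (H : SimpleGraph V) : Even (∑ x, dg H x) := by
  have h := H.sum_degrees_eq_twice_card_edges
  have h2 : ∑ x, dg H x = ∑ x, H.degree x := by
    refine sum_congr rfl ?_
    intro x _
    unfold dg
    rw [← SimpleGraph.card_neighborFinset_eq_degree]
    congr 1
    ext y
    simp
  rw [h2, h]
  exact even_two_mul _

section Fin

variable {n : ℕ}

/-- the invariant: first `r` vertices saturated, vertices after `r` independent -/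
structure Sub (d : Fin n → ℕ) (r : ℕ) (H : SimpleGraph (Fin n)) : Prop where
  le : ∀ i, dg H i ≤ d i
  eq : ∀ i, i.val < r → dg H i = d i
  ind : ∀ i j, r < i.val → r < j.val → ¬ H.Adj i j

/-- one improvement step -/
lemma improve (d : Fin n → ℕ) (hanti : Antitone d) (heven : Even (∑ i, d i)) (v : Fin n)
    (hEG : ∑ i ∈ univ.filter (fun i => i ≤ v), d i ≤ (v.val + 1) * v.val +
      ∑ i ∈ univ.filter (fun i => ¬ i ≤ v), min (v.val + 1) (d i))
    (H : SimpleGraph (Fin n)) (hH : Sub d v.val H) (hlt : dg H v < d v) :
    ∃ H' : SimpleGraph (Fin n), Sub d v.val H' ∧ dg H v < dg H' v := by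
  have hsat : ∀ i, i < v → dg H i = d i ∧ dg H v < dg H i := by
    intro i hi
    have h1 := hH.eq i hi
    have h2 := hanti hi.le
    exact ⟨h1, by omega⟩
  -- case 0
  by_cases c0 : ∃ i, i ≠ v ∧ ¬ H.Adj v i ∧ dg H i < d i
  · obtain ⟨i, hiv, hadj, hdi⟩ := c0
    have hdeg := dg_add H hiv.symm hadj
    refine ⟨add H v i, ⟨?_, ?_, ?_⟩, ?_⟩
    · intro x
      rw [hdeg]
      have := hH.le x
      by_cases h1 : x = v
      · subst h1; rw [if_pos rfl, if_neg hiv.symm]; omega
      · by_cases h2 : x = i
        · subst h2; rw [if_neg h1, if_pos rfl]; omega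
        · rw [if_neg h1, if_neg h2]; omega
    · intro x hx
      have h1 : x ≠ v := by rintro rfl; omega
      have h2 : x ≠ i := by
        rintro rfl
        have := hH.eq x hx
        omega
      rw [hdeg, if_neg h1, if_neg h2]
      exact hH.eq x hx
    · intro x y hx hy
      rw [add_adj]
      rintro (h | ⟨_, h | h⟩)
      · exact hH.ind x y hx hy h
      · rw [h.1] at hx; omega
      · rw [h.2] at hy; omega
    · rw [hdeg, if_pos rfl]; omega
  have c0 : ∀ i, i ≠ v → ¬ H.Adj v i → dg H i = d i := by
    intro i h1 h2
    have := hH.le i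
    by_contra h3
    exact c0 ⟨i, h1, h2, by omega⟩
  -- case 1
  by_cases c1 : ∃ i, i < v ∧ ¬ H.Adj v i
  · obtain ⟨i, hiv, hadj⟩ := c1
    have hne : i ≠ v := hiv.ne
    obtain ⟨u, hu1, hu2, hu3, hu4⟩ := exists_private H (hsat i hiv).2
    -- H - iu + vu + vi
    have e1 := dg_del H hu1
    have hn2 : ¬ (del H i u).Adj v u := fun h => hu2 h.1
    have e2 := dg_add (del H i u) hu3.symm hn2
    have hn3 : ¬ (add (del H i u) v u).Adj v i := by
      rw [add_adj]
      rintro (h | ⟨_, h | h⟩)
      · exact hadj h.1
      · exact hu4 h.2.symm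
      · exact hu3 h.1.symm
    have e3 := dg_add (add (del H i u) v u) hne.symm hn3
    by_cases hdef : dg H v + 2 ≤ d v
    · refine ⟨add (add (del H i u) v u) v i, ⟨?_, ?_, ?_⟩, ?_⟩
      · intro x
        have := hH.le x
        have e1' := e1 x
        rw [e3, e2]
        by_cases h1 : x = v
        · subst h1
          simp only [if_true, if_neg hne.symm, if_neg hu3.symm] at e1' ⊢
          omega
        · by_cases h2 : x = u
          · subst h2
            simp only [if_true, if_neg h1, if_neg hu4] at e1' ⊢
            omega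
          · by_cases h3 : x = i
            · subst h3
              simp only [if_true, if_neg h1, if_neg h2] at e1' ⊢
              omega
            · simp only [if_neg h1, if_neg h2, if_neg h3] at e1' ⊢
              omega
      · intro x hx
        have hxe := hH.eq x hx
        have e1' := e1 x
        have h1 : x ≠ v := by rintro rfl; omega
        rw [e3, e2]
        by_cases h2 : x = u
        · subst h2
          simp only [if_true, if_neg h1, if_neg hu4] at e1' ⊢
          omega
        · by_cases h3 : x = i
          · subst h3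
            simp only [if_true, if_neg h1, if_neg h2] at e1' ⊢
            omega
          · simp only [if_neg h1, if_neg h2, if_neg h3] at e1' ⊢
            omega
      · intro x y hx hy
        rw [add_adj, add_adj, del_adj]
        rintro ((h | ⟨_, h | h⟩) | ⟨_, h | h⟩)
        · exact hH.ind x y hx hy h.1
        · rw [h.1] at hx; omega
        · rw [h.2] at hy; omega
        · rw [h.1] at hx; omega
        · rw [h.2] at hy; omega
      · have e1' := e1 v
        rw [e3, e2]
        simp only [if_true, if_neg hne.symm, if_neg hu3.symm] at e1' ⊢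
        omega
    · -- deficiency exactly one
      have hone : dg H v + 1 = d v := by omega
      obtain ⟨k, hkv, hk⟩ : ∃ k, k ≠ v ∧ dg H k < d k := by
        by_contra hno
        have hall : ∀ k, k ≠ v → dg H k = d k := by
          intro k h1
          have := hH.le k
          by_contra h3
          exact hno ⟨k, h1, by omega⟩
        have hs : ∑ x, d x = ∑ x, dg H x + 1 := by
          rw [← add_sum_erase univ d (mem_univ v), ← add_sum_erase univ (dg H) (mem_univ v),
            ← hone]
          have : ∑ x ∈ univ.erase v, d x = ∑ x ∈ univ.erase v, dg H x :=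
            sum_congr rfl (fun x hx => (hall x (mem_erase.mp hx).1).symm)
          omega
        have := even_sum_dg H
        rw [hs] at heven
        rcases this with ⟨p, hp⟩
        rcases heven with ⟨q, hq⟩
        omega
      have hkadj : H.Adj v k := by
        by_contra h
        have := c0 k hkv h
        omega
      have hkgt : v < k := by
        rcases lt_trichotomy k v with h | h | h
        · have := (hsat k h).1; omega
        · exact absurd h hkv
        · exact h
      have hku : k ≠ u := by rintro rfl; exact hu2 hkadj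
      have hki : k ≠ i := by rintro rfl; exact hadj hkadj
      have hk4 : (add (add (del H i u) v u) v i).Adj v k := by
        rw [add_adj, add_adj, del_adj]
        left; left
        refine ⟨hkadj, ?_⟩
        rintro (h | h)
        · exact hku h.2
        · exact hki h.2
      have e4 := dg_del _ hk4
      refine ⟨del (add (add (del H i u) v u) v i) v k, ⟨?_, ?_, ?_⟩, ?_⟩
      · intro x
        have := hH.le x
        have e1' := e1 x
        have e4' := e4 x
        rw [e3, e2] at e4'
        by_cases h1 : x = v
        · subst h1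
          simp only [if_true, if_neg hne.symm, if_neg hu3.symm, if_neg hkv.symm] at e1' e4' ⊢
          omega
        · by_cases h2 : x = u
          · subst h2
            simp only [if_true, if_neg h1, if_neg hu4, if_neg hku.symm] at e1' e4' ⊢
            omega
          · by_cases h3 : x = i
            · subst h3
              simp only [if_true, if_neg h1, if_neg h2, if_neg hki.symm] at e1' e4' ⊢
              omega
            · simp only [if_neg h1, if_neg h2, if_neg h3] at e1' e4' ⊢
              split_ifs at e4' <;> omega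
      · intro x hx
        have hxe := hH.eq x hx
        have e1' := e1 x
        have e4' := e4 x
        rw [e3, e2] at e4'
        have h1 : x ≠ v := by rintro rfl; omega
        have h0 : x ≠ k := by rintro rfl; have : v.val < x.val := hkgt; omega
        by_cases h2 : x = u
        · subst h2
          simp only [if_true, if_neg h1, if_neg hu4, if_neg h0] at e1' e4' ⊢
          omega
        · by_cases h3 : x = i
          · subst h3
            simp only [if_true, if_neg h1, if_neg h2, if_neg h0] at e1' e4' ⊢
            omega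
          · simp only [if_neg h1, if_neg h2, if_neg h3, if_neg h0] at e1' e4' ⊢
            omega
      · intro x y hx hy
        rw [del_adj, add_adj, add_adj, del_adj]
        rintro ⟨(h | ⟨_, h | h⟩) | ⟨_, h | h⟩, _⟩
        · exact hH.ind x y hx hy h.1
        · rw [h.1] at hx; omega
        · rw [h.2] at hy; omega
        · rw [h.1] at hx; omega
        · rw [h.2] at hy; omega
      · have e1' := e1 v
        have e4' := e4 v
        rw [e3, e2] at e4'
        simp only [if_true, if_neg hne.symm, if_neg hu3.symm, if_neg hkv.symm] at e1' e4' ⊢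
        omega
  have c1 : ∀ i, i < v → H.Adj v i := by
    intro i h
    by_contra h2
    exact c1 ⟨i, h, h2⟩
  -- case 2
  by_cases c2 : ∃ k, v < k ∧ dg H k ≠ min (v.val + 1) (d k)
  · obtain ⟨k, hvk, hk⟩ := c2
    have hkle := hH.le k
    have hNk : univ.filter (fun y => H.Adj k y) ⊆ univ.filter (fun y => y ≤ v) := by
      intro y hy
      have hy' : H.Adj k y := (mem_filter.mp hy).2
      refine mem_filter.mpr ⟨mem_univ _, ?_⟩
      by_contra h
      exact hH.ind k y hvk (not_le.mp h) hy'
    have hcv : (univ.filter (fun y : Fin n => y ≤ v)).card = v.val + 1 := by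
      exact card_le_fin v
    have hkle2 : dg H k ≤ v.val + 1 := by
      rw [← hcv]; exact card_le_card hNk
    have hklt : dg H k < v.val + 1 ∧ dg H k < d k := by
      rcases min_choice (v.val + 1) (d k) with h | h
      · rw [h] at hk
        have : v.val + 1 ≤ d k := by rw [← h]; exact min_le_right _ _
        omega
      · rw [h] at hk
        have : d k ≤ v.val + 1 := by rw [← h]; exact min_le_left _ _
        omega
    have hkadj : H.Adj v k := by
      by_contra h
      have := c0 k hvk.ne' h
      omega
    obtain ⟨i, hile, hik⟩ : ∃ i, i ≤ v ∧ ¬ H.Adj k i := by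
      by_contra hno
      have : univ.filter (fun y => y ≤ v) ⊆ univ.filter (fun y => H.Adj k y) := by
        intro y hy
        refine mem_filter.mpr ⟨mem_univ _, ?_⟩
        by_contra h
        exact hno ⟨y, (mem_filter.mp hy).2, h⟩
      have := card_le_card this
      rw [hcv] at this
      unfold dg at hklt
      omega
    have hiv : i < v := by
      rcases lt_or_eq_of_le hile with h | h
      · exact h
      · rw [h] at hik; exact absurd hkadj.symm hik
    obtain ⟨u, hu1, hu2, hu3, hu4⟩ := exists_private H (hsat i hiv).2
    have hne : i ≠ v := hiv.ne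
    have hki : k ≠ i := (hiv.trans hvk).ne'
    have hku : k ≠ u := by rintro rfl; exact hik hu1.symm
    have e1 := dg_del H hu1
    have hn2 : ¬ (del H i u).Adj v u := fun h => hu2 h.1
    have e2 := dg_add (del H i u) hu3.symm hn2
    have hn3 : ¬ (add (del H i u) v u).Adj i k := by
      rw [add_adj]
      rintro (h | ⟨_, h | h⟩)
      · exact hik h.1.symm
      · exact hne h.1
      · exact hu4 h.1.symm
    have e3 := dg_add (add (del H i u) v u) hki.symm hn3
    have hkv : k ≠ v := hvk.ne'
    refine ⟨add (add (del H i u) v u) i k, ⟨?_, ?_, ?_⟩, ?_⟩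
    · intro x
      have := hH.le x
      have e1' := e1 x
      rw [e3, e2]
      by_cases h1 : x = v
      · subst h1
        simp only [if_true, if_neg hne.symm, if_neg hu3.symm, if_neg hkv.symm] at e1' ⊢
        omega
      · by_cases h2 : x = u
        · subst h2
          simp only [if_true, if_neg h1, if_neg hu4, if_neg hku.symm] at e1' ⊢
          omega
        · by_cases h3 : x = i
          · subst h3
            simp only [if_true, if_neg h1, if_neg h2, if_neg hki.symm] at e1' ⊢
            omega
          · by_cases h4 : x = k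
            · subst h4
              simp only [if_true, if_neg h1, if_neg h2, if_neg h3] at e1' ⊢
              omega
            · simp only [if_neg h1, if_neg h2, if_neg h3, if_neg h4] at e1' ⊢
              omega
    · intro x hx
      have hxe := hH.eq x hx
      have e1' := e1 x
      have h1 : x ≠ v := by rintro rfl; omega
      have h0 : x ≠ k := by rintro rfl; have : v.val < x.val := hvk; omega
      rw [e3, e2]
      by_cases h2 : x = u
      · subst h2
        simp only [if_true, if_neg h1, if_neg hu4, if_neg h0] at e1' ⊢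
        omega
      · by_cases h3 : x = i
        · subst h3
          simp only [if_true, if_neg h1, if_neg h2, if_neg h0] at e1' ⊢
          omega
        · simp only [if_neg h1, if_neg h2, if_neg h3, if_neg h0] at e1' ⊢
          omega
    · intro x y hx hy
      have hiv' : i.val < v.val := hiv
      rw [add_adj, add_adj, del_adj]
      rintro ((h | ⟨_, h | h⟩) | ⟨_, h | h⟩)
      · exact hH.ind x y hx hy h.1
      · rw [h.1] at hx; omega
      · rw [h.2] at hy; omega
      · rw [h.1] at hx; omega
      · rw [h.2] at hy; omega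
    · have e1' := e1 v
      rw [e3, e2]
      simp only [if_true, if_neg hne.symm, if_neg hu3.symm, if_neg hkv.symm] at e1' ⊢
      omega
  have c2 : ∀ k, v < k → dg H k = min (v.val + 1) (d k) := by
    intro k hk
    by_contra h
    exact c2 ⟨k, hk, h⟩
  -- case 3
  by_cases c3 : ∃ i j, i < v ∧ j < v ∧ i ≠ j ∧ ¬ H.Adj i j
  · obtain ⟨i, j, hiv, hjv, hij, hadj⟩ := c3
    obtain ⟨u, hu1, hu2, hu3, hu4⟩ := exists_private H (hsat i hiv).2
    obtain ⟨w, hw1, hw2, hw3, hw4⟩ := exists_private H (hsat j hjv).2
    have hbig : ∀ y, y ≠ v → ¬ H.Adj v y → v < y := by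
      intro y h1 h2
      rcases lt_trichotomy y v with h | h | h
      · exact absurd (c1 y h) h2
      · exact absurd h h1
      · exact h
    have huv := hbig u hu3 hu2
    have hwv := hbig w hw3 hw2
    have hne : i ≠ v := hiv.ne
    have hnj : j ≠ v := hjv.ne
    have huj : u ≠ j := (hjv.trans huv).ne'
    have hwi : w ≠ i := (hiv.trans hwv).ne'
    have e1 := dg_del H hu1
    have h2 : (del H i u).Adj j w := by
      rw [del_adj]
      refine ⟨hw1, ?_⟩
      rintro (h | h)
      · exact hij h.1.symm
      · exact huj h.1.symm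
    have e2 := dg_del (del H i u) h2
    have hn3 : ¬ (del (del H i u) j w).Adj v u := fun h => hu2 h.1.1
    have e3 := dg_add (del (del H i u) j w) hu3.symm hn3
    have hn4 : ¬ (add (del (del H i u) j w) v u).Adj i j := by
      rw [add_adj]
      rintro (h | ⟨_, h | h⟩)
      · exact hadj h.1.1
      · exact hne h.1
      · exact hnj h.2
    have e4 := dg_add (add (del (del H i u) j w) v u) hij hn4
    refine ⟨add (add (del (del H i u) j w) v u) i j, ⟨?_, ?_, ?_⟩, ?_⟩
    · intro x
      have := hH.le x
      have e1' := e1 x
      have e2' := e2 x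
      rw [e4, e3]
      by_cases h1 : x = v
      · subst h1
        simp only [if_true, if_neg hne.symm, if_neg hu3.symm, if_neg hnj.symm,
          if_neg hw3.symm] at e1' e2' ⊢
        omega
      · by_cases h3 : x = i
        · subst h3
          simp only [if_true, if_neg h1, if_neg hu4.symm, if_neg hij, if_neg hwi.symm] at e1' e2' ⊢
          omega
        · by_cases h5 : x = j
          · subst h5
            simp only [if_true, if_neg h1, if_neg huj.symm, if_neg hij.symm,
              if_neg hw4.symm] at e1' e2' ⊢
            omega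
          · simp only [if_neg h1, if_neg h3, if_neg h5] at e1' e2' ⊢
            split_ifs at e1' e2' ⊢ <;> omega
    · intro x hx
      have hxe := hH.eq x hx
      have e1' := e1 x
      have e2' := e2 x
      have h1 : x ≠ v := by rintro rfl; omega
      have h7 : x ≠ u := by rintro rfl; have : v.val < x.val := huv; omega
      have h8 : x ≠ w := by rintro rfl; have : v.val < x.val := hwv; omega
      rw [e4, e3]
      by_cases h3 : x = i
      · subst h3
        simp only [if_true, if_neg h1, if_neg hu4.symm, if_neg hij, if_neg hwi.symm] at e1' e2' ⊢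
        omega
      · by_cases h5 : x = j
        · subst h5
          simp only [if_true, if_neg h1, if_neg huj.symm, if_neg hij.symm,
            if_neg hw4.symm] at e1' e2' ⊢
          omega
        · simp only [if_neg h1, if_neg h3, if_neg h5, if_neg h7, if_neg h8] at e1' e2' ⊢
          omega
    · intro x y hx hy
      have hiv' : i.val < v.val := hiv
      rw [add_adj, add_adj, del_adj, del_adj]
      rintro ((h | ⟨_, h | h⟩) | ⟨_, h | h⟩)
      · exact hH.ind x y hx hy h.1.1
      · rw [h.1] at hx; omega
      · rw [h.2] at hy; omega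
      · rw [h.1] at hx; omega
      · rw [h.2] at hy; omega
    · have e1' := e1 v
      have e2' := e2 v
      rw [e4, e3]
      simp only [if_true, if_neg hne.symm, if_neg hu3.symm, if_neg hnj.symm,
        if_neg hw3.symm] at e1' e2' ⊢
      omega
  have c3 : ∀ i j, i < v → j < v → i ≠ j → H.Adj i j := by
    intro i j h1 h2 h3
    by_contra h
    exact c3 ⟨i, j, h1, h2, h3, h⟩
  -- final contradiction
  exfalso
  have hclique : ∀ i j, i ≤ v → j ≤ v → i ≠ j → H.Adj i j := by
    intro i j h1 h2 h3
    rcases lt_or_eq_of_le h1 with h1 | h1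
    · rcases lt_or_eq_of_le h2 with h2 | h2
      · exact c3 i j h1 h2 h3
      · rw [h2]; exact (c1 i h1).symm
    · rw [h1]
      rcases lt_or_eq_of_le h2 with h2 | h2
      · exact c1 j h2
      · exact absurd (h1.trans h2.symm) h3
  set A := univ.filter (fun i : Fin n => i ≤ v) with hA
  set B := univ.filter (fun i : Fin n => ¬ i ≤ v) with hB
  have hcA : A.card = v.val + 1 := by rw [hA]; exact card_le_fin v
  have hdsum : ∀ i, dg H i = (∑ j ∈ A, if H.Adj i j then 1 else 0) +
      ∑ j ∈ B, if H.Adj i j then 1 else 0 := by
    intro i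
    unfold dg
    rw [card_filter, hA, hB, sum_filter_add_sum_filter_not]
  have hAA : ∀ i ∈ A, (∑ j ∈ A, if H.Adj i j then 1 else 0) = v.val := by
    intro i hi
    have hi' : i ≤ v := (mem_filter.mp hi).2
    rw [← card_filter]
    have : A.filter (fun j => H.Adj i j) = A.erase i := by
      ext j
      rw [mem_filter, mem_erase]
      constructor
      · rintro ⟨h1, h2⟩
        exact ⟨h2.ne', h1⟩
      · rintro ⟨h1, h2⟩
        exact ⟨h2, hclique i j hi' (mem_filter.mp h2).2 h1.symm⟩
    rw [this, card_erase_of_mem hi, hcA]; rfl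
  have hBB : ∀ k ∈ B, (∑ j ∈ B, if H.Adj k j then 1 else 0) = 0 := by
    intro k hk
    apply sum_eq_zero
    intro j hj
    rw [if_neg]
    have h1 := not_le.mp (mem_filter.mp hk).2
    have h2 := not_le.mp (mem_filter.mp hj).2
    exact hH.ind k j h1 h2
  have hsumA : ∑ i ∈ A, dg H i = (v.val + 1) * v.val + ∑ k ∈ B, min (v.val + 1) (d k) := by
    calc ∑ i ∈ A, dg H i = ∑ i ∈ A, ((∑ j ∈ A, if H.Adj i j then 1 else 0) +
        ∑ j ∈ B, if H.Adj i j then 1 else 0) := sum_congr rfl (fun i _ => hdsum i)
      _ = ∑ i ∈ A, (v.val + ∑ j ∈ B, if H.Adj i j then 1 else 0) :=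
        sum_congr rfl (fun i hi => by rw [hAA i hi])
      _ = (v.val + 1) * v.val + ∑ i ∈ A, ∑ j ∈ B, (if H.Adj i j then 1 else 0) := by
        rw [sum_add_distrib, sum_const, hcA, smul_eq_mul]
      _ = (v.val + 1) * v.val + ∑ k ∈ B, ∑ i ∈ A, (if H.Adj k i then 1 else 0) := by
        rw [sum_comm]
        congr 1
        refine sum_congr rfl (fun k _ => sum_congr rfl (fun i _ => ?_))
        simp only [H.adj_comm]
      _ = (v.val + 1) * v.val + ∑ k ∈ B, min (v.val + 1) (d k) := by
        congr 1
        refine sum_congr rfl (fun k hk => ?_)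
        have h1 := hdsum k
        rw [hBB k hk, add_zero] at h1
        rw [← h1]
        exact c2 k (not_le.mp (mem_filter.mp hk).2)
  have hlt2 : ∑ i ∈ A, dg H i < ∑ i ∈ A, d i := by
    apply sum_lt_sum (fun i _ => hH.le i)
    exact ⟨v, mem_filter.mpr ⟨mem_univ _, le_refl v⟩, hlt⟩
  rw [hsumA] at hlt2
  exact absurd hEG (not_le.mpr hlt2)

/-- Erdős–Gallai for nonincreasing sequences. -/
theorem erdos_gallai_fin (d : Fin n → ℕ) (hanti : Antitone d) (heven : Even (∑ i, d i))
    (hEG : ∀ v : Fin n, ∑ i ∈ univ.filter (fun i => i ≤ v), d i ≤ (v.val + 1) * v.val +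
      ∑ i ∈ univ.filter (fun i => ¬ i ≤ v), min (v.val + 1) (d i)) :
    ∃ H : SimpleGraph (Fin n), ∀ i, dg H i = d i := by
  have key : ∀ r : ℕ, r ≤ n → ∃ H : SimpleGraph (Fin n), Sub d r H := by
    intro r
    induction r with
    | zero =>
      intro _
      refine ⟨⊥, ?_, ?_, ?_⟩
      · intro i; simp [dg]
      · intro i hi; omega
      · intro i j _ _ h; exact h
    | succ r ih =>
      intro hr
      obtain ⟨H0, hH0⟩ := ih (by omega)
      let v : Fin n := ⟨r, by omega⟩
      -- maximise the degree of `v`
      have hbd : ∀ H, Sub d r H → dg H v ≤ d v := fun H hH => hH.le v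
      obtain ⟨H, hH, hmax⟩ : ∃ H, Sub d r H ∧ ∀ H', Sub d r H' → dg H' v ≤ dg H v := by
        have hfin : Set.Finite {H : SimpleGraph (Fin n) | Sub d r H} := Set.toFinite _
        obtain ⟨H, hH, hmax⟩ := Set.exists_max_image _ (fun H => dg H v) hfin ⟨H0, hH0⟩
        exact ⟨H, hH, hmax⟩
      have heq : dg H v = d v := by
        by_contra hne
        have hlt : dg H v < d v := lt_of_le_of_ne (hH.le v) hne
        obtain ⟨H', hH', hlt'⟩ := improve d hanti heven v (hEG v) H hH hlt
        exact absurd (hmax H' hH') (not_le.mpr hlt')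
      refine ⟨H, hH.le, ?_, ?_⟩
      · intro i hi
        rcases Nat.lt_succ_iff_lt_or_eq.mp hi with h | h
        · exact hH.eq i h
        · have : i = v := Fin.ext h
          rw [this]; exact heq
      · intro i j hi hj
        exact hH.ind i j (by omega) (by omega)
  obtain ⟨H, hH⟩ := key n le_rfl
  exact ⟨H, fun i => hH.eq i i.2⟩

end Fin

/-- The Erdős–Gallai theorem (sufficiency) in set form; `C` is the complement of `S` (given by
membership, to avoid decidability instances), and only sets inside the Durfee square need to be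
checked. -/
theorem erdos_gallai {ι : Type*} [Fintype ι] (d : ι → ℕ) (heven : Even (∑ i, d i))
    (hEG : ∀ S C : Finset ι, (∀ x, x ∈ C ↔ x ∉ S) → (∀ i ∈ S, S.card ≤ d i) →
      ∑ i ∈ S, d i ≤ S.card * (S.card - 1) + ∑ i ∈ C, min S.card (d i)) :
    ∃ H : SimpleGraph ι, ∀ i, dg H i = d i := by
  -- remove the Durfee hypothesis
  have hall : ∀ (k : ℕ) (S : Finset ι), S.card = k →
      ∑ i ∈ S, d i ≤ k * (k - 1) + ∑ i ∈ Sᶜ, min k (d i) := by
    intro k
    induction k with
    | zero =>
      intro S hS
      rw [card_eq_zero] at hS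
      subst hS
      simp
    | succ k ih =>
      intro S hS
      by_cases h : ∀ i ∈ S, S.card ≤ d i
      · have := hEG S Sᶜ (fun x => mem_compl) h
        rw [hS] at this
        exact this
      · have h : ∃ i ∈ S, d i < S.card := by
          by_contra hno
          apply h
          intro i hi
          by_contra h2
          exact hno ⟨i, hi, not_le.mp h2⟩
        obtain ⟨i, hi, hdi⟩ := h
        have h1 := ih (S.erase i) (by rw [card_erase_of_mem hi]; omega)
        have h2 : (S.erase i)ᶜ = insert i Sᶜ := by
          ext x; simp only [mem_compl, mem_erase, mem_insert]; tauto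
        rw [h2, sum_insert (by simp [hi])] at h1
        have h3 : ∑ x ∈ Sᶜ, min k (d x) ≤ ∑ x ∈ Sᶜ, min (k + 1) (d x) :=
          sum_le_sum (fun x _ => min_le_min_right _ (Nat.le_succ k))
        rw [← add_sum_erase S d hi]
        have h4 : min k (d i) = d i := min_eq_right (by omega)
        rw [h4] at h1
        have h5 : (k + 1) * (k + 1 - 1) = k * (k - 1) + 2 * k := by
          rcases k with _ | k
          · simp
          · simp only [Nat.add_sub_cancel]; ring
        rw [h5]
        omega
  -- transport to `Fin n`
  let n := Fintype.card ι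
  let e0 : Fin n ≃ ι := (Fintype.equivFin ι).symm
  let f : Fin n → ℕ := fun i => d (e0 (Fin.rev i))
  let σ := Tuple.sort f
  let e : Fin n ≃ ι := (Fin.revPerm.trans (σ.trans (Fin.revPerm.trans e0)))
  have he : ∀ i, d (e i) = f (σ (Fin.rev i)) := fun i => rfl
  have hmono : Monotone (f ∘ σ) := Tuple.monotone_sort f
  have hanti : Antitone (fun i => d (e i)) := by
    intro i j hij
    simp only [he]
    exact hmono (Fin.rev_le_rev.mpr hij)
  obtain ⟨H, hH⟩ := erdos_gallai_fin (fun i => d (e i)) hanti
    (by rw [Equiv.sum_comp e d]; exact heven) (by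
      intro v
      have h1 := hall (v.val + 1) ((univ.filter (fun i => i ≤ v)).map e.toEmbedding)
        (by rw [card_map]; exact card_le_fin v)
      have h2 : ((univ.filter (fun i => i ≤ v)).map e.toEmbedding)ᶜ =
          (univ.filter (fun i => ¬ i ≤ v)).map e.toEmbedding := by
        ext x
        simp only [mem_compl, mem_map, mem_filter, mem_univ, true_and, Equiv.coe_toEmbedding,
          not_exists, not_and]
        constructor
        · intro h
          refine ⟨e.symm x, fun h3 => h (e.symm x) h3 (by simp), by simp⟩
        · rintro ⟨a, ha, rfl⟩ b hb hba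
          exact ha (e.injective hba ▸ hb)
      rw [h2, sum_map, sum_map] at h1
      simpa using h1)
  refine ⟨H.comap e.symm, ?_⟩
  intro i
  have h1 := hH (e.symm i)
  simp only [Equiv.apply_symm_apply] at h1
  rw [← h1]
  unfold dg
  rw [← card_map e.symm.toEmbedding]
  congr 1
  ext x
  simp only [mem_map, mem_filter, mem_univ, true_and, SimpleGraph.comap_adj,
    Equiv.coe_toEmbedding]
  constructor
  · rintro ⟨y, hy, rfl⟩; exact hy
  · intro h
    exact ⟨e x, by simpa using h, by simp⟩

end Pool.Agent.X81.ErdosGallai
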