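import Mathlib

set_option autoImplicit false

open Classical Finset

namespace Pool.Agent.X81.EndRatio

/-- strict endomorphisms of a relation -/
def EndR {V : Type*} (r : V → V → Prop) : Set (V → V) := {f | ∀ x y, r x y → r (f x) (f y)}

/-- bijective strict endomorphisms -/
def BijR {V : Type*} (r : V → V → Prop) : Set (V → V) := {f | f ∈ EndR r ∧ Function.Bijective f}

/-- the join of `j` copies -/
def J {W : Type*} (j : ℕ) (r : W → W → Prop) : Fin j × W → Fin j × W → Prop :=
  fun p p' => p.1 = p'.1 → r p.2 p'.2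

lemma ite_le_one (p : Prop) : (if p then 1 else 0) ≤ 1 := by
  by_cases h : p
  · simp [h]
  · simp [h]

section join

variable {W : Type*} {j : ℕ} {r : W → W → Prop}

lemma one_copy (hs : ∀ x y, r x y → r y x)
    (htri : ∀ x y z, r x y → r y z → r z x → False)
    (hnb : ∀ c : W → Prop, ∃ u v, r u v ∧ (c u ↔ c v))
    {f : Fin j × W → Fin j × W} (hf : f ∈ EndR (J j r)) (i0 : Fin j) :
    ∃ l, ∀ u, (f (i0, u)).1 = l := by
  obtain ⟨a, b, hab, _⟩ := hnb (fun _ => True)
  have hne : a ≠ b := by rintro rfl; exact htri _ _ _ hab hab hab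
  have hj : 0 < j := lt_of_le_of_lt (Nat.zero_le _) i0.2
  let Q : Finset (Fin j × W) := (univ.erase i0) ×ˢ ({a, b} : Finset W)
  have hQ : Q.card = (j - 1) * 2 := by
    show ((univ.erase i0) ×ˢ ({a, b} : Finset W)).card = _
    rw [card_product, card_erase_of_mem (mem_univ _), card_univ, Fintype.card_fin, card_pair hne]
  have hQi : ∀ p ∈ Q, p.1 ≠ i0 := fun p hp => (mem_erase.mp (mem_product.mp hp).1).1
  have hQQ : ∀ p ∈ Q, ∀ p' ∈ Q, p ≠ p' → J j r p p' := by
    intro p hp p' hp' hpp h1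
    have h2 : p.2 ∈ ({a, b} : Finset W) := (mem_product.mp hp).2
    have h3 : p'.2 ∈ ({a, b} : Finset W) := (mem_product.mp hp').2
    have h4 : p.2 ≠ p'.2 := fun h5 => hpp (Prod.ext h1 h5)
    rw [mem_insert, mem_singleton] at h2 h3
    rcases h2 with h2 | h2 <;> rcases h3 with h3 | h3
    · exact absurd (h2.trans h3.symm) h4
    · rw [h2, h3]; exact hab
    · rw [h2, h3]; exact hs _ _ hab
    · exact absurd (h2.trans h3.symm) h4
  let c : W → Fin j := fun w => (f (i0, w)).1
  let F : Fin j → Finset (Fin j × W) := fun l => Q.filter (fun p => (f p).1 = l)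
  let t1 : Fin j → ℕ := fun l => if ∃ w, c w = l then 1 else 0
  let t2 : Fin j → ℕ := fun l => if ∃ w w', r w w' ∧ c w = l ∧ c w' = l then 1 else 0
  have hsum : ∑ l, (F l).card = (j - 1) * 2 := by
    rw [← hQ]
    exact (card_eq_sum_card_fiberwise (fun p _ => mem_coe.mpr (mem_univ _))).symm
  have hwq : ∀ w, ∀ p ∈ Q, (f p).1 = c w → r (f (i0, w)).2 (f p).2 := by
    intro w p hp h
    exact hf (i0, w) p (fun h1 => absurd h1.symm (hQi p hp)) h.symm
  have hqq : ∀ p ∈ Q, ∀ p' ∈ Q, p ≠ p' → (f p).1 = (f p').1 → r (f p).2 (f p').2 := by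
    intro p hp p' hp' hpp h
    exact hf p p' (hQQ p hp p' hp' hpp) h
  have hww : ∀ w w', r w w' → c w = c w' → r (f (i0, w)).2 (f (i0, w')).2 := by
    intro w w' h h1
    exact hf (i0, w) (i0, w') (fun _ => h) h1
  have hbd : ∀ l, (F l).card + (t1 l + t2 l) ≤ 2 := by
    intro l
    by_cases h2 : ∃ w w', r w w' ∧ c w = l ∧ c w' = l
    · have h1 : (F l).card = 0 := by
        rw [card_eq_zero]
        by_contra hne
        obtain ⟨p, hp⟩ := nonempty_iff_ne_empty.mpr hne
        obtain ⟨w, w', hww', hw, hw'⟩ := h2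
        have hp1 := (mem_filter.mp hp).1
        have hp2 := (mem_filter.mp hp).2
        exact htri _ _ _ (hww w w' hww' (hw.trans hw'.symm))
          (hwq w' p hp1 (hp2.trans hw'.symm)) (hs _ _ (hwq w p hp1 (hp2.trans hw.symm)))
      have h3 : t1 l ≤ 1 := by exact ite_le_one _
      have h4 : t2 l ≤ 1 := by exact ite_le_one _
      omega
    · have ht2 : t2 l = 0 := if_neg h2
      by_cases h1 : ∃ w, c w = l
      · have h3 : (F l).card ≤ 1 := by
          by_contra hgt
          obtain ⟨p, hp, p', hp', hpp⟩ := one_lt_card.mp (not_le.mp hgt)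
          obtain ⟨w, hw⟩ := h1
          have a1 := mem_filter.mp hp
          have a2 := mem_filter.mp hp'
          exact htri _ _ _ (hwq w p a1.1 (a1.2.trans hw.symm))
            (hqq p a1.1 p' a2.1 hpp (a1.2.trans a2.2.symm))
            (hs _ _ (hwq w p' a2.1 (a2.2.trans hw.symm)))
        have h4 : t1 l ≤ 1 := by exact ite_le_one _
        omega
      · have ht1 : t1 l = 0 := if_neg h1
        have h3 : (F l).card ≤ 2 := by
          by_contra hgt
          obtain ⟨p, p', p'', hp, hp', hp'', n1, n2, n3⟩ := two_lt_card_iff.mp (not_le.mp hgt)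
          have a1 := mem_filter.mp hp
          have a2 := mem_filter.mp hp'
          have a3 := mem_filter.mp hp''
          exact htri _ _ _ (hqq p a1.1 p' a2.1 n1 (a1.2.trans a2.2.symm))
            (hqq p' a2.1 p'' a3.1 n3 (a2.2.trans a3.2.symm))
            (hqq p'' a3.1 p a1.1 n2.symm (a3.2.trans a1.2.symm))
        omega
  have htot : ∑ l, (t1 l + t2 l) ≤ 2 := by
    have h1 : ∑ l, ((F l).card + (t1 l + t2 l)) ≤ ∑ _l : Fin j, 2 := sum_le_sum (fun l _ => hbd l)
    rw [sum_add_distrib, hsum, sum_const, card_univ, Fintype.card_fin, smul_eq_mul] at h1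
    omega
  -- constancy
  by_contra hno
  have hno : ∀ l, ∃ u, c u ≠ l := by
    intro l
    by_contra h
    exact hno ⟨l, fun u => by
      by_contra h2
      exact h ⟨u, h2⟩⟩
  obtain ⟨w2, hw2⟩ := hno (c a)
  have ht1 : ∀ w, 1 ≤ t1 (c w) := fun w => by
    show 1 ≤ (if ∃ w', c w' = c w then 1 else 0)
    rw [if_pos ⟨w, rfl⟩]
  have ht2 : ∀ w w', r w w' → c w = c w' → 1 ≤ t2 (c w) := fun w w' h h' => by
    show 1 ≤ (if ∃ v v', r v v' ∧ c v = c w ∧ c v' = c w then 1 else 0)
    rw [if_pos ⟨w, w', h, rfl, h'.symm⟩]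
  have two : ∀ x y : Fin j, x ≠ y → t1 x + t2 x + (t1 y + t2 y) ≤ 2 := by
    intro x y hxy
    refine le_trans ?_ htot
    rw [← sum_pair (f := fun l => t1 l + t2 l) hxy]
    exact sum_le_sum_of_subset (subset_univ _)
  have three : ∀ x y z : Fin j, x ≠ y → x ≠ z → y ≠ z →
      t1 x + t2 x + (t1 y + t2 y) + (t1 z + t2 z) ≤ 2 := by
    intro x y z hxy hxz hyz
    refine le_trans ?_ htot
    have : ∑ l ∈ ({x, y, z} : Finset (Fin j)), (t1 l + t2 l) =
        t1 x + t2 x + (t1 y + t2 y) + (t1 z + t2 z) := by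
      rw [sum_insert (by simp [hxy, hxz]), sum_pair hyz]
      omega
    rw [← this]
    exact sum_le_sum_of_subset (subset_univ _)
  obtain ⟨u, v, huv, hcol⟩ := hnb (fun w => c w = c a)
  by_cases hu : c u = c a
  · have hv := hcol.mp hu
    have h1 := two (c u) (c w2) (by rw [hu]; exact hw2.symm)
    have h2 := ht1 u
    have h3 := ht2 u v huv (hu.trans hv.symm)
    have h4 := ht1 w2
    omega
  · have hv : ¬ c v = c a := fun h => hu (hcol.mpr h)
    by_cases huv' : c u = c v
    · have h1 := two (c u) (c a) hu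
      have h2 := ht1 u
      have h3 := ht2 u v huv huv'
      have h4 := ht1 a
      omega
    · have h1 := three (c u) (c v) (c a) huv' hu hv
      have h2 := ht1 u
      have h3 := ht1 v
      have h4 := ht1 a
      omega

/-- maps which act by a permutation on the copies and by members of `S` inside the copies -/
def wr (j : ℕ) (S : Set (W → W)) : Set (Fin j × W → Fin j × W) :=
  {f | ∃ σ : Equiv.Perm (Fin j), ∃ g : Fin j → (W → W), (∀ i, g i ∈ S) ∧
    f = fun p => (σ p.1, g p.1 p.2)}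

lemma card_wr [Finite W] [Nonempty W] (j : ℕ) (S : Set (W → W)) :
    Nat.card (wr j S) = j.factorial * (Nat.card S) ^ j := by
  have e : (Equiv.Perm (Fin j) × (Fin j → S)) ≃ wr j S := by
    refine Equiv.ofBijective (fun x => ⟨fun p => (x.1 p.1, (x.2 p.1).1 p.2), x.1,
      fun i => (x.2 i).1, fun i => (x.2 i).2, rfl⟩) ⟨?_, ?_⟩
    · rintro ⟨σ, g⟩ ⟨σ', g'⟩ h
      have h1 := congrFun (congrArg Subtype.val h)
      simp only at h1
      refine Prod.ext ?_ ?_
      · apply Equiv.ext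
        intro i
        obtain ⟨w⟩ := (inferInstance : Nonempty W)
        exact (Prod.ext_iff.mp (h1 (i, w))).1
      · funext i
        apply Subtype.ext
        funext w
        exact (Prod.ext_iff.mp (h1 (i, w))).2
    · rintro ⟨f, σ, g, hg, rfl⟩
      exact ⟨(σ, fun i => ⟨g i, hg i⟩), rfl⟩
  rw [← Nat.card_congr e, Nat.card_prod, Nat.card_perm, Nat.card_fun]
  simp

theorem end_join (hs : ∀ x y, r x y → r y x)
    (htri : ∀ x y z, r x y → r y z → r z x → False)
    (hnb : ∀ c : W → Prop, ∃ u v, r u v ∧ (c u ↔ c v)) :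
    EndR (J j r) = wr j (EndR r) := by
  ext f
  constructor
  · intro hf
    have h1 := one_copy hs htri hnb hf
    choose σ hσ using h1
    obtain ⟨a, b, hab, _⟩ := hnb (fun _ => True)
    have hinj : Function.Injective σ := by
      intro i i' hii
      by_contra hne
      have e1 : r (f (i, a)).2 (f (i, b)).2 :=
        hf (i, a) (i, b) (fun _ => hab) ((hσ i a).trans (hσ i b).symm)
      have e2 : r (f (i, b)).2 (f (i', a)).2 :=
        hf (i, b) (i', a) (fun h => absurd h hne) ((hσ i b).trans (hii.trans (hσ i' a).symm))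
      have e3 : r (f (i', a)).2 (f (i, a)).2 :=
        hf (i', a) (i, a) (fun h => absurd h.symm hne)
          ((hσ i' a).trans (hii.symm.trans (hσ i a).symm))
      exact htri _ _ _ e1 e2 e3
    refine ⟨Equiv.ofBijective σ ⟨hinj, Finite.injective_iff_surjective.mp hinj⟩,
      fun i w => (f (i, w)).2, ?_, ?_⟩
    · intro i x y hxy
      exact hf (i, x) (i, y) (fun _ => hxy) ((hσ i x).trans (hσ i y).symm)
    · funext p
      obtain ⟨i, w⟩ := p
      exact Prod.ext (hσ i w) rfl
  · rintro ⟨σ, g, hg, rfl⟩ p p' h h1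
    have h2 : p.1 = p'.1 := σ.injective h1
    have h3 := h h2
    show r (g p.1 p.2) (g p'.1 p'.2)
    rw [← h2]
    exact hg p.1 _ _ h3

theorem bij_join [Finite W] (hs : ∀ x y, r x y → r y x)
    (htri : ∀ x y z, r x y → r y z → r z x → False)
    (hnb : ∀ c : W → Prop, ∃ u v, r u v ∧ (c u ↔ c v)) :
    BijR (J j r) = wr j (BijR r) := by
  ext f
  constructor
  · rintro ⟨hf, hb⟩
    rw [end_join hs htri hnb] at hf
    obtain ⟨σ, g, hg, rfl⟩ := hf
    refine ⟨σ, g, fun i => ⟨hg i, ?_⟩, rfl⟩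
    have hinj : Function.Injective (g i) := by
      intro x y hxy
      have h1 : (i, x) = (i, y) := hb.1 (by
        show (σ i, g i x) = (σ i, g i y)
        rw [hxy])
      exact (Prod.ext_iff.mp h1).2
    exact ⟨hinj, Finite.injective_iff_surjective.mp hinj⟩
  · rintro ⟨σ, g, hg, rfl⟩
    refine ⟨?_, ?_⟩
    · rw [end_join hs htri hnb]
      exact ⟨σ, g, fun i => (hg i).1, rfl⟩
    · have hinj : Function.Injective (fun p : Fin j × W => (σ p.1, g p.1 p.2)) := by
        rintro ⟨i, x⟩ ⟨i', y⟩ h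
        have h1 := (Prod.ext_iff.mp h).1
        have h2 := (Prod.ext_iff.mp h).2
        simp only at h1 h2
        have h3 : i = i' := σ.injective h1
        subst h3
        exact Prod.ext rfl ((hg i).2.1 h2)
      exact ⟨hinj, Finite.injective_iff_surjective.mp hinj⟩

end join

/-! ### The basic graph -/

/-- adjacency on (layer, index), `m` being the index of the isolated 5-cycle -/
def adjN (m l s l' s' : ℕ) : Prop :=
  (l' = l + 1 ∧ s = s') ∨ (l = l' + 1 ∧ s = s') ∨
  (l = 0 ∧ l' = 4 ∧ ((s < m ∧ s' < m ∧ s ≠ s') ∨ (s = m ∧ s' = m))) ∨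
  (l = 4 ∧ l' = 0 ∧ ((s < m ∧ s' < m ∧ s ≠ s') ∨ (s = m ∧ s' = m)))

lemma adjN_symm {m l s l' s' : ℕ} (h : adjN m l s l' s') : adjN m l' s' l s := by
  unfold adjN at *; omega

lemma adjN_lt {m l s l' s' : ℕ} (h : adjN m l s l' s') : s < m ↔ s' < m := by
  unfold adjN at h; omega

lemma no_tri {m l0 s0 l1 s1 l2 s2 : ℕ}
    (h0 : adjN m l0 s0 l1 s1) (h1 : adjN m l1 s1 l2 s2) (h2 : adjN m l2 s2 l0 s0)
    (b0 : l0 < 5) (b1 : l1 < 5) (b2 : l2 < 5) : False := by
  unfold adjN at *
  rcases h0 with h0 | h0 | h0 | h0 <;> rcases h1 with h1 | h1 | h1 | h1 <;>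
    rcases h2 with h2 | h2 | h2 | h2 <;> omega

lemma pent {m l0 s0 l1 s1 l2 s2 l3 s3 l4 s4 : ℕ}
    (h0 : adjN m l0 s0 l1 s1) (h1 : adjN m l1 s1 l2 s2) (h2 : adjN m l2 s2 l3 s3)
    (h3 : adjN m l3 s3 l4 s4) (h4 : adjN m l4 s4 l0 s0)
    (b0 : l0 < 5) (b1 : l1 < 5) (b2 : l2 < 5) (b3 : l3 < 5) (b4 : l4 < 5) :
    ¬ s0 < m ∧ l0 ≠ l1 ∧ l0 ≠ l2 ∧ l0 ≠ l3 ∧ l0 ≠ l4 ∧ l1 ≠ l2 ∧ l1 ≠ l3 ∧ l1 ≠ l4 ∧
      l2 ≠ l3 ∧ l2 ≠ l4 ∧ l3 ≠ l4 := by
  unfold adjN at *
  rcases h0 with h0 | h0 | h0 | h0 <;> rcases h1 with h1 | h1 | h1 | h1 <;> omega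

lemma deg2 {m l s l1 s1 l2 s2 l3 s3 : ℕ} (h1 : adjN m l s l1 s1) (h2 : adjN m l s l2 s2)
    (h3 : adjN m l s l3 s3) (b : l < 5)
    (n12 : ¬ (l1 = l2 ∧ s1 = s2)) (n13 : ¬ (l1 = l3 ∧ s1 = s3)) (n23 : ¬ (l2 = l3 ∧ s2 = s3)) :
    l = 0 ∨ l = 4 := by
  unfold adjN at *
  rcases h1 with h1 | h1 | h1 | h1 <;> rcases h2 with h2 | h2 | h2 | h2 <;>
    rcases h3 with h3 | h3 | h3 | h3 <;> omega

lemma column {m a l1 s1 l2 s2 l3 s3 b : ℕ} (h0 : adjN m 0 a l1 s1) (h1 : adjN m l1 s1 l2 s2)
    (h2 : adjN m l2 s2 l3 s3) (h3 : adjN m l3 s3 4 b) (b1 : l1 < 5) (b2 : l2 < 5) (b3 : l3 < 5) :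
    l1 = 1 ∧ l2 = 2 ∧ l3 = 3 ∧ s1 = a ∧ s2 = a ∧ s3 = a ∧ b = a := by
  unfold adjN at *
  rcases h0 with h0 | h0 | h0 | h0 <;> rcases h1 with h1 | h1 | h1 | h1 <;>
    rcases h2 with h2 | h2 | h2 | h2 <;> rcases h3 with h3 | h3 | h3 | h3 <;> omega

/-- the value of an index, `none` (the isolated 5-cycle) being `m` -/
def idx {m : ℕ} : Option (Fin m) → ℕ
  | none => m
  | some s => s.val

lemma idx_inj {m : ℕ} {s t : Option (Fin m)} (h : idx s = idx t) : s = t := by
  rcases s with _ | s <;> rcases t with _ | t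
  · rfl
  · have h1 : m = t.val := h
    have := t.2
    omega
  · have h1 : s.val = m := h
    have := s.2
    omega
  · have h1 : s.val = t.val := h
    rw [Fin.ext h1]

/-- the graph `T(m) ⊔ C₅` -/
def rW (m : ℕ) (p p' : Fin 5 × Option (Fin m)) : Prop :=
  adjN m p.1.val (idx p.2) p'.1.val (idx p'.2)

lemma rW_symm (m : ℕ) (x y : Fin 5 × Option (Fin m)) (h : rW m x y) : rW m y x := adjN_symm h

lemma rW_tri (m : ℕ) (x y z : Fin 5 × Option (Fin m)) (h1 : rW m x y) (h2 : rW m y z)
    (h3 : rW m z x) : False := no_tri h1 h2 h3 x.1.2 y.1.2 z.1.2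

lemma rW_col (m : ℕ) (l l' : Fin 5) (s : Option (Fin m)) (h : l'.val = l.val + 1) :
    rW m (l, s) (l', s) := Or.inl ⟨h, rfl⟩

lemma rW_none (m : ℕ) : rW m (4, none) (0, none) := by
  right; right; right
  exact ⟨rfl, rfl, Or.inr ⟨rfl, rfl⟩⟩

lemma rW_cross (m : ℕ) (s t : Fin m) (h : s ≠ t) : rW m (4, some s) (0, some t) := by
  right; right; right
  exact ⟨rfl, rfl, Or.inl ⟨s.2, t.2, fun h1 => h (Fin.ext h1)⟩⟩

lemma rW_nb (m : ℕ) (c : Fin 5 × Option (Fin m) → Prop) : ∃ u v, rW m u v ∧ (c u ↔ c v) := by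
  by_contra hno
  have h : ∀ u v, rW m u v → ¬ (c u ↔ c v) := fun u v h1 h2 => hno ⟨u, v, h1, h2⟩
  have h0 := h _ _ (rW_col m 0 1 none rfl)
  have h1 := h _ _ (rW_col m 1 2 none rfl)
  have h2 := h _ _ (rW_col m 2 3 none rfl)
  have h3 := h _ _ (rW_col m 3 4 none rfl)
  have h4 := h _ _ (rW_none m)
  tauto

/-- an endomorphism of the basic graph which does not collapse everything to the 5-cycle is
bijective -/
theorem end_rW (m : ℕ) (hm : 4 ≤ m) (f : Fin 5 × Option (Fin m) → Fin 5 × Option (Fin m))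
    (hf : f ∈ EndR (rW m)) (p0 : Fin 5 × Option (Fin m)) (hp0 : idx (f p0).2 < m) :
    Function.Bijective f := by
  have col : ∀ (l l' : Fin 5) (s : Option (Fin m)), l'.val = l.val + 1 →
      rW m (f (l, s)) (f (l', s)) := fun l l' s h => hf _ _ (rW_col m l l' s h)
  -- the 5-cycle
  have hpent := pent (col 0 1 none rfl) (col 1 2 none rfl) (col 2 3 none rfl) (col 3 4 none rfl)
    (hf _ _ (rW_none m)) (f (0, none)).1.2 (f (1, none)).1.2 (f (2, none)).1.2 (f (3, none)).1.2
    (f (4, none)).1.2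
  have lt_col : ∀ (s : Option (Fin m)) (l : Fin 5), idx (f (l, s)).2 < m ↔ idx (f (0, s)).2 < m := by
    intro s l
    have e0 := adjN_lt (col 0 1 s rfl)
    have e1 := adjN_lt (col 1 2 s rfl)
    have e2 := adjN_lt (col 2 3 s rfl)
    have e3 := adjN_lt (col 3 4 s rfl)
    fin_cases l
    · exact Iff.rfl
    · exact e0.symm
    · exact (e0.trans e1).symm
    · exact ((e0.trans e1).trans e2).symm
    · exact (((e0.trans e1).trans e2).trans e3).symm
  have hnone : ∀ l : Fin 5, ¬ idx (f (l, none)).2 < m := fun l h => hpent.1 ((lt_col none l).mp h)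
  have hall : ∀ (s : Fin m) (l : Fin 5), idx (f (l, some s)).2 < m := by
    obtain ⟨l0, s0⟩ := p0
    rcases s0 with _ | s0
    · exact absurd hp0 (hnone l0)
    have h0 := (lt_col _ _).mp hp0
    have h1 : ∀ s : Fin m, idx (f (0, some s)).2 < m := by
      intro s
      by_cases hs : s = s0
      · rw [hs]; exact h0
      · have e := adjN_lt (hf _ _ (rW_cross m s s0 hs))
        exact (lt_col _ 4).mp (e.mpr h0)
    intro s l
    exact (lt_col _ l).mpr (h1 s)
  have cross : ∀ s t : Fin m, s ≠ t → rW m (f (4, some s)) (f (0, some t)) :=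
    fun s t h => hf _ _ (rW_cross m s t h)
  have injX : ∀ s t : Fin m, s ≠ t → f (0, some s) ≠ f (0, some t) := by
    intro s t hst heq
    have h := pent (col 0 1 (some s) rfl) (col 1 2 (some s) rfl) (col 2 3 (some s) rfl)
      (col 3 4 (some s) rfl) (by
        have := cross s t hst
        rw [← heq] at this
        exact this) (f (0, some s)).1.2 (f (1, some s)).1.2 (f (2, some s)).1.2
      (f (3, some s)).1.2 (f (4, some s)).1.2
    exact h.1 (hall s 0)
  have injY : ∀ s t : Fin m, s ≠ t → f (4, some s) ≠ f (4, some t) := by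
    intro s t hst heq
    have h := pent (col 0 1 (some s) rfl) (col 1 2 (some s) rfl) (col 2 3 (some s) rfl)
      (col 3 4 (some s) rfl) (by
        have := cross t s hst.symm
        rw [← heq] at this
        exact this) (f (0, some s)).1.2 (f (1, some s)).1.2 (f (2, some s)).1.2
      (f (3, some s)).1.2 (f (4, some s)).1.2
    exact h.1 (hall s 0)
  -- three other indices
  have three : ∀ s : Fin m, ∃ a b c : Fin m, a ≠ s ∧ b ≠ s ∧ c ≠ s ∧ a ≠ b ∧ a ≠ c ∧ b ≠ c := by
    intro s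
    have h1 : 2 < (univ.erase s).card := by
      rw [card_erase_of_mem (mem_univ _), card_univ, Fintype.card_fin]; omega
    obtain ⟨a, b, c, ha, hb, hc, h2, h3, h4⟩ := two_lt_card_iff.mp h1
    exact ⟨a, b, c, (mem_erase.mp ha).1, (mem_erase.mp hb).1, (mem_erase.mp hc).1, h2, h3, h4⟩
  have sep : ∀ x y : Fin 5 × Option (Fin m), x ≠ y → ¬ (x.1.val = y.1.val ∧ idx x.2 = idx y.2) := by
    rintro x y hne ⟨h1, h2⟩
    exact hne (Prod.ext (Fin.ext h1) (idx_inj h2))
  have layX : ∀ s : Fin m, (f (0, some s)).1.val = 0 ∨ (f (0, some s)).1.val = 4 := by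
    intro s
    obtain ⟨a, b, c, ha, hb, hc, h1, h2, h3⟩ := three s
    exact deg2 (adjN_symm (cross a s ha)) (adjN_symm (cross b s hb)) (adjN_symm (cross c s hc))
      (f (0, some s)).1.2 (sep _ _ (injY a b h1)) (sep _ _ (injY a c h2)) (sep _ _ (injY b c h3))
  have layY : ∀ s : Fin m, (f (4, some s)).1.val = 0 ∨ (f (4, some s)).1.val = 4 := by
    intro s
    obtain ⟨a, b, c, ha, hb, hc, h1, h2, h3⟩ := three s
    exact deg2 (cross s a ha.symm) (cross s b hb.symm) (cross s c hc.symm)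
      (f (4, some s)).1.2 (sep _ _ (injX a b h1)) (sep _ _ (injX a c h2)) (sep _ _ (injX b c h3))
  have opp : ∀ s t : Fin m, s ≠ t → (f (4, some s)).1.val + (f (0, some t)).1.val = 4 := by
    intro s t hst
    have h1 := layY s
    have h2 := layX t
    have h3 := cross s t hst
    unfold rW adjN at h3
    omega
  have sameX : ∀ s t : Fin m, (f (0, some s)).1.val = (f (0, some t)).1.val := by
    intro s t
    obtain ⟨a, b, c, ha, hb, hc, h1, h2, h3⟩ := three s
    by_cases hat : a = t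
    · have hbt : b ≠ t := fun h => h1 (hat.trans h.symm)
      have e1 := opp b s hb
      have e2 := opp b t hbt
      omega
    · have e1 := opp a s ha
      have e2 := opp a t hat
      omega
  have oppall : ∀ s t : Fin m, (f (4, some s)).1.val + (f (0, some t)).1.val = 4 := by
    intro s t
    obtain ⟨a, b, c, ha, hb, hc, h1, h2, h3⟩ := three s
    have e1 := opp s a ha.symm
    have e2 := sameX a t
    omega
  -- the form of `f` on a column
  have form : ∀ (s : Fin m) (l : Fin 5), idx (f (l, some s)).2 = idx (f (0, some s)).2 ∧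
      (((f (0, some s)).1.val = 0 ∧ (f (l, some s)).1.val = l.val) ∨
       ((f (0, some s)).1.val = 4 ∧ (f (l, some s)).1.val + l.val = 4)) := by
    intro s l
    have c0 := col 0 1 (some s) rfl
    have c1 := col 1 2 (some s) rfl
    have c2 := col 2 3 (some s) rfl
    have c3 := col 3 4 (some s) rfl
    have b0 := (f (0, some s)).1.2
    have b1 := (f (1, some s)).1.2
    have b2 := (f (2, some s)).1.2
    have b3 := (f (3, some s)).1.2
    have b4 := (f (4, some s)).1.2
    have ho := oppall s s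
    unfold rW at c0 c1 c2 c3
    rcases layX s with h0 | h4
    · have h4 : (f (4, some s)).1.val = 4 := by omega
      rw [h0] at c0
      rw [h4] at c3
      have h := column c0 c1 c2 c3 b1 b2 b3
      fin_cases l
      · exact ⟨rfl, Or.inl ⟨h0, h0⟩⟩
      · exact ⟨h.2.2.2.1, Or.inl ⟨h0, h.1⟩⟩
      · exact ⟨h.2.2.2.2.1, Or.inl ⟨h0, h.2.1⟩⟩
      · exact ⟨h.2.2.2.2.2.1, Or.inl ⟨h0, h.2.2.1⟩⟩
      · exact ⟨h.2.2.2.2.2.2, Or.inl ⟨h0, h4⟩⟩
    · have h0 : (f (4, some s)).1.val = 0 := by omega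
      rw [h4] at c0
      rw [h0] at c3
      have h := column (adjN_symm c3) (adjN_symm c2) (adjN_symm c1) (adjN_symm c0) b3 b2 b1
      obtain ⟨g1, g2, g3, g4, g5, g6, g7⟩ := h
      fin_cases l
      · exact ⟨rfl, Or.inr ⟨h4, h4⟩⟩
      · exact ⟨g6.trans g7.symm, Or.inr ⟨h4, by
          show (f (1, some s)).1.val + 1 = 4
          omega⟩⟩
      · exact ⟨g5.trans g7.symm, Or.inr ⟨h4, by
          show (f (2, some s)).1.val + 2 = 4
          omega⟩⟩
      · exact ⟨g4.trans g7.symm, Or.inr ⟨h4, by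
          show (f (3, some s)).1.val + 3 = 4
          omega⟩⟩
      · exact ⟨g7.symm, Or.inr ⟨h4, by
          show (f (4, some s)).1.val + 4 = 4
          omega⟩⟩
  have hinj : Function.Injective f := by
    rintro ⟨l, s⟩ ⟨l', s'⟩ heq
    have hl : (f (l, s)).1.val = (f (l', s')).1.val := by rw [heq]
    have hi : idx (f (l, s)).2 = idx (f (l', s')).2 := by rw [heq]
    rcases s with _ | s
    · rcases s' with _ | s'
      · obtain ⟨_, q01, q02, q03, q04, q12, q13, q14, q23, q24, q34⟩ := hpent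
        fin_cases l <;> fin_cases l' <;> first | rfl | (exfalso; simp at hl; omega)
      · have h1 := hnone l
        have h2 := hall s' l'
        omega
    · rcases s' with _ | s'
      · have h1 := hnone l'
        have h2 := hall s l
        omega
      · have f1 := form s l
        have f2 := form s' l'
        have h3 : idx (f (0, some s)).2 = idx (f (0, some s')).2 := by omega
        have hsame := sameX s s'
        have hss : s = s' := by
          by_contra hne
          exact injX s s' hne (Prod.ext (Fin.ext hsame) (idx_inj h3))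
        subst hss
        have hll : l = l' := by
          apply Fin.ext
          omega
        rw [hll]
  exact ⟨hinj, Finite.injective_iff_surjective.mp hinj⟩

end Pool.Agent.X81.EndRatio
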