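import Mathlib

set_option autoImplicit false

open Classical Finset

namespace Pool.Agent.X81.CircObs

/-! ### Counting subsets which avoid given traces -/

/-- number of `S : V → Bool` whose trace on each block of `R` differs from `P` -/
lemma count_avoid {V A : Type} [Fintype V] [Fintype A] {r : ℕ} (f : Fin r → A → V)
    (hf : ∀ s i s' i', f s i = f s' i' → s = s' ∧ i = i') (P : A → Bool) (R : Finset (Fin r)) :
    (univ.filter (fun S : V → Bool => ∀ s ∈ R, ∃ i, S (f s i) ≠ P i)).card *
      (2 ^ Fintype.card A) ^ R.card = 2 ^ Fintype.card V * (2 ^ Fintype.card A - 1) ^ R.card := by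
  induction R using Finset.induction_on with
  | empty => simp
  | insert s R hs ih =>
    set X := univ.filter (fun S : V → Bool => ∀ s ∈ R, ∃ i, S (f s i) ≠ P i) with hX
    set Y := X.filter (fun S : V → Bool => ∀ i, S (f s i) = P i) with hY
    have hinj : Function.Injective (f s) := fun i j h => (hf s i s j h).2
    have hnr : ∀ s' ∈ R, ∀ i, ¬ ∃ a, f s a = f s' i := by
      rintro s' hs' i ⟨a, ha⟩
      exact hs ((hf _ _ _ _ ha).1 ▸ hs')
    have h1 : X.card = Y.card * 2 ^ Fintype.card A := by
      have h2 : (Y ×ˢ (univ : Finset (A → Bool))).card = Y.card * 2 ^ Fintype.card A := by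
        rw [card_product, card_univ, Fintype.card_fun, Fintype.card_bool]
      rw [← h2]
      apply card_bij' (fun S _ => (Function.extend (f s) P S, fun i => S (f s i)))
        (fun q _ => Function.extend (f s) q.2 q.1)
      · intro S hS
        have hS' := (mem_filter.mp hS).2
        rw [mem_product]
        refine ⟨mem_filter.mpr ⟨mem_filter.mpr ⟨mem_univ _, ?_⟩, ?_⟩, mem_univ _⟩
        · intro s' hs'
          obtain ⟨i, hi⟩ := hS' s' hs'
          refine ⟨i, ?_⟩
          show Function.extend (f s) P S (f s' i) ≠ P i
          rw [Function.extend_apply' _ _ _ (hnr s' hs' i)]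
          exact hi
        · intro i
          exact hinj.extend_apply _ _ _
      · rintro ⟨S, α⟩ hS
        have hS' := (mem_filter.mp (mem_filter.mp (mem_product.mp hS).1).1).2
        refine mem_filter.mpr ⟨mem_univ _, ?_⟩
        intro s' hs'
        obtain ⟨i, hi⟩ := hS' s' hs'
        refine ⟨i, ?_⟩
        show Function.extend (f s) α S (f s' i) ≠ P i
        rw [Function.extend_apply' _ _ _ (hnr s' hs' i)]
        exact hi
      · intro S _
        funext v
        show Function.extend (f s) (fun i => S (f s i)) (Function.extend (f s) P S) v = S v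
        by_cases hv : ∃ a, f s a = v
        · obtain ⟨a, rfl⟩ := hv
          rw [hinj.extend_apply]
        · rw [Function.extend_apply' _ _ _ hv, Function.extend_apply' _ _ _ hv]
      · rintro ⟨S, α⟩ hS
        have hS' := (mem_filter.mp (mem_product.mp hS).1).2
        refine Prod.ext ?_ ?_
        · funext v
          show Function.extend (f s) P (Function.extend (f s) α S) v = S v
          by_cases hv : ∃ a, f s a = v
          · obtain ⟨a, rfl⟩ := hv
            rw [hinj.extend_apply]
            exact (hS' a).symm
          · rw [Function.extend_apply' _ _ _ hv, Function.extend_apply' _ _ _ hv]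
        · funext i
          exact hinj.extend_apply _ _ _
    have h3 : (univ.filter (fun S : V → Bool => ∀ s' ∈ insert s R, ∃ i, S (f s' i) ≠ P i)) =
        X.filter (fun S : V → Bool => ¬ ∀ i, S (f s i) = P i) := by
      ext S
      simp only [mem_filter, mem_univ, true_and, hX, mem_insert, forall_eq_or_imp, not_forall]
      tauto
    have h4 : Y.card + (X.filter (fun S : V → Bool => ¬ ∀ i, S (f s i) = P i)).card = X.card :=
      card_filter_add_card_filter_not _
    rw [h3, card_insert_of_notMem hs, pow_succ, pow_succ]
    set Z := (X.filter (fun S : V → Bool => ¬ ∀ i, S (f s i) = P i)).card with hZ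
    have hpos : 1 ≤ 2 ^ Fintype.card A := Nat.one_le_two_pow
    have h5 : Z * 2 ^ Fintype.card A = X.card * (2 ^ Fintype.card A - 1) := by
      have e1 : X.card * (2 ^ Fintype.card A - 1) + X.card = X.card * 2 ^ Fintype.card A := by
        have : 2 ^ Fintype.card A = (2 ^ Fintype.card A - 1) + 1 := by omega
        conv_rhs => rw [this]
        ring
      have e2 : (Y.card + Z) * 2 ^ Fintype.card A = X.card * 2 ^ Fintype.card A := by rw [h4]
      rw [add_mul, ← h1] at e2
      omega
    calc Z * ((2 ^ Fintype.card A) ^ R.card * 2 ^ Fintype.card A)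
        = (Z * 2 ^ Fintype.card A) * (2 ^ Fintype.card A) ^ R.card := by ring
      _ = (X.card * (2 ^ Fintype.card A - 1)) * (2 ^ Fintype.card A) ^ R.card := by rw [h5]
      _ = (X.card * (2 ^ Fintype.card A) ^ R.card) * (2 ^ Fintype.card A - 1) := by ring
      _ = _ := by rw [ih]; ring

lemma exists_exponent (D b : ℕ) (hb : 1 ≤ b) : ∃ r, D * (b - 1) ^ r < b ^ r := by
  have hb' : (0 : ℝ) < b := by exact_mod_cast hb
  have h1 : ((b - 1 : ℕ) : ℝ) / b < 1 := by
    rw [div_lt_one hb']
    have : b - 1 < b := by omega
    exact_mod_cast this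
  have h0 : (0 : ℝ) ≤ ((b - 1 : ℕ) : ℝ) / b := by positivity
  obtain ⟨r, hr⟩ := exists_pow_lt_of_lt_one (show (0 : ℝ) < 1 / (D + 1) by positivity) h1
  refine ⟨r, ?_⟩
  rw [div_pow, div_lt_div_iff₀ (by positivity) (by positivity), one_mul] at hr
  have h2 : (((b - 1) ^ r * (D + 1) : ℕ) : ℝ) < ((b ^ r : ℕ) : ℝ) := by
    push_cast
    exact hr
  have h3 : (b - 1) ^ r * (D + 1) < b ^ r := by exact_mod_cast h2
  calc D * (b - 1) ^ r ≤ (b - 1) ^ r * (D + 1) := by
        rw [mul_comm]
        exact Nat.mul_le_mul_left _ (Nat.le_succ D)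
    _ < b ^ r := h3

/-- disjoint pieces of a finite set -/
lemma pieces {α : Type*} (m : ℕ) : ∀ (r : ℕ) (X : Finset α), r * m ≤ X.card →
    ∃ Y : ℕ → Finset α, (∀ s < r, Y s ⊆ X ∧ (Y s).card = m) ∧
      ∀ s s', s < r → s' < r → s ≠ s' → Disjoint (Y s) (Y s') := by
  intro r
  induction r with
  | zero => intro X _; exact ⟨fun _ => ∅, fun s hs => absurd hs (by omega), fun s s' hs => absurd hs (by omega)⟩
  | succ r ih =>
    intro X hX
    have h1 : m ≤ X.card := le_trans (by nlinarith) hX
    obtain ⟨Z, hZ1, hZ2⟩ := exists_subset_card_eq h1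
    obtain ⟨Y, hY1, hY2⟩ := ih (X \ Z) (by
      rw [card_sdiff_of_subset hZ1, hZ2]
      have : (r + 1) * m = r * m + m := by ring
      omega)
    refine ⟨fun s => if s = r then Z else Y s, ?_, ?_⟩
    · intro s hs
      by_cases h : s = r
      · simp only [h, if_true]; exact ⟨hZ1, hZ2⟩
      · simp only [if_neg h]
        have := hY1 s (by omega)
        exact ⟨this.1.trans sdiff_subset, this.2⟩
    · intro s s' hs hs' hne
      by_cases h : s = r
      · have h' : s' ≠ r := by omega
        simp only [h, if_true, if_neg h']
        have := (hY1 s' (by omega)).1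
        exact (disjoint_of_subset_left this sdiff_disjoint).symm
      · by_cases h' : s' = r
        · simp only [h', if_true, if_neg h]
          have := (hY1 s (by omega)).1
          exact disjoint_of_subset_left this sdiff_disjoint
        · simp only [if_neg h, if_neg h']
          exact hY2 s s' (by omega) (by omega) hne

/-! ### Universal multipartite graphs -/

/-- A family `(G M)` of graphs, with parts given by `p M : V M → {0, …, c-1}`, which is universal:
for `M` large, any system of disjoint dense sets contains a transversal copy of a given pattern. -/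
structure UF (c : ℕ) (V : ℕ → Type) [∀ M, Fintype (V M)] (G : ∀ M, SimpleGraph (V M))
    (p : ∀ M, V M → ℕ) : Prop where
  lt : ∀ M v, p M v < c
  proper : ∀ M u v, (G M).Adj u v → p M u ≠ p M v
  large : ∀ c' < c, ∀ M, M ≤ (univ.filter (fun v => p M v = c')).card
  univ : ∀ (ι : Type) [Fintype ι] (H : SimpleGraph ι) (π : ι → ℕ), (∀ i, π i < c) →
    (∀ i j, H.Adj i j → π i ≠ π j) → ∀ D : ℕ, ∃ M0, ∀ M, M0 ≤ M → ∀ W : ι → Finset (V M),
    (∀ i, ∀ v ∈ W i, p M v = π i) →
    (∀ i, (univ.filter (fun v => p M v = π i)).card ≤ D * (W i).card) →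
    (∀ i j, i ≠ j → Disjoint (W i) (W j)) →
    ∃ f : ι → V M, (∀ i, f i ∈ W i) ∧ ∀ i j, (G M).Adj (f i) (f j) ↔ H.Adj i j

/-- one more part: all possible neighbourhoods, `M` times -/
def extG {V : Type} (G : SimpleGraph V) (M : ℕ) : SimpleGraph (V ⊕ ((V → Bool) × Fin M)) where
  Adj a b := match a, b with
    | Sum.inl u, Sum.inl v => G.Adj u v
    | Sum.inl u, Sum.inr S => S.1 u = true
    | Sum.inr S, Sum.inl u => S.1 u = true
    | Sum.inr _, Sum.inr _ => False
  symm := by
    constructor
    rintro (u | S) (v | T) h
    · exact h.symm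
    · exact h
    · exact h
    · exact h
  loopless := by
    constructor
    rintro (u | S) h
    · exact G.loopless.irrefl u h
    · exact h

theorem uf_zero : UF 0 (fun _ => Empty) (fun _ => ⊥) (fun _ => Empty.elim) where
  lt := fun _ v => v.elim
  proper := fun _ v => v.elim
  large := fun c' hc => absurd hc (by omega)
  univ := by
    intro ι _ H π hπ _ D
    refine ⟨0, fun M _ W _ _ _ => ⟨fun i => absurd (hπ i) (by omega), ?_, ?_⟩⟩
    · intro i; exact absurd (hπ i) (by omega)
    · intro i; exact absurd (hπ i) (by omega)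

theorem uf_succ {c : ℕ} {V : ℕ → Type} [∀ M, Fintype (V M)] {G : ∀ M, SimpleGraph (V M)}
    {p : ∀ M, V M → ℕ} (h : UF c V G p) :
    UF (c + 1) (fun M => V M ⊕ ((V M → Bool) × Fin M)) (fun M => extG (G M) M)
      (fun M => Sum.elim (p M) (fun _ => c)) where
  lt := by
    rintro M (v | S)
    · have := h.lt M v
      simp only [Sum.elim_inl]; omega
    · simp
  proper := by
    rintro M (u | S) (v | T) hadj
    · exact h.proper M u v hadj
    · have := h.lt M u
      simp only [Sum.elim_inl, Sum.elim_inr]; omega
    · have := h.lt M v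
      simp only [Sum.elim_inl, Sum.elim_inr]; omega
    · exact absurd hadj id
  large := by
    intro c' hc' M
    by_cases hc : c' < c
    · refine (h.large c' hc M).trans ?_
      rw [← card_map (Function.Embedding.inl : V M ↪ V M ⊕ ((V M → Bool) × Fin M))]
      apply card_le_card
      intro x hx
      obtain ⟨v, hv, rfl⟩ := mem_map.mp hx
      exact mem_filter.mpr ⟨mem_univ _, (mem_filter.mp hv).2⟩
    · have hce : c' = c := by omega
      subst hce
      have h1 : (univ : Finset (Fin M)).card ≤ (univ.filter
          (fun v : V M ⊕ ((V M → Bool) × Fin M) => Sum.elim (p M) (fun _ => c') v = c')).card := by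
        apply card_le_card_of_injOn (fun m => Sum.inr (fun _ => true, m))
        · intro m _
          simp
        · intro a _ b _ hab
          simpa using hab
      simpa using h1
  univ := by
    intro ι _ H π hπ hH D
    set A := {i : ι // π i < c} with hA
    obtain ⟨r1, hr1⟩ := exists_exponent D (2 ^ Fintype.card A) Nat.one_le_two_pow
    set r := Fintype.card ι * r1 + 1 with hr
    have hr0 : 0 < r := by omega
    let H' : SimpleGraph (Fin r × A) :=
      { Adj := fun a b => a.1 = b.1 ∧ H.Adj a.2.1 b.2.1
        symm := by constructor; intro a b hab; exact ⟨hab.1.symm, hab.2.symm⟩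
        loopless := by constructor; intro a hab; exact H.loopless.irrefl _ hab.2 }
    obtain ⟨M0, hM0⟩ := h.univ (Fin r × A) H' (fun a => π a.2.1) (fun a => a.2.2)
      (fun a b hab => hH _ _ hab.2) (2 * r * D)
    refine ⟨max M0 (r * D + 1), ?_⟩
    intro M hM W hW1 hW2 hW3
    have hMM0 : M0 ≤ M := (le_max_left _ _).trans hM
    have hMr : r * D + 1 ≤ M := (le_max_right _ _).trans hM
    -- the parts of `W` in the old graph
    let Wv : ι → Finset (V M) := fun i => univ.filter (fun v => Sum.inl v ∈ W i)
    have hWv : ∀ i, π i < c → (W i).card = (Wv i).card := by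
      intro i hi
      rw [← card_map (Function.Embedding.inl : V M ↪ V M ⊕ ((V M → Bool) × Fin M))]
      congr 1
      ext x
      rw [mem_map]
      constructor
      · intro hx
        rcases x with v | S
        · exact ⟨v, mem_filter.mpr ⟨mem_univ _, hx⟩, rfl⟩
        · have := hW1 i _ hx
          simp only [Sum.elim_inr] at this
          omega
      · rintro ⟨v, hv, rfl⟩
        exact (mem_filter.mp hv).2
    have hpart : ∀ i, π i < c → (univ.filter (fun v => p M v = π i)).card ≤
        D * (Wv i).card := by
      intro i hi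
      rw [← hWv i hi]
      refine le_trans ?_ (hW2 i)
      rw [← card_map (Function.Embedding.inl : V M ↪ V M ⊕ ((V M → Bool) × Fin M))]
      apply card_le_card
      intro x hx
      obtain ⟨v, hv, rfl⟩ := mem_map.mp hx
      exact mem_filter.mpr ⟨mem_univ _, (mem_filter.mp hv).2⟩
    -- pieces
    have hpc : ∀ i : ι, ∃ Y : ℕ → Finset (V M),
        (∀ s < r, Y s ⊆ Wv i ∧ (Y s).card = (Wv i).card / r) ∧
        ∀ s s', s < r → s' < r → s ≠ s' → Disjoint (Y s) (Y s') := by
      intro i
      apply pieces
      exact Nat.mul_div_le _ _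
    choose Y hY1 hY2 using hpc
    obtain ⟨f, hf1, hf2⟩ := hM0 M hMM0 (fun a => Y a.2.1 a.1.val) (by
        rintro ⟨s, i⟩ v hv
        have h1 := (hY1 i.1 s.val s.2).1 hv
        have h2 := (mem_filter.mp h1).2
        exact hW1 _ _ h2) (by
        rintro ⟨s, i⟩
        show _ ≤ 2 * r * D * (Y i.1 s.val).card
        rw [(hY1 i.1 s.val s.2).2]
        have h1 := hpart i.1 i.2
        have h2 := h.large (π i.1) i.2 M
        set x := (Wv i.1).card with hx
        have h3 : r * D + 1 ≤ D * x := by omega
        have h4 : r < x := by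
          by_contra h5
          have : D * x ≤ D * r := Nat.mul_le_mul_left _ (by omega)
          nlinarith
        have h5 : 1 ≤ x / r := (Nat.one_le_div_iff hr0).mpr h4.le
        have h6 : x ≤ 2 * r * (x / r) := by
          have h7 := Nat.div_add_mod x r
          have h8 := Nat.mod_lt x hr0
          have h9 : r ≤ r * (x / r) := Nat.le_mul_of_pos_right r h5
          nlinarith
        calc (univ.filter (fun v => p M v = π i.1)).card ≤ D * x := h1
          _ ≤ D * (2 * r * (x / r)) := Nat.mul_le_mul_left _ h6
          _ = 2 * r * D * (x / r) := by ring) (by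
        rintro ⟨s, i⟩ ⟨s', i'⟩ hne
        show Disjoint (Y i.1 s.val) (Y i'.1 s'.val)
        by_cases hi : i = i'
        · subst hi
          apply hY2 _ _ _ s.2 s'.2
          intro h1
          exact hne (Prod.ext (Fin.ext h1) rfl)
        · have h1 := hW3 i.1 i'.1 (fun h2 => hi (Subtype.ext h2))
          rw [disjoint_left]
          intro v hv hv'
          have h2 := (mem_filter.mp ((hY1 i.1 s.val s.2).1 hv)).2
          have h3 := (mem_filter.mp ((hY1 i'.1 s'.val s'.2).1 hv')).2
          exact (disjoint_left.mp h1) h2 h3)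
    have hfinj : ∀ (s : Fin r) (i : A) (s' : Fin r) (i' : A), f (s, i) = f (s', i') →
        s = s' ∧ i = i' := by
      intro s i s' i' heq
      have h1 := hf1 (s, i)
      have h2 := hf1 (s', i')
      rw [heq] at h1
      by_contra hne
      by_cases hi : i = i'
      · subst hi
        have hs : s.val ≠ s'.val := fun h3 => hne ⟨Fin.ext h3, rfl⟩
        exact (disjoint_left.mp (hY2 i.1 s.val s'.val s.2 s'.2 hs)) h1 h2
      · have h3 := hW3 i.1 i'.1 (fun h2 => hi (Subtype.ext h2))
        have h4 := (mem_filter.mp ((hY1 i.1 s.val s.2).1 h1)).2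
        have h5 := (mem_filter.mp ((hY1 i'.1 s'.val s'.2).1 h2)).2
        exact (disjoint_left.mp h3) h4 h5
    -- bad indices
    let good : Fin r → ι → Prop := fun s w => ∃ T : (V M → Bool) × Fin M, Sum.inr T ∈ W w ∧
      ∀ i : A, T.1 (f (s, i)) = decide (H.Adj i.1 w)
    have hbad : ∀ w, π w = c → (univ.filter (fun s => ¬ good s w)).card < r1 := by
      intro w hw
      by_contra hge
      obtain ⟨R, hR1, hR2⟩ := exists_subset_card_eq (not_lt.mp hge)
      have h1 := count_avoid (fun s i => f (s, i)) hfinj (fun i => decide (H.Adj i.1 w)) R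
      set X := univ.filter (fun S : V M → Bool => ∀ s ∈ R, ∃ i : A,
        S (f (s, i)) ≠ decide (H.Adj i.1 w)) with hX
      have h2 : (W w).card ≤ X.card * M := by
        have h3 : W w ⊆ (X ×ˢ (univ : Finset (Fin M))).map
            (Function.Embedding.inr : (V M → Bool) × Fin M ↪ V M ⊕ ((V M → Bool) × Fin M)) := by
          intro x hx
          rcases x with v | T
          · have h4 := hW1 w _ hx
            simp only [Sum.elim_inl] at h4
            have h5 := h.lt M v
            omega
          · refine mem_map.mpr ⟨T, mem_product.mpr ⟨mem_filter.mpr ⟨mem_univ _, ?_⟩, mem_univ _⟩, rfl⟩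
            intro s hs
            have h4 := (mem_filter.mp (hR1 hs)).2
            by_contra h5
            apply h4
            refine ⟨T, hx, ?_⟩
            intro i
            by_contra h6
            exact h5 ⟨i, h6⟩
        refine (card_le_card h3).trans ?_
        rw [card_map, card_product, card_univ, Fintype.card_fin]
      have h3 : 2 ^ Fintype.card (V M) * M ≤ D * (W w).card := by
        refine le_trans ?_ (hW2 w)
        have h4 : 2 ^ Fintype.card (V M) * M =
            ((univ : Finset ((V M → Bool) × Fin M)).map
            (Function.Embedding.inr : (V M → Bool) × Fin M ↪ V M ⊕ ((V M → Bool) × Fin M))).card := by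
          rw [card_map, card_univ, Fintype.card_prod, Fintype.card_fun, Fintype.card_bool,
            Fintype.card_fin]
        rw [h4]
        apply card_le_card
        intro x hx
        obtain ⟨T, _, rfl⟩ := mem_map.mp hx
        exact mem_filter.mpr ⟨mem_univ _, hw.symm⟩
      have h4 : 2 ^ Fintype.card (V M) ≤ D * X.card := by
        have h5 : 2 ^ Fintype.card (V M) * M ≤ (D * X.card) * M := by
          refine h3.trans ?_
          rw [mul_assoc]
          exact Nat.mul_le_mul_left _ h2
        exact Nat.le_of_mul_le_mul_right h5 (by omega)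
      rw [hR2] at h1
      have h5 : 2 ^ Fintype.card (V M) * (2 ^ Fintype.card A) ^ r1 ≤
          2 ^ Fintype.card (V M) * (D * (2 ^ Fintype.card A - 1) ^ r1) := by
        calc 2 ^ Fintype.card (V M) * (2 ^ Fintype.card A) ^ r1
            ≤ (D * X.card) * (2 ^ Fintype.card A) ^ r1 := Nat.mul_le_mul_right _ h4
          _ = D * (X.card * (2 ^ Fintype.card A) ^ r1) := by ring
          _ = D * (2 ^ Fintype.card (V M) * (2 ^ Fintype.card A - 1) ^ r1) := by rw [h1]
          _ = _ := by ring
      have h6 := Nat.le_of_mul_le_mul_left h5 (by positivity)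
      omega
    -- a good index
    obtain ⟨s, hs⟩ : ∃ s : Fin r, ∀ w, π w = c → good s w := by
      by_contra hno
      have h1 : ∀ s : Fin r, ∃ w, π w = c ∧ ¬ good s w := by
        intro s
        by_contra h2
        exact hno ⟨s, fun w hw => by
          by_contra h3
          exact h2 ⟨w, hw, h3⟩⟩
      have h2 : (univ : Finset (Fin r)) ⊆ (univ.filter (fun w => π w = c)).biUnion
          (fun w => univ.filter (fun s => ¬ good s w)) := by
        intro s _
        obtain ⟨w, hw1, hw2⟩ := h1 s
        exact mem_biUnion.mpr ⟨w, mem_filter.mpr ⟨mem_univ _, hw1⟩,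
          mem_filter.mpr ⟨mem_univ _, hw2⟩⟩
      have h3 := (card_le_card h2).trans card_biUnion_le
      have h4 : ∑ w ∈ univ.filter (fun w => π w = c),
          (univ.filter (fun s => ¬ good s w)).card ≤ Fintype.card ι * r1 := by
        calc ∑ w ∈ univ.filter (fun w => π w = c), (univ.filter (fun s => ¬ good s w)).card
            ≤ ∑ w ∈ univ.filter (fun w => π w = c), r1 :=
              sum_le_sum (fun w hw => (hbad w (mem_filter.mp hw).2).le)
          _ = (univ.filter (fun w => π w = c)).card * r1 := by rw [sum_const, smul_eq_mul]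
          _ ≤ Fintype.card ι * r1 := Nat.mul_le_mul_right _ (card_le_univ _)
      rw [card_univ, Fintype.card_fin] at h3
      omega
    have hs' : ∀ w, ∃ T : (V M → Bool) × Fin M, π w = c → Sum.inr T ∈ W w ∧
        ∀ i : A, T.1 (f (s, i)) = decide (H.Adj i.1 w) := by
      intro w
      by_cases hw : π w = c
      · obtain ⟨T, hT⟩ := hs w hw
        exact ⟨T, fun _ => hT⟩
      · exact ⟨(fun _ => true, ⟨0, by omega⟩), fun h1 => absurd h1 hw⟩
    choose T hT using hs'
    refine ⟨fun i => if hi : π i < c then Sum.inl (f (s, ⟨i, hi⟩)) else Sum.inr (T i), ?_, ?_⟩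
    · intro i
      by_cases hi : π i < c
      · simp only [dif_pos hi]
        have h1 := hf1 (s, ⟨i, hi⟩)
        exact (mem_filter.mp ((hY1 i s.val s.2).1 h1)).2
      · simp only [dif_neg hi]
        exact (hT i (by have := hπ i; omega)).1
    · intro i j
      by_cases hi : π i < c
      · by_cases hj : π j < c
        · simp only [dif_pos hi, dif_pos hj]
          have h1 := hf2 (s, ⟨i, hi⟩) (s, ⟨j, hj⟩)
          constructor
          · intro h2
            exact (h1.mp h2).2
          · intro h2
            exact h1.mpr ⟨rfl, h2⟩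
        · simp only [dif_pos hi, dif_neg hj]
          have h1 := (hT j (by have := hπ j; omega)).2 ⟨i, hi⟩
          show (T j).1 (f (s, ⟨i, hi⟩)) = true ↔ _
          rw [h1, decide_eq_true_iff]
      · by_cases hj : π j < c
        · simp only [dif_neg hi, dif_pos hj]
          have h1 := (hT i (by have := hπ i; omega)).2 ⟨j, hj⟩
          show (T i).1 (f (s, ⟨j, hj⟩)) = true ↔ _
          rw [h1, decide_eq_true_iff]
          exact H.adj_comm _ _
        · simp only [dif_neg hi, dif_neg hj]
          constructor
          · intro h1; exact absurd h1 id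
          · intro h1
            have h2 := hH i j h1
            have h3 := hπ i
            have h4 := hπ j
            omega

theorem exists_uf (c : ℕ) : ∃ (V : ℕ → Type) (_ : ∀ M, Fintype (V M)) (G : ∀ M, SimpleGraph (V M))
    (p : ∀ M, V M → ℕ), UF c V G p := by
  induction c with
  | zero => exact ⟨_, _, _, _, uf_zero⟩
  | succ c ih =>
    obtain ⟨V, inst, G, p, h⟩ := ih
    exact ⟨_, _, _, _, uf_succ h⟩

end Pool.Agent.X81.CircObs
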