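import Mathlib
import Pool.Agent.X81.UniversalParts

set_option autoImplicit false

open Classical Finset

namespace Pool.Agent.X81.CircObs

/-- greedy ordering of the parts -/
lemma greedy (k : ℕ) : ∀ (s : Finset ℕ), s.card = k → ∀ a : ℕ → ℕ → ℕ,
    ∃ π : ℕ → ℕ, (∀ b < k, π b ∈ s) ∧
      ∀ b b', b < b' → b' < k → π b ≠ π b' ∧ a (π b) b ≤ a (π b') b := by
  induction k with
  | zero => intro s _ a; exact ⟨id, fun b hb => absurd hb (by omega), fun b b' _ hb => absurd hb (by omega)⟩
  | succ k ih =>
    intro s hs a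
    have hne : s.Nonempty := card_pos.mp (by omega)
    obtain ⟨c0, hc0, hmin⟩ := exists_min_image s (fun c => a c 0) hne
    obtain ⟨π, hπ1, hπ2⟩ := ih (s.erase c0) (by rw [card_erase_of_mem hc0]; omega)
      (fun c b => a c (b + 1))
    refine ⟨fun b => match b with | 0 => c0 | b + 1 => π b, ?_, ?_⟩
    · intro b hb
      rcases b with _ | b
      · exact hc0
      · exact (mem_erase.mp (hπ1 b (by omega))).2
    · intro b b' hbb hb
      rcases b' with _ | b'
      · omega
      · rcases b with _ | b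
        · have h1 := mem_erase.mp (hπ1 b' (by omega))
          exact ⟨h1.1.symm, hmin _ h1.2⟩
        · exact hπ2 b b' (by omega) (by omega)

/-- Every ordering of a universal `k`-partite graph contains every pattern with consecutive blocks
of size `q`. -/
theorem ordered_copy (k q : ℕ) (hk : 1 ≤ k) (hq : 1 ≤ q) {V : ℕ → Type} [∀ M, Fintype (V M)]
    {G : ∀ M, SimpleGraph (V M)} {p : ∀ M, V M → ℕ} (h : UF k V G p)
    (Q : SimpleGraph (Fin (k * q))) (hQ : ∀ i j, Q.Adj i j → i.val / q ≠ j.val / q) :
    ∃ M, ∀ pos : V M → ℕ, Function.Injective pos → ∃ f : Fin (k * q) → V M,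
      (∀ i j, i < j → pos (f i) < pos (f j)) ∧ ∀ i j, (G M).Adj (f i) (f j) ↔ Q.Adj i j := by
  have hL : 0 < k * q := Nat.mul_pos hk hq
  have hblk : ∀ i : Fin (k * q), i.val / q < k := fun i => by
    rw [Nat.div_lt_iff_lt_mul hq]; exact i.2
  have key : ∀ π : Fin k → Fin k, ∃ M0, Function.Injective π → ∀ M, M0 ≤ M →
      ∀ W : Fin (k * q) → Finset (V M),
      (∀ i, ∀ v ∈ W i, p M v = (π ⟨i.val / q, hblk i⟩).val) →
      (∀ i, (univ.filter (fun v => p M v = (π ⟨i.val / q, hblk i⟩).val)).card ≤
        2 * (k * q) * (W i).card) →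
      (∀ i j, i ≠ j → Disjoint (W i) (W j)) →
      ∃ f : Fin (k * q) → V M, (∀ i, f i ∈ W i) ∧ ∀ i j, (G M).Adj (f i) (f j) ↔ Q.Adj i j := by
    intro π
    by_cases hπ : Function.Injective π
    · obtain ⟨M0, hM0⟩ := h.univ (Fin (k * q)) Q (fun i => (π ⟨i.val / q, hblk i⟩).val)
        (fun i => (π _).2) (by
          intro i j hij heq
          have h1 := hπ (Fin.ext heq)
          exact hQ i j hij (Fin.mk.inj h1)) (2 * (k * q))
      exact ⟨M0, fun _ => hM0⟩
    · exact ⟨0, fun h1 => absurd h1 hπ⟩
  choose M0 hM0 using key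
  refine ⟨univ.sup M0 + k * q, ?_⟩
  set M := univ.sup M0 + k * q with hM
  intro pos hpos
  -- positions of the parts
  let pr : ℕ → ℕ → Prop := fun c x => ∃ v : V M, p M v = c ∧ pos v = x
  let P : ℕ → ℕ := fun c => (univ.filter (fun v => p M v = c)).card
  have hfin : ∀ c, (Set.ofPred (pr c)).Finite := by
    intro c
    apply Set.Finite.subset (Set.finite_range pos)
    rintro x ⟨v, _, rfl⟩
    exact ⟨v, rfl⟩
  have hcard : ∀ c (hf : (Set.ofPred (pr c)).Finite), hf.toFinset.card = P c := by
    intro c hf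
    show _ = (univ.filter (fun v => p M v = c)).card
    rw [← card_image_of_injective _ hpos]
    congr 1
    ext x
    simp only [Set.Finite.mem_toFinset, mem_image, mem_filter, mem_univ, true_and]
    rfl
  have hnth1 : ∀ c i, i < P c → pr c (Nat.nth (pr c) i) := by
    intro c i hi
    apply Nat.nth_mem
    intro hf
    rw [hcard]; exact hi
  have hnth2 : ∀ c i j, i < j → j < P c → Nat.nth (pr c) i < Nat.nth (pr c) j := by
    intro c i j hij hj
    apply Nat.nth_lt_nth' hij
    intro hf
    rw [hcard]; exact hj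
  have hnth3 : ∀ c i j, i ≤ j → j < P c → Nat.nth (pr c) i ≤ Nat.nth (pr c) j := by
    intro c i j hij hj
    rcases hij.lt_or_eq with h1 | h1
    · exact (hnth2 c i j h1 hj).le
    · rw [h1]
  let s : ℕ → ℕ := fun c => P c / (k * q)
  have hsP : ∀ c, (k * q) * s c ≤ P c := fun c => Nat.mul_div_le _ _
  have hs1 : ∀ c < k, 1 ≤ s c := by
    intro c hc
    have h1 := h.large c hc M
    exact (Nat.one_le_div_iff hL).mpr (by
      have : k * q ≤ M := by omega
      exact this.trans h1)
  obtain ⟨π, hπ1, hπ2⟩ := greedy k (range k) (card_range k)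
    (fun c b => Nat.nth (pr c) ((b + 1) * q * s c - 1))
  have hπk : ∀ b < k, π b < k := fun b hb => mem_range.mp (hπ1 b hb)
  have hπinj : Function.Injective (fun b : Fin k => (⟨π b, hπk b b.2⟩ : Fin k)) := by
    intro b b' hbb
    have h1 : π b = π b' := Fin.mk.inj hbb
    by_contra hne
    rcases lt_or_gt_of_ne (fun h2 => hne (Fin.ext h2) : b.val ≠ b'.val) with h2 | h2
    · exact (hπ2 _ _ h2 b'.2).1 h1
    · exact (hπ2 _ _ h2 b.2).1 h1.symm
  let cc : Fin (k * q) → ℕ := fun i => π (i.val / q)
  have hcck : ∀ i, cc i < k := fun i => hπk _ (hblk i)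
  let W : Fin (k * q) → Finset (V M) := fun i => univ.filter (fun v => p M v = cc i ∧
    ∃ j, i.val * s (cc i) ≤ j ∧ j < (i.val + 1) * s (cc i) ∧ pos v = Nat.nth (pr (cc i)) j)
  have hidx : ∀ i : Fin (k * q), ∀ j, j < (i.val + 1) * s (cc i) → j < P (cc i) := by
    intro i j hj
    have h1 : (i.val + 1) * s (cc i) ≤ (k * q) * s (cc i) := Nat.mul_le_mul_right _ (by
      have := i.2; omega)
    have := hsP (cc i)
    omega
  have hWcard : ∀ i, s (cc i) ≤ (W i).card := by
    intro i
    have h1 : ∀ j, ∃ v : V M, j < s (cc i) → (p M v = cc i ∧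
        pos v = Nat.nth (pr (cc i)) (i.val * s (cc i) + j)) := by
      intro j
      have h0 : i.val * s (cc i) < P (cc i) := hidx i _ (by
        have := hs1 _ (hcck i)
        rw [add_mul]; omega)
      by_cases hj : j < s (cc i)
      · obtain ⟨v, hv1, hv2⟩ := hnth1 (cc i) (i.val * s (cc i) + j) (hidx i _ (by
          rw [add_mul]; omega))
        exact ⟨v, fun _ => ⟨hv1, hv2⟩⟩
      · obtain ⟨v, _⟩ := hnth1 (cc i) _ h0
        exact ⟨v, fun h2 => absurd h2 hj⟩
    choose g hg using h1
    rw [← card_range (s (cc i))]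
    apply card_le_card_of_injOn g
    · intro j hj
      have hj' : j < s (cc i) := by simpa using hj
      have h2 := hg j hj'
      refine mem_coe.mpr (mem_filter.mpr ⟨mem_univ _, h2.1, _, ?_, ?_, h2.2⟩)
      · omega
      · rw [add_mul]; omega
    · intro j hj j' hj' heq
      have hj1 : j < s (cc i) := by simpa using hj
      have hj2 : j' < s (cc i) := by simpa using hj'
      have h2 := (hg j hj1).2
      have h3 := (hg j' hj2).2
      rw [heq, h3] at h2
      by_contra hne
      rcases lt_or_gt_of_ne hne with h4 | h4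
      · have := hnth2 (cc i) (i.val * s (cc i) + j) (i.val * s (cc i) + j') (by omega)
          (hidx i _ (by rw [add_mul]; omega))
        omega
      · have := hnth2 (cc i) (i.val * s (cc i) + j') (i.val * s (cc i) + j) (by omega)
          (hidx i _ (by rw [add_mul]; omega))
        omega
  have hWord : ∀ i j : Fin (k * q), i < j → ∀ v ∈ W i, ∀ w ∈ W j, pos v < pos w := by
    intro i j hij v hv w hw
    obtain ⟨_, _, x, hx1, hx2, hx3⟩ := mem_filter.mp hv
    obtain ⟨_, _, y, hy1, hy2, hy3⟩ := mem_filter.mp hw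
    have hij' : i.val < j.val := hij
    rw [hx3, hy3]
    by_cases hb : i.val / q = j.val / q
    · have hc : cc i = cc j := by
        show π (i.val / q) = π (j.val / q)
        rw [hb]
      rw [hc] at hx1 hx2 ⊢
      have h1 : (i.val + 1) * s (cc j) ≤ j.val * s (cc j) := Nat.mul_le_mul_right _ hij'
      exact hnth2 _ _ _ (by omega) (hidx j y hy2)
    · have hlt : i.val / q < j.val / q :=
        lt_of_le_of_ne (Nat.div_le_div_right hij'.le) hb
      set b := i.val / q with hbdef
      set b' := j.val / q with hbdef'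
      have hcci : cc i = π b := rfl
      have hccj : cc j = π b' := rfl
      have hb'k : b' < k := hblk j
      have hbk : b < k := by omega
      have h1 : Nat.nth (pr (π b)) ((b + 1) * q * s (π b) - 1) ≤
          Nat.nth (pr (π b')) ((b + 1) * q * s (π b') - 1) := (hπ2 b b' hlt hb'k).2
      have h2 : i.val + 1 ≤ (b + 1) * q := by
        have h0 : i.val < q * (b + 1) := Nat.lt_mul_div_succ i.val hq
        calc i.val + 1 ≤ q * (b + 1) := h0
          _ = (b + 1) * q := mul_comm _ _
      have h3 : (b + 1) * q ≤ j.val := by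
        have h4 : b' * q ≤ j.val := Nat.div_mul_le_self _ _
        exact (Nat.mul_le_mul_right _ hlt).trans h4
      have hbq : (b + 1) * q ≤ k * q := Nat.mul_le_mul_right _ hbk
      rw [hcci] at hx1 hx2 ⊢
      rw [hccj] at hy1 hy2 ⊢
      have h5 : (i.val + 1) * s (π b) ≤ (b + 1) * q * s (π b) := Nat.mul_le_mul_right _ h2
      have h6 : (b + 1) * q * s (π b') ≤ j.val * s (π b') := Nat.mul_le_mul_right _ h3
      have h7 : (b + 1) * q * s (π b) ≤ P (π b) :=
        (Nat.mul_le_mul_right _ hbq).trans (hsP _)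
      have h8 : 1 ≤ (b + 1) * q * s (π b) :=
        Nat.mul_pos (Nat.mul_pos (Nat.succ_pos _) hq) (hs1 _ (hπk b hbk))
      have h9 : 1 ≤ (b + 1) * q * s (π b') :=
        Nat.mul_pos (Nat.mul_pos (Nat.succ_pos _) hq) (hs1 _ (hπk b' hb'k))
      have hyP : y < P (π b') := hidx j y hy2
      calc Nat.nth (pr (π b)) x ≤ Nat.nth (pr (π b)) ((b + 1) * q * s (π b) - 1) :=
            hnth3 _ _ _ (by omega) (by omega)
        _ ≤ Nat.nth (pr (π b')) ((b + 1) * q * s (π b') - 1) := h1
        _ < Nat.nth (pr (π b')) y := hnth2 _ _ _ (by omega) hyP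
  obtain ⟨f, hf1, hf2⟩ := hM0 (fun b : Fin k => (⟨π b, hπk b b.2⟩ : Fin k)) hπinj M
    ((le_sup (mem_univ _)).trans (Nat.le_add_right _ _)) W
    (by
      intro i v hv
      exact (mem_filter.mp hv).2.1)
    (by
      intro i
      show P (cc i) ≤ _
      have h1 := hWcard i
      have h2 : P (cc i) ≤ 2 * (k * q) * s (cc i) := by
        have h3 := Nat.div_add_mod (P (cc i)) (k * q)
        have h4 := Nat.mod_lt (P (cc i)) hL
        have h5 : k * q ≤ (k * q) * s (cc i) := Nat.le_mul_of_pos_right _ (hs1 _ (hcck i))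
        have h6 : (k * q) * (P (cc i) / (k * q)) = (k * q) * s (cc i) := rfl
        have h7 : 2 * (k * q) * s (cc i) = (k * q) * s (cc i) + (k * q) * s (cc i) := by ring
        omega
      exact h2.trans (Nat.mul_le_mul_left _ h1))
    (by
      intro i j hij
      rw [disjoint_left]
      intro v hv hw
      rcases lt_or_gt_of_ne hij with h1 | h1
      · exact absurd (hWord i j h1 v hv v hw) (lt_irrefl _)
      · exact absurd (hWord j i h1 v hw v hv) (lt_irrefl _))
  exact ⟨f, fun i j hij => hWord i j hij _ (hf1 i) _ (hf1 j), hf2⟩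

/-! ### The circular clique `K_{(kq+1)/q}` -/

/-- adjacency in the circular clique -/
def AdjN (n q x y : ℕ) : Prop := (x + q ≤ y ∧ y + q ≤ n + x) ∨ (y + q ≤ x ∧ x + q ≤ n + y)

/-- The circular clique `K_{n/q}` -/
def KC (n q : ℕ) : SimpleGraph (Fin n) where
  Adj i j := i ≠ j ∧ AdjN n q i.val j.val
  symm := by
    constructor
    rintro i j ⟨h1, h2⟩
    exact ⟨h1.symm, h2.symm⟩
  loopless := by
    constructor
    rintro i ⟨h1, _⟩
    exact h1 rfl

/-- the three positions are met in this cyclic order -/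
def CycRel (x y z : ℕ) : Prop := (x < y ∧ y < z) ∨ (y < z ∧ z < x) ∨ (z < x ∧ x < y)

/-- rotation -/
def rot (n r x : ℕ) : ℕ := if x + r < n then x + r else x + r - n

lemma rot_lt {n r x : ℕ} (hx : x < n) (hr : r < n) : rot n r x < n := by
  unfold rot; split_ifs <;> omega

lemma rot_adj {n r q x y : ℕ} (hx : x < n) (hy : y < n) :
    AdjN n q (rot n r x) (rot n r y) ↔ AdjN n q x y := by
  unfold rot AdjN
  split_ifs <;> omega

lemma rot_cyc {n r x y z : ℕ} (hx : x < n) (hy : y < n) (hz : z < n) :
    CycRel (rot n r x) (rot n r y) (rot n r z) ↔ CycRel x y z := by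
  unfold rot CycRel
  split_ifs <;> omega

lemma rot_inj {n r x y : ℕ} (hx : x < n) (hy : y < n) (h : rot n r x = rot n r y) :
    x = y := by
  unfold rot at h
  split_ifs at h <;> omega

lemma adj_shift {n q x d : ℕ} (hx : x < n) (hd : q ≤ d) (hd2 : d + q ≤ n) :
    AdjN n q x ((x + d) % n) := by
  unfold AdjN
  have hn : d ≤ n := by omega
  by_cases h : x + d < n
  · rw [Nat.mod_eq_of_lt h]; omega
  · rw [Nat.mod_eq_sub_mod (by omega)]
    rw [Nat.mod_eq_of_lt (by omega)]
    omega

/-- The circular clique `K_{(kq+1)/q}` is not `k`-colourable for `k ≥ 2`. -/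
theorem kc_not_colorable (k q : ℕ) (hk : 2 ≤ k) (hq : 1 ≤ q) :
    ¬ (KC (k * q + 1) q).Colorable k := by
  rintro ⟨C⟩
  set n := k * q + 1 with hn
  have hkq : 2 * q ≤ k * q := Nat.mul_le_mul_right _ hk
  -- one step back keeps the colour
  have step : ∀ v : ℕ, ∀ hv : v + 1 < n, C ⟨v + 1, hv⟩ = C ⟨v, by omega⟩ := by
    intro v hv
    have hnpos : 0 < n := by omega
    let g : Fin (k + 1) → Fin n := fun i => ⟨(v + 1 + i.val * q) % n, Nat.mod_lt _ hnpos⟩
    have hadj : ∀ i j : Fin (k + 1), i < j → j.val - i.val < k → (KC n q).Adj (g i) (g j) := by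
      intro i j hij hlt
      have hij' : i.val < j.val := hij
      obtain ⟨d, hd⟩ := Nat.exists_eq_add_of_lt hij'
      have hd1 : (d + 1) * q + q ≤ n := by
        have : (d + 1) * q + q = (d + 1 + 1) * q := by ring
        rw [this]
        have h2 : (d + 1 + 1) * q ≤ k * q := Nat.mul_le_mul_right _ (by omega)
        omega
      have hd0 : q ≤ (d + 1) * q := Nat.le_mul_of_pos_left _ (by omega)
      have h1 := adj_shift (n := n) (q := q) (x := (v + 1 + i.val * q) % n) (d := (d + 1) * q)
        (Nat.mod_lt _ hnpos) hd0 hd1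
      have h2 : ((v + 1 + i.val * q) % n + (d + 1) * q) % n = (v + 1 + j.val * q) % n := by
        rw [Nat.mod_add_mod]
        congr 1
        rw [hd]; ring
      rw [h2] at h1
      refine ⟨?_, h1⟩
      intro h3
      have h4 : (v + 1 + i.val * q) % n = (v + 1 + j.val * q) % n := Fin.mk.inj h3
      rw [h4] at h1
      unfold AdjN at h1
      omega
    -- pigeonhole
    obtain ⟨i, j, hne, heq⟩ := Fintype.exists_ne_map_eq_of_card_lt (fun i => C (g i))
      (by simp)
    wlog hlt : i < j generalizing i j with H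
    · exact H j i hne.symm heq.symm (lt_of_le_of_ne (not_lt.mp hlt) hne.symm)
    have hlt' : i.val < j.val := hlt
    have hj := j.2
    by_cases h1 : j.val - i.val < k
    · exact absurd heq (C.valid (hadj i j hlt h1))
    · have hi0 : i.val = 0 := by omega
      have hjk : j.val = k := by omega
      have e1 : g i = ⟨v + 1, hv⟩ := by
        apply Fin.ext
        show (v + 1 + i.val * q) % n = v + 1
        rw [hi0, zero_mul, add_zero]
        exact Nat.mod_eq_of_lt hv
      have e2 : g j = ⟨v, by omega⟩ := by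
        apply Fin.ext
        show (v + 1 + j.val * q) % n = v
        rw [hjk]
        have : v + 1 + k * q = v + n := by omega
        rw [this, Nat.add_mod_right]
        exact Nat.mod_eq_of_lt (by omega)
      simp only [e1, e2] at heq
      exact heq
  have hall : ∀ v : ℕ, ∀ hv : v < n, C ⟨v, hv⟩ = C ⟨0, by omega⟩ := by
    intro v
    induction v with
    | zero => intro _; rfl
    | succ v ih =>
      intro hv
      rw [step v hv]
      exact ih (by omega)
  have h1 : (KC n q).Adj ⟨0, by omega⟩ ⟨q, by omega⟩ := by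
    refine ⟨?_, ?_⟩
    · intro h2
      have : 0 = q := Fin.mk.inj h2
      omega
    · unfold AdjN
      simp only
      omega
  exact C.valid h1 (hall q (by omega)).symm

end Pool.Agent.X81.CircObs
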