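import Mathlib.Combinatorics.SimpleGraph.Metric
import Mathlib.SetTheory.Cardinal.Finite
import Mathlib.Data.Fintype.Option

/-!
# Cubic Halin graphs and t-tone colourings

A plane tree all of whose inner vertices have degree three, rooted at one of its leaves, is an
ordered binary tree below that leaf. `halin t` is the graph made of this tree and of the cycle
through its leaves in their cyclic order.
-/

namespace Pool.Agent.X81.HalinTone

/-- Ordered (plane) binary trees. -/
inductive PTree : Type
  | leaf : PTree
  | node : PTree → PTree → PTree

namespace PTree

/-- The vertices of an ordered binary tree: a leaf is a single vertex, and a tree with subtrees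
`l` and `r` has its root `none`, the vertices of `l` and the vertices of `r`. -/
def Vert : PTree → Type
  | .leaf => Unit
  | .node l r => Option (l.Vert ⊕ r.Vert)

/-- The vertices of the left subtree. -/
def inL {l r : PTree} (v : l.Vert) : (PTree.node l r).Vert := some (.inl v)

/-- The vertices of the right subtree. -/
def inR {l r : PTree} (v : r.Vert) : (PTree.node l r).Vert := some (.inr v)

/-- The root vertex. -/
def root : (t : PTree) → t.Vert
  | .leaf => ()
  | .node _ _ => none

/-- `Child u v`: the vertex `v` is a child of the vertex `u`. -/
def Child : (t : PTree) → t.Vert → t.Vert → Prop
  | .leaf, _, _ => False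
  | .node l _, none, some (.inl v) => v = l.root
  | .node _ r, none, some (.inr v) => v = r.root
  | .node l _, some (.inl u), some (.inl v) => l.Child u v
  | .node _ r, some (.inr u), some (.inr v) => r.Child u v
  | .node _ _, _, none => False
  | .node _ _, some (.inl _), some (.inr _) => False
  | .node _ _, some (.inr _), some (.inl _) => False

/-- The leaves from left to right. -/
def leaves : (t : PTree) → List t.Vert
  | .leaf => [()]
  | .node l r => l.leaves.map inL ++ r.leaves.map inR

/-- The closed tour of the outer cycle: the extra leaf `none`, then the leaves of `t` from left
to right, then `none` again. -/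
def rim (t : PTree) : List (Option t.Vert) := none :: (t.leaves.map some ++ [none])

/-- The Halin graph of `t`: its plane tree is `t` together with one further leaf `none` attached
to the root of `t`, and its outer cycle runs through the leaves in their order. -/
def halin (t : PTree) : SimpleGraph (Option t.Vert) :=
  SimpleGraph.fromRel fun u v =>
    (u = none ∧ v = some t.root) ∨ (∃ a b, u = some a ∧ v = some b ∧ t.Child a b) ∨
      [u, v] <:+: t.rim

end PTree

/-- `G` is `t`-tone `k`-colourable: its vertices can be given `t`-element sets of `k` colours
such that any two distinct vertices share fewer colours than their distance. -/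
def ToneColourable {V : Type*} (G : SimpleGraph V) (t k : ℕ) : Prop :=
  ∃ f : V → Finset (Fin k), (∀ v, (f v).card = t) ∧
    ∀ u v, u ≠ v → (((f u ∩ f v).card : ℕ) : ℕ∞) < G.edist u v

end Pool.Agent.X81.HalinTone
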