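import Mathlib.Data.Fintype.Basic
import Mathlib.Data.Finset.Card
import Pool.Agent.X81.HalinDef
import Pool.Agent.X81.HalinData

/-!
# Boundary states of ordered binary trees: the kernel check
-/

namespace Pool.Agent.X81.HalinTone

open Pool.Agent.X81.HalinData

/-- Labels: the fifteen pairs of colours. -/
abbrev Lab := Fin 15

/-- Disjointness of labels. -/
def D (a b : Lab) : Bool := Nat.testBit dtab (15 * a.val + b.val)

/-- The colour set of a label. -/
def col (a : Lab) : Finset (Fin 6) :=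
  Finset.univ.filter fun i => Nat.testBit mtab (6 * a.val + i.val) = true

/-- The action of a transposition (or the identity) on labels. -/
def act (t : Fin 16) (a : Lab) : Lab := Fin.ofNat 15 ((atab >>> (4 * (15 * t.val + a.val))) % 16)

theorem card_col : ∀ a : Lab, (col a).card = 2 := by decide +kernel

theorem disjoint_col : ∀ a b : Lab, D a b = true → (col a ∩ col b).card = 0 := by decide +kernel

theorem card_inter_col : ∀ a b : Lab, a ≠ b → (col a ∩ col b).card ≤ 1 := by decide +kernel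

theorem D_symm : ∀ a b : Lab, D a b = D b a := by decide +kernel

theorem D_act : ∀ (t : Fin 16) (a b : Lab), D (act t a) (act t b) = D a b := by decide +kernel

theorem act_act : ∀ (t : Fin 16) (a : Lab), act t (act t a) = a := by decide +kernel

theorem act_inj (t : Fin 16) {a b : Lab} (h : act t a = act t b) : a = b := by
  rw [← act_act t a, h, act_act]

/-- `Real t r p x a y b`: the tree `t` has a colouring in which the root gets `r` and its parent
`p`, the leftmost leaf gets `x` and its left neighbour `a`, the rightmost leaf gets `y` and its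
right neighbour `b`. -/
def Real : PTree → Lab → Lab → Lab → Lab → Lab → Lab → Prop
  | .leaf, r, p, x, a, y, b =>
      x = r ∧ y = r ∧ D r p = true ∧ D r a = true ∧ D r b = true ∧ p ≠ a ∧ p ≠ b ∧ a ≠ b
  | .node l k, r, p, x, a, y, b =>
      D r p = true ∧ ∃ r₁ r₂ u v, r₁ ≠ r₂ ∧ r₁ ≠ p ∧ r₂ ≠ p ∧
        Real l r₁ r x a u v ∧ Real k r₂ r v u y b

theorem Real.act (t : Fin 16) : ∀ (T : PTree) (r p x a y b : Lab), Real T r p x a y b →
    Real T (act t r) (act t p) (act t x) (act t a) (act t y) (act t b)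
  | .leaf, r, p, x, a, y, b, h => by
      obtain ⟨rfl, h2, h3, h4, h5, h6, h7, h8⟩ := h
      subst h2
      refine ⟨rfl, rfl, by rw [D_act, h3], by rw [D_act, h4], by rw [D_act, h5],
        fun h => h6 (act_inj t h), fun h => h7 (act_inj t h), fun h => h8 (act_inj t h)⟩
  | .node l k, r, p, x, a, y, b, h => by
      obtain ⟨h1, r₁, r₂, u, v, h2, h3, h4, h5, h6⟩ := h
      refine ⟨by rw [D_act, h1], _, _, _, _, fun h => h2 (act_inj t h), fun h => h3 (act_inj t h),
        fun h => h4 (act_inj t h), Real.act t l _ _ _ _ _ _ h5, Real.act t k _ _ _ _ _ _ h6⟩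

/-- Nibble `i` of `w`. -/
def nib (w i : ℕ) : Fin 16 := Fin.ofNat 16 (w >>> (4 * i))

/-- The action of a packed word of five transpositions. -/
def actW (w : ℕ) (a : Lab) : Lab :=
  act (nib w 4) (act (nib w 3) (act (nib w 2) (act (nib w 1) (act (nib w 0) a))))

/-- Component `i` of a packed state. -/
def lab (s i : ℕ) : Lab := Fin.ofNat 15 ((s >>> (4 * i)) % 16)

/-- A packed state is realised. -/
def RealS (T : PTree) (s : ℕ) : Prop :=
  Real T (lab s 0) (lab s 1) (lab s 2) (lab s 3) (lab s 4) (lab s 5)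

theorem RealS.actW {T : PTree} {s : ℕ} (h : RealS T s) (w : ℕ) :
    Real T (actW w (lab s 0)) (actW w (lab s 1)) (actW w (lab s 2)) (actW w (lab s 3))
      (actW w (lab s 4)) (actW w (lab s 5)) := by
  unfold HalinTone.actW
  exact Real.act _ _ _ _ _ _ _ _ (Real.act _ _ _ _ _ _ _ _ (Real.act _ _ _ _ _ _ _ _
    (Real.act _ _ _ _ _ _ _ _ (Real.act _ _ _ _ _ _ _ _ h))))

/-- The families. -/
def famL (i : ℕ) : List ℕ := fam.getD i []

/-- The check of one decomposition. -/
def chk1 (s s₁ w₁ s₂ w₂ : ℕ) : Bool :=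
  D (lab s 0) (lab s 1) &&
  (actW w₁ (lab s₁ 1) == lab s 0) && (actW w₂ (lab s₂ 1) == lab s 0) &&
  (actW w₁ (lab s₁ 2) == lab s 2) && (actW w₁ (lab s₁ 3) == lab s 3) &&
  (actW w₂ (lab s₂ 4) == lab s 4) && (actW w₂ (lab s₂ 5) == lab s 5) &&
  (actW w₁ (lab s₁ 4) == actW w₂ (lab s₂ 3)) && (actW w₁ (lab s₁ 5) == actW w₂ (lab s₂ 2)) &&
  !(actW w₁ (lab s₁ 0) == actW w₂ (lab s₂ 0)) && !(actW w₁ (lab s₁ 0) == lab s 1) &&
  !(actW w₂ (lab s₂ 0) == lab s 1)

/-- The check of one packed witness. -/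
def chk (i j s w : ℕ) : Bool :=
  match (famL i)[w % 64]?, (famL j)[(w / 67108864) % 64]? with
  | some s₁, some s₂ => chk1 s s₁ ((w / 64) % 1048576) s₂ (w / 4294967296)
  | _, _ => false

theorem chk1_sound {l k : PTree} {s s₁ w₁ s₂ w₂ : ℕ} (h : chk1 s s₁ w₁ s₂ w₂ = true)
    (hl : RealS l s₁) (hk : RealS k s₂) : RealS (.node l k) s := by
  have h1 := hl.actW w₁
  have h2 := hk.actW w₂
  simp only [chk1, Bool.and_eq_true, beq_iff_eq, Bool.not_eq_true', beq_eq_false_iff_ne] at h
  obtain ⟨⟨⟨⟨⟨⟨⟨⟨⟨⟨⟨c0, c1⟩, c2⟩, c3⟩, c4⟩, c5⟩, c6⟩, c7⟩, c8⟩, c9⟩, c10⟩, c11⟩ := h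
  rw [c1, c3, c4] at h1
  rw [c2, c5, c6, ← c7, ← c8] at h2
  exact ⟨c0, _, _, _, _, c9, c10, c11, h1, h2⟩

theorem chk_sound {l k : PTree} {i j s w : ℕ} (h : chk i j s w = true)
    (hl : ∀ s ∈ famL i, RealS l s) (hk : ∀ s ∈ famL j, RealS k s) : RealS (.node l k) s := by
  unfold chk at h
  split at h
  · rename_i s₁ s₂ e₁ e₂
    exact chk1_sound h (hl _ (List.mem_of_getElem? e₁)) (hk _ (List.mem_of_getElem? e₂))
  · simp at h

/-- The check of a list of states against a list of witnesses. -/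
def chkL (i j : ℕ) : List ℕ → List ℕ → Bool
  | [], _ => true
  | s :: ss, w :: ws => chk i j s w && chkL i j ss ws
  | _ :: _, [] => false

theorem chkL_sound {l k : PTree} {i j : ℕ} (hl : ∀ s ∈ famL i, RealS l s)
    (hk : ∀ s ∈ famL j, RealS k s) : ∀ (ss ws : List ℕ), chkL i j ss ws = true →
    ∀ s ∈ ss, RealS (.node l k) s
  | [], _, _ => by simp
  | s :: ss, w :: ws, h => by
      rw [chkL, Bool.and_eq_true] at h
      intro s' hs'
      rcases List.mem_cons.mp hs' with rfl | h'
      · exact chk_sound h.1 hl hk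
      · exact chkL_sound hl hk ss ws h.2 s' h'
  | _ :: _, [], h => by simp [chkL] at h

/-- The target family of a pair. -/
def tgt (i j : ℕ) : ℕ := (nxt.getD i []).getD j 0

/-- The witnesses of a pair. -/
def wits (i j : ℕ) : List ℕ := (wit.getD i []).getD j []

/-- The final state and witness of a pair. -/
def finl (i j : ℕ) : ℕ × ℕ := (fin.getD i []).getD j (0, 0)

/-- The state closes up to a Halin graph. -/
def closes (s : ℕ) : Bool :=
  (lab s 3 == lab s 1) && (lab s 5 == lab s 1) && !(lab s 0 == lab s 2) &&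
  !(lab s 0 == lab s 4) && !(lab s 2 == lab s 4)

/-- All checks of a pair. -/
def chkPair (i j : ℕ) : Bool :=
  Nat.blt 0 (tgt i j) && Nat.blt (tgt i j) 15 && chkL i j (famL (tgt i j)) (wits i j) &&
    ((Nat.beq (i + j) 0) || (closes (finl i j).1 && chk i j (finl i j).1 (finl i j).2))

/-- The check that a packed state is one of a single leaf. -/
def chkLeaf (s : ℕ) : Bool :=
  (lab s 2 == lab s 0) && (lab s 4 == lab s 0) && D (lab s 0) (lab s 1) &&
  D (lab s 0) (lab s 3) && D (lab s 0) (lab s 5) && !(lab s 1 == lab s 3) &&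
  !(lab s 1 == lab s 5) && !(lab s 3 == lab s 5)

theorem leaf_ok : ∀ s ∈ famL 0, chkLeaf s = true := by decide +kernel

theorem pairs_ok : (List.range 15).all (fun i => (List.range 15).all (fun j => chkPair i j)) =
    true := by decide +kernel

end Pool.Agent.X81.HalinTone
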