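import Mathlib.Tactic
import Pool.Agent.X81.HalinCheck

/-!
# Every cubic Halin graph of order at least six is 2-tone 6-colourable
-/

set_option linter.unusedVariables false

namespace Pool.Agent.X81.HalinTone

theorem chkPair_of {i j : ℕ} (hi : i < 15) (hj : j < 15) : chkPair i j = true :=
  List.all_eq_true.mp (List.all_eq_true.mp pairs_ok i (List.mem_range.mpr hi)) j
    (List.mem_range.mpr hj)

theorem leaf_real : ∀ s ∈ famL 0, RealS .leaf s := by
  intro s hs
  have h := leaf_ok s hs
  simp only [chkLeaf, Bool.and_eq_true, beq_iff_eq, Bool.not_eq_true', beq_eq_false_iff_ne] at h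
  obtain ⟨⟨⟨⟨⟨⟨⟨h1, h2⟩, h3⟩, h4⟩, h5⟩, h6⟩, h7⟩, h8⟩ := h
  exact ⟨h1, h2, h3, h4, h5, h6, h7, h8⟩

/-- Every tree realises one of the fifteen families; only a single leaf needs family `0`. -/
theorem exists_family : ∀ T : PTree, ∃ k < 15, (k = 0 → T = .leaf) ∧ ∀ s ∈ famL k, RealS T s
  | .leaf => ⟨0, by norm_num, fun _ => rfl, leaf_real⟩
  | .node l r => by
      obtain ⟨i, hi, -, hl⟩ := exists_family l
      obtain ⟨j, hj, -, hr⟩ := exists_family r
      have h := chkPair_of hi hj
      simp only [chkPair, Bool.and_eq_true] at h
      obtain ⟨⟨⟨h1, h2⟩, h3⟩, -⟩ := h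
      have h1' : 0 < tgt i j := by simpa using h1
      have h2' : tgt i j < 15 := by simpa using h2
      exact ⟨tgt i j, h2', fun h => absurd h h1'.ne', chkL_sound hl hr _ _ h3⟩

/-- Every tree with at least three leaves realises a state that closes up. -/
theorem exists_closing (l k : PTree) (h : l ≠ .leaf ∨ k ≠ .leaf) :
    ∃ s, closes s = true ∧ RealS (.node l k) s := by
  obtain ⟨i, hi, hi0, hl⟩ := exists_family l
  obtain ⟨j, hj, hj0, hr⟩ := exists_family k
  have hc := chkPair_of hi hj
  simp only [chkPair, Bool.and_eq_true, Bool.or_eq_true] at hc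
  rcases hc.2 with h0 | h0
  · have h0' : i + j = 0 := by simpa using h0
    rcases h with h | h
    · exact absurd (hi0 (by omega)) h
    · exact absurd (hj0 (by omega)) h
  · exact ⟨_, h0.1, chk_sound h0.2 hl hr⟩

namespace PTree

/-- The leftmost leaf. -/
def first : (t : PTree) → t.Vert
  | .leaf => ()
  | .node l _ => some (.inl l.first)

/-- The rightmost leaf. -/
def last : (t : PTree) → t.Vert
  | .leaf => ()
  | .node _ r => some (.inr r.last)

/-- Adjacency inside the tree together with the path through its leaves. -/
def Link : (t : PTree) → t.Vert → t.Vert → Prop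
  | .leaf, _, _ => False
  | .node _ _, none, none => False
  | .node l _, none, some (.inl v) => v = l.root
  | .node l _, some (.inl v), none => v = l.root
  | .node _ r, none, some (.inr v) => v = r.root
  | .node _ r, some (.inr v), none => v = r.root
  | .node l _, some (.inl u), some (.inl v) => l.Link u v
  | .node _ r, some (.inr u), some (.inr v) => r.Link u v
  | .node l r, some (.inl u), some (.inr v) => u = l.last ∧ v = r.first
  | .node l r, some (.inr u), some (.inl v) => u = r.first ∧ v = l.last

theorem Link.symm : ∀ (t : PTree) {u v : t.Vert}, t.Link u v → t.Link v u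
  | .leaf, _, _, h => h
  | .node _ _, none, none, h => h
  | .node l _, none, some (.inl v), h => h
  | .node l _, some (.inl v), none, h => h
  | .node _ r, none, some (.inr v), h => h
  | .node _ r, some (.inr v), none, h => h
  | .node l _, some (.inl u), some (.inl v), h => Link.symm l (u := u) (v := v) h
  | .node _ r, some (.inr u), some (.inr v), h => Link.symm r (u := u) (v := v) h
  | .node l r, some (.inl u), some (.inr v), h => ⟨h.2, h.1⟩
  | .node l r, some (.inr u), some (.inl v), h => ⟨h.2, h.1⟩

theorem Child.link : ∀ (t : PTree) {u v : t.Vert}, t.Child u v → t.Link u v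
  | .leaf, _, _, h => h
  | .node _ _, none, none, h => h
  | .node l _, none, some (.inl v), h => h
  | .node l _, some (.inl v), none, h => h.elim
  | .node _ r, none, some (.inr v), h => h
  | .node _ r, some (.inr v), none, h => h.elim
  | .node l _, some (.inl u), some (.inl v), h => Child.link l (u := u) (v := v) h
  | .node _ r, some (.inr u), some (.inr v), h => Child.link r (u := u) (v := v) h
  | .node l r, some (.inl u), some (.inr v), h => h.elim
  | .node l r, some (.inr u), some (.inl v), h => h.elim

theorem leaves_head : ∀ t : PTree, t.leaves.head? = some t.first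
  | .leaf => rfl
  | .node l r => by
      have h := leaves_head l
      rw [leaves, List.head?_append, List.head?_map, h]
      rfl

theorem leaves_last : ∀ t : PTree, t.leaves.getLast? = some t.last
  | .leaf => rfl
  | .node l r => by
      have h := leaves_last r
      rw [leaves, List.getLast?_append, List.getLast?_map, h]
      rfl

theorem leaves_chain : ∀ t : PTree, t.leaves.IsChain t.Link
  | .leaf => by simp [leaves]
  | .node l r => by
      have hl := leaves_chain l
      have hr := leaves_chain r
      rw [leaves, List.isChain_append]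
      refine ⟨?_, ?_, ?_⟩
      · rw [List.isChain_map]
        exact hl
      · rw [List.isChain_map]
        exact hr
      · intro x hx y hy
        rw [List.getLast?_map, leaves_last l] at hx
        rw [List.head?_map, leaves_head r] at hy
        simp only [Option.map_some, Option.mem_def, Option.some.injEq] at hx hy
        subst hx
        subst hy
        exact ⟨rfl, rfl⟩

/-- Adjacency in the Halin graph. -/
def LinkO (t : PTree) : Option t.Vert → Option t.Vert → Prop
  | none, none => False
  | none, some v => v = t.root ∨ v = t.first ∨ v = t.last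
  | some v, none => v = t.root ∨ v = t.first ∨ v = t.last
  | some u, some v => t.Link u v

theorem LinkO.symm (t : PTree) : ∀ {u v : Option t.Vert}, t.LinkO u v → t.LinkO v u
  | none, none, h => h
  | none, some _, h => h
  | some _, none, h => h
  | some _, some _, h => Link.symm t h

theorem rim_chain (t : PTree) : t.rim.IsChain t.LinkO := by
  have h1 : (t.leaves.map (some : t.Vert → Option t.Vert)).IsChain t.LinkO := by
    rw [List.isChain_map]
    exact leaves_chain t
  have h2 : (t.leaves.map some ++ [none] : List (Option t.Vert)).IsChain t.LinkO := by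
    rw [List.isChain_append]
    refine ⟨h1, by simp, ?_⟩
    intro x hx y hy
    rw [List.getLast?_map, leaves_last t] at hx
    simp only [Option.map_some, Option.mem_def, Option.some.injEq, List.head?_cons] at hx hy
    subst hx
    subst hy
    exact Or.inr (Or.inr rfl)
  rw [rim, List.isChain_cons]
  refine ⟨?_, h2⟩
  intro y hy
  rw [List.head?_append, List.head?_map, leaves_head t] at hy
  simp only [Option.map_some, Option.mem_def, Option.some_or, Option.some.injEq] at hy
  subst hy
  exact Or.inr (Or.inl rfl)

theorem halin_adj_linkO (t : PTree) {u v : Option t.Vert} (h : t.halin.Adj u v) :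
    t.LinkO u v := by
  have key : ∀ u v : Option t.Vert, ((u = none ∧ v = some t.root) ∨
      (∃ a b, u = some a ∧ v = some b ∧ t.Child a b) ∨ [u, v] <:+: t.rim) → t.LinkO u v := by
    intro u v h
    rcases h with ⟨rfl, rfl⟩ | ⟨a, b, rfl, rfl, h⟩ | h
    · exact Or.inl rfl
    · exact Child.link t h
    · obtain ⟨l₁, l₂, h'⟩ := h
      have hc := rim_chain t
      rw [← h', List.isChain_append, List.isChain_append] at hc
      simpa using hc.1.2.1
  rw [halin, SimpleGraph.fromRel_adj] at h
  rcases h.2 with h | h
  · exact key _ _ h
  · exact LinkO.symm t (key _ _ h)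

end PTree

/-- A colouring of a tree which is good for the outer labels `p`, `a`, `b`. -/
structure Good (T : PTree) (c : T.Vert → Lab) (p a b : Lab) : Prop where
  adj : ∀ u v, T.Link u v → D (c u) (c v) = true
  dist : ∀ v u w, T.Link v u → T.Link v w → u ≠ w → c u ≠ c w
  rp : D (c T.root) p = true
  rn : ∀ u, T.Link T.root u → c u ≠ p
  fa : D (c T.first) a = true
  fn : ∀ u, T.Link T.first u → c u ≠ a
  lb : D (c T.last) b = true
  ln : ∀ u, T.Link T.last u → c u ≠ b
  rf : T.root = T.first → p ≠ a
  rl : T.root = T.last → p ≠ b
  fl : T.first = T.last → a ≠ b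

/-- The colouring of a tree glued from colourings of its two subtrees. -/
def glue {l k : PTree} (r : Lab) (c₁ : l.Vert → Lab) (c₂ : k.Vert → Lab) :
    (PTree.node l k).Vert → Lab
  | none => r
  | some (.inl v) => c₁ v
  | some (.inr v) => c₂ v

theorem glue_good {l k : PTree} {r p a b : Lab} {c₁ : l.Vert → Lab} {c₂ : k.Vert → Lab}
    (hp : D r p = true) (h12 : c₁ l.root ≠ c₂ k.root) (h1p : c₁ l.root ≠ p)
    (h2p : c₂ k.root ≠ p) (g₁ : Good l c₁ r a (c₂ k.first)) (g₂ : Good k c₂ r (c₁ l.last) b) :
    Good (.node l k) (glue r c₁ c₂) p a b where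
  adj := by
    rintro (_ | u | u) (_ | v | v) h
    · exact h.elim
    · have h' : v = l.root := h
      subst h'
      have := g₁.rp
      rw [D_symm] at this
      exact this
    · have h' : v = k.root := h
      subst h'
      have := g₂.rp
      rw [D_symm] at this
      exact this
    · have h' : u = l.root := h
      subst h'
      exact g₁.rp
    · exact g₁.adj u v h
    · obtain ⟨h1, h2⟩ : u = l.last ∧ v = k.first := h
      subst h1
      subst h2
      exact g₁.lb
    · have h' : u = k.root := h
      subst h'
      exact g₂.rp
    · obtain ⟨h1, h2⟩ : u = k.first ∧ v = l.last := h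
      subst h1
      subst h2
      exact g₂.fa
    · exact g₂.adj u v h
  dist := by
    have key : ∀ v u w : (PTree.node l k).Vert, (PTree.node l k).Link v u →
        (PTree.node l k).Link v w → u ≠ w → glue r c₁ c₂ u ≠ glue r c₁ c₂ w := by
      rintro (_ | v | v) (_ | u | u) (_ | w | w) hu hw huw
      · exact hu.elim
      · exact hu.elim
      · exact hu.elim
      · exact hw.elim
      · have h1 : u = l.root := hu
        have h2 : w = l.root := hw
        exact absurd (by rw [h1, h2]) huw
      · have h1 : u = l.root := hu
        have h2 : w = k.root := hw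
        subst h1
        subst h2
        exact h12
      · exact hw.elim
      · have h1 : u = k.root := hu
        have h2 : w = l.root := hw
        subst h1
        subst h2
        exact h12.symm
      · have h1 : u = k.root := hu
        have h2 : w = k.root := hw
        exact absurd (by rw [h1, h2]) huw
      -- centre in the left subtree
      · exact absurd rfl huw
      · have h1 : v = l.root := hu
        subst h1
        exact (g₁.rn w hw).symm
      · have h1 : v = l.root := hu
        obtain ⟨h2, h3⟩ : v = l.last ∧ w = k.first := hw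
        subst h3
        exact g₁.rl (h1.symm.trans h2)
      · have h1 : v = l.root := hw
        subst h1
        exact g₁.rn u hu
      · exact g₁.dist v u w hu hw (fun h => huw (by rw [h]))
      · obtain ⟨h2, h3⟩ : v = l.last ∧ w = k.first := hw
        subst h2
        subst h3
        exact g₁.ln u hu
      · obtain ⟨h2, h3⟩ : v = l.last ∧ u = k.first := hu
        have h1 : v = l.root := hw
        subst h3
        exact (g₁.rl (h1.symm.trans h2)).symm
      · obtain ⟨h2, h3⟩ : v = l.last ∧ u = k.first := hu
        subst h2
        subst h3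
        exact (g₁.ln w hw).symm
      · obtain ⟨h2, h3⟩ : v = l.last ∧ u = k.first := hu
        obtain ⟨h4, h5⟩ : v = l.last ∧ w = k.first := hw
        exact absurd (by rw [h3, h5]) huw
      -- centre in the right subtree
      · exact absurd rfl huw
      · have h1 : v = k.root := hu
        obtain ⟨h2, h3⟩ : v = k.first ∧ w = l.last := hw
        subst h3
        exact g₂.rf (h1.symm.trans h2)
      · have h1 : v = k.root := hu
        subst h1
        exact (g₂.rn w hw).symm
      · obtain ⟨h2, h3⟩ : v = k.first ∧ u = l.last := hu
        have h1 : v = k.root := hw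
        subst h3
        exact (g₂.rf (h1.symm.trans h2)).symm
      · obtain ⟨h2, h3⟩ : v = k.first ∧ u = l.last := hu
        obtain ⟨h4, h5⟩ : v = k.first ∧ w = l.last := hw
        exact absurd (by rw [h3, h5]) huw
      · obtain ⟨h2, h3⟩ : v = k.first ∧ u = l.last := hu
        subst h2
        subst h3
        exact (g₂.fn w hw).symm
      · have h1 : v = k.root := hw
        subst h1
        exact g₂.rn u hu
      · obtain ⟨h2, h3⟩ : v = k.first ∧ w = l.last := hw
        subst h2
        subst h3
        exact g₂.fn u hu
      · exact g₂.dist v u w hu hw (fun h => huw (by rw [h]))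
    exact key
  rp := hp
  rn := by
    rintro (_ | u | u) h
    · exact h.elim
    · have h1 : u = l.root := h
      subst h1
      exact h1p
    · have h1 : u = k.root := h
      subst h1
      exact h2p
  fa := g₁.fa
  fn := by
    rintro (_ | u | u) h
    · have h1 : l.first = l.root := h
      exact g₁.rf h1.symm
    · exact g₁.fn u h
    · obtain ⟨h1, h2⟩ : l.first = l.last ∧ u = k.first := h
      subst h2
      exact (g₁.fl h1).symm
  lb := g₂.lb
  ln := by
    rintro (_ | u | u) h
    · have h1 : k.last = k.root := h
      exact g₂.rl h1.symm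
    · obtain ⟨h1, h2⟩ : k.last = k.first ∧ u = l.last := h
      subst h2
      exact g₂.fl h1.symm
    · exact g₂.ln u h
  rf := fun h => by
    have : (none : Option (l.Vert ⊕ k.Vert)) = some (.inl l.first) := h
    cases this
  rl := fun h => by
    have : (none : Option (l.Vert ⊕ k.Vert)) = some (.inr k.last) := h
    cases this
  fl := fun h => by
    have : (some (.inl l.first) : Option (l.Vert ⊕ k.Vert)) = some (.inr k.last) := h
    cases this

theorem exists_good : ∀ (T : PTree) (r p x a y b : Lab), Real T r p x a y b →
    ∃ c : T.Vert → Lab, c T.root = r ∧ c T.first = x ∧ c T.last = y ∧ Good T c p a b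
  | .leaf, r, p, x, a, y, b, h => by
      obtain ⟨rfl, h2, h3, h4, h5, h6, h7, h8⟩ := h
      subst h2
      exact ⟨fun _ => y, rfl, rfl, rfl,
        { adj := fun _ _ h => h.elim
          dist := fun _ _ _ h => h.elim
          rp := h3
          rn := fun _ h => h.elim
          fa := h4
          fn := fun _ h => h.elim
          lb := h5
          ln := fun _ h => h.elim
          rf := fun _ => h6
          rl := fun _ => h7
          fl := fun _ => h8 }⟩
  | .node l k, r, p, x, a, y, b, h => by
      obtain ⟨h1, r₁, r₂, u, v, h2, h3, h4, h5, h6⟩ := h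
      obtain ⟨c₁, e1, e2, e3, g₁⟩ := exists_good l _ _ _ _ _ _ h5
      obtain ⟨c₂, f1, f2, f3, g₂⟩ := exists_good k _ _ _ _ _ _ h6
      subst e1 e2 e3 f1 f2 f3
      exact ⟨glue r c₁ c₂, rfl, rfl, rfl, glue_good h1 h2 h3 h4 g₁ g₂⟩

theorem toneColourable_of_proper {V : Type*} (G : SimpleGraph V) (c : V → Lab)
    (h1 : ∀ u v, G.Adj u v → D (c u) (c v) = true)
    (h2 : ∀ v u w, G.Adj v u → G.Adj v w → u ≠ w → c u ≠ c w) : ToneColourable G 2 6 := by
  refine ⟨fun v => col (c v), fun v => card_col _, fun u v huv => ?_⟩
  by_contra hlt
  rw [not_lt] at hlt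
  have hne : G.edist u v ≠ ⊤ := by
    intro h
    rw [h] at hlt
    exact absurd hlt (by simp)
  have hr : G.Reachable u v := by
    by_contra h
    exact hne (SimpleGraph.edist_eq_top_of_not_reachable h)
  obtain ⟨w, hw⟩ := hr.exists_walk_length_eq_edist
  rw [← hw] at hlt
  have hle : w.length ≤ (col (c u) ∩ col (c v)).card := by exact_mod_cast hlt
  have h22 : (col (c u) ∩ col (c v)).card ≤ 2 := by
    calc _ ≤ (col (c u)).card := Finset.card_le_card Finset.inter_subset_left
      _ = 2 := card_col _
  match w, hle with
  | .nil, _ => exact huv rfl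
  | .cons h .nil, hle =>
      rw [disjoint_col _ _ (h1 _ _ h)] at hle
      simp at hle
  | .cons h (.cons h' .nil), hle =>
      have := card_inter_col _ _ (h2 _ _ _ h.symm h' huv)
      simp only [SimpleGraph.Walk.length_cons, SimpleGraph.Walk.length_nil] at hle
      omega
  | .cons h (.cons h' (.cons h'' w')), hle =>
      simp only [SimpleGraph.Walk.length_cons] at hle
      omega

theorem halin_of_closing {t : PTree} {s : ℕ} (hc : closes s = true) (h : RealS t s) :
    ToneColourable t.halin 2 6 := by
  simp only [closes, Bool.and_eq_true, beq_iff_eq, Bool.not_eq_true', beq_eq_false_iff_ne] at hc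
  obtain ⟨⟨⟨⟨h3, h5⟩, h02⟩, h04⟩, h24⟩ := hc
  unfold RealS at h
  rw [h3, h5] at h
  obtain ⟨c, e1, e2, e3, g⟩ := exists_good t _ _ _ _ _ _ h
  generalize lab s 1 = ℓ at *
  rw [← e1, ← e2] at h02
  rw [← e1, ← e3] at h04
  rw [← e2, ← e3] at h24
  let c' : Option t.Vert → Lab := fun v => v.elim ℓ c
  have hout : ∀ u : t.Vert, (u = t.root ∨ u = t.first ∨ u = t.last) → D (c u) ℓ = true := by
    rintro u (rfl | rfl | rfl)
    · exact g.rp
    · exact g.fa
    · exact g.lb
  have hnb : ∀ v u : t.Vert, (v = t.root ∨ v = t.first ∨ v = t.last) → t.Link v u → c u ≠ ℓ := by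
    rintro v u (rfl | rfl | rfl) h
    · exact g.rn u h
    · exact g.fn u h
    · exact g.ln u h
  apply toneColourable_of_proper t.halin c'
  · intro u v huv
    have h := PTree.halin_adj_linkO t huv
    rcases u with _ | u <;> rcases v with _ | v
    · exact h.elim
    · have := hout v h
      rw [D_symm] at this
      exact this
    · exact hout u h
    · exact g.adj u v h
  · intro v u w hu hw huw
    have h1 := PTree.halin_adj_linkO t hu
    have h2 := PTree.halin_adj_linkO t hw
    rcases v with _ | v <;> rcases u with _ | u <;> rcases w with _ | w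
    · exact h1.elim
    · exact h1.elim
    · exact h2.elim
    · have huw' : u ≠ w := fun h => huw (by rw [h])
      change c u ≠ c w
      rcases h1 with rfl | rfl | rfl <;> rcases h2 with rfl | rfl | rfl
      · exact absurd rfl huw'
      · exact h02
      · exact h04
      · exact h02.symm
      · exact absurd rfl huw'
      · exact h24
      · exact h04.symm
      · exact h24.symm
      · exact absurd rfl huw'
    · exact absurd rfl huw
    · exact (hnb v w h1 h2).symm
    · exact hnb v u h2 h1
    · exact g.dist v u w h1 h2 (fun h => huw (by rw [h]))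

/-- Every cubic Halin graph with at least four outer vertices is 2-tone 6-colourable. -/
theorem halin_toneColourable (l k : PTree) (h : l ≠ .leaf ∨ k ≠ .leaf) :
    ToneColourable (PTree.node l k).halin 2 6 := by
  obtain ⟨s, hs, hr⟩ := exists_closing l k h
  exact halin_of_closing hs hr

end Pool.Agent.X81.HalinTone
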