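import Mathlib

set_option autoImplicit false

/-! Rooted trees given by a parent function, with explicit distance functions. -/

namespace Pool.Agent.X81.RTree

section tree

variable {V : Type} (r : V) (p : V → V) (δ : V → ℕ)

/-- the graph of a parent function -/
def tg (h : ∀ v, v ≠ r → δ v = δ (p v) + 1) : SimpleGraph V where
  Adj u v := (u ≠ r ∧ p u = v) ∨ (v ≠ r ∧ p v = u)
  symm := ⟨fun _ _ h => h.symm⟩
  loopless := ⟨by
    rintro u (⟨h1, h2⟩ | ⟨h1, h2⟩) <;>
    · have := h u h1
      rw [h2] at this
      omega⟩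

variable {r p δ}
variable (h0 : δ r = 0) (h : ∀ v, v ≠ r → δ v = δ (p v) + 1)

include h0 in
theorem walk_root : ∀ (n : ℕ) (v : V), δ v = n → ∃ w : (tg r p δ h).Walk v r, w.length = n := by
  intro n
  induction n with
  | zero =>
    intro v hv
    have hvr : v = r := by
      by_contra hne
      have := h v hne
      omega
    subst hvr
    exact ⟨SimpleGraph.Walk.nil, rfl⟩
  | succ n ih =>
    intro v hv
    have hvr : v ≠ r := by rintro rfl; omega
    have h1 := h v hvr
    obtain ⟨w, hw⟩ := ih (p v) (by omega)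
    have hadj : (tg r p δ h).Adj v (p v) := Or.inl ⟨hvr, rfl⟩
    exact ⟨SimpleGraph.Walk.cons hadj w, by rw [SimpleGraph.Walk.length_cons, hw]⟩

include h0 in
theorem conn : (tg r p δ h).Connected := by
  have : ∀ v, (tg r p δ h).Reachable v r := fun v => ⟨(walk_root h0 h _ v rfl).choose⟩
  have hne : Nonempty V := ⟨r⟩
  exact ⟨fun u v => (this u).trans (this v).symm⟩

theorem lip {G : SimpleGraph V} (φ : V → ℤ) (hφ : ∀ u v, G.Adj u v → φ u - φ v ≤ 1) {u v : V}
    (w : G.Walk u v) : φ u - φ v ≤ w.length := by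
  induction w with
  | nil => simp
  | cons hadj _ ih =>
    rw [SimpleGraph.Walk.length_cons]
    have := hφ _ _ hadj
    push_cast
    linarith

include h0 in
theorem isTree [Finite V] : (tg r p δ h).IsTree := by
  classical
  rw [SimpleGraph.isTree_iff_connected_and_card]
  refine ⟨conn h0 h, ?_⟩
  have hF : Fintype V := Fintype.ofFinite V
  let f : {v : V // v ≠ r} → (tg r p δ h).edgeSet := fun v =>
    ⟨s(v.1, p v.1), Or.inl ⟨v.2, rfl⟩⟩
  have hf : Function.Bijective f := by
    constructor
    · rintro ⟨u, hu⟩ ⟨v, hv⟩ huv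
      have huv' : s(u, p u) = s(v, p v) := congrArg Subtype.val huv
      rw [Sym2.eq_iff] at huv'
      rcases huv' with ⟨h1, -⟩ | ⟨h1, h2⟩
      · exact Subtype.ext h1
      · exfalso
        have a1 := h u hu
        have a2 := h v hv
        rw [h2] at a1
        rw [← h1] at a2
        omega
    · rintro ⟨e, he⟩
      induction e using Sym2.ind with
      | _ a b =>
        have he' : (a ≠ r ∧ p a = b) ∨ (b ≠ r ∧ p b = a) := he
        rcases he' with ⟨h1, h2⟩ | ⟨h1, h2⟩
        · exact ⟨⟨a, h1⟩, Subtype.ext (by simp only [f, h2])⟩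
        · exact ⟨⟨b, h1⟩, Subtype.ext (by simp only [f, h2]; exact Sym2.eq_swap)⟩
  rw [← Nat.card_congr (Equiv.ofBijective f hf)]
  rw [Nat.card_eq_fintype_card, Nat.card_eq_fintype_card, Fintype.card_subtype_compl,
    Fintype.card_subtype_eq]
  have : 0 < Fintype.card V := Fintype.card_pos_iff.2 ⟨r⟩
  omega

include h0 in
/-- A function which is 1-Lipschitz along the edges and has descending steps is the distance. -/
theorem dist_eq (D : V → V → ℕ) (hD0 : ∀ x, D x x = 0)
    (hL : ∀ x y, y ≠ r → D x y ≤ D x (p y) + 1 ∧ D x (p y) ≤ D x y + 1)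
    (hS : ∀ x y, x ≠ y → (y ≠ r ∧ D x (p y) + 1 = D x y) ∨ (x ≠ r ∧ D (p x) y + 1 = D x y))
    (x y : V) : (tg r p δ h).dist x y = D x y := by
  apply le_antisymm
  · -- upper bound
    have key : ∀ (n : ℕ) (x y : V), D x y = n → ∃ w : (tg r p δ h).Walk x y, w.length = n := by
      intro n
      induction n with
      | zero =>
        intro x y hxy
        have : x = y := by
          by_contra hne
          rcases hS x y hne with ⟨-, h1⟩ | ⟨-, h1⟩ <;> omega
        subst this
        exact ⟨SimpleGraph.Walk.nil, rfl⟩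
      | succ n ih =>
        intro x y hxy
        have hne : x ≠ y := by
          rintro rfl
          rw [hD0] at hxy
          omega
        rcases hS x y hne with ⟨h1, h2⟩ | ⟨h1, h2⟩
        · obtain ⟨w, hw⟩ := ih x (p y) (by omega)
          have hadj : (tg r p δ h).Adj (p y) y := Or.inr ⟨h1, rfl⟩
          exact ⟨w.concat hadj, by rw [SimpleGraph.Walk.length_concat, hw]⟩
        · obtain ⟨w, hw⟩ := ih (p x) y (by omega)
          have hadj : (tg r p δ h).Adj x (p x) := Or.inl ⟨h1, rfl⟩
          exact ⟨SimpleGraph.Walk.cons hadj w, by rw [SimpleGraph.Walk.length_cons, hw]⟩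
    obtain ⟨w, hw⟩ := key _ x y rfl
    rw [← hw]
    exact SimpleGraph.dist_le w
  · obtain ⟨w, hw⟩ := (conn h0 h).exists_walk_length_eq_dist x y
    have h2 : (-(D x x : ℤ)) - (-(D x y : ℤ)) ≤ w.length := by
      apply lip (fun z => -(D x z : ℤ)) _ w
      rintro a b (⟨ha, hb⟩ | ⟨ha, hb⟩)
      · have := hL x a ha
        rw [hb] at this
        omega
      · have := hL x b ha
        rw [hb] at this
        omega
    rw [hD0, hw] at h2
    push_cast at h2
    omega

end tree

/-- Points at prescribed distance on a geodesic. -/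
theorem exists_between {V : Type} {G : SimpleGraph V} (hG : G.Connected) (u v : V) (a : ℕ)
    (ha : a ≤ G.dist u v) : ∃ x, G.dist u x = a ∧ G.dist x v = G.dist u v - a := by
  obtain ⟨w, hw⟩ := hG.exists_walk_length_eq_dist u v
  refine ⟨w.getVert a, ?_⟩
  have h1 : G.dist u (w.getVert a) ≤ a := by
    have := SimpleGraph.dist_le (w.take a)
    rw [SimpleGraph.Walk.take_length] at this
    exact this.trans (min_le_left _ _)
  have h2 : G.dist (w.getVert a) v ≤ G.dist u v - a := by
    have := SimpleGraph.dist_le (w.drop a)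
    rw [SimpleGraph.Walk.drop_length, hw] at this
    exact this
  have h3 := hG.dist_triangle (u := u) (v := w.getVert a) (w := v)
  omega

end Pool.Agent.X81.RTree
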