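import Mathlib.Combinatorics.SimpleGraph.Acyclic
import Mathlib.Tactic

/-!
# Induction on rooted branches of a finite tree

`branch_induction`: a property of pairs (finite vertex set `S`, root `v ∈ S`) that holds for
singletons and is preserved when a branch `(B, u)` is hung below the root `v` of `(A, v)` holds
for the whole vertex set of a finite tree and any root.
-/

namespace Pool.Agent.X81.TreeInd

open SimpleGraph

variable {V : Type*} [DecidableEq V] {T : SimpleGraph V}

/-- Splitting off one branch at the root. -/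
theorem exists_split (hT : T.IsAcyclic) (S : Finset V) (v : V) (hv : v ∈ S)
    (hS : (T.induce (S : Set V)).Preconnected) (hne : S ≠ {v}) :
    ∃ (A B : Finset V) (u : V), v ∈ A ∧ u ∈ B ∧ Disjoint A B ∧ A ∪ B = S ∧ T.Adj v u ∧
      (∀ a ∈ A, ∀ b ∈ B, T.Adj a b → a = v ∧ b = u) ∧
      (T.induce (A : Set V)).Preconnected ∧ (T.induce (B : Set V)).Preconnected := by
  classical
  -- a neighbour of the root
  obtain ⟨w, hw, hwv⟩ : ∃ w ∈ S, w ≠ v := by
    by_contra h
    push Not at h
    exact hne (Finset.eq_singleton_iff_unique_mem.mpr ⟨hv, h⟩)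
  obtain ⟨u, hu, hvu⟩ : ∃ u ∈ S, T.Adj v u := by
    obtain ⟨p⟩ := hS ⟨v, hv⟩ ⟨w, hw⟩
    cases p with
    | nil => exact absurd rfl hwv
    | @cons _ x _ h _ => exact ⟨x.1, x.2, h⟩
  -- the branch of `u`
  let E : SimpleGraph V := T.deleteEdges {s(v, u)}
  let H : SimpleGraph (S : Set V) := E.induce (S : Set V)
  let good : V → Prop := fun x => ∃ hx : x ∈ S, H.Reachable ⟨x, hx⟩ ⟨u, hu⟩
  let B : Finset V := S.filter good
  let A : Finset V := S.filter fun x => ¬ good x
  have hB : ∀ x, x ∈ B ↔ x ∈ S ∧ good x := fun x => Finset.mem_filter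
  have hA : ∀ x, x ∈ A ↔ x ∈ S ∧ ¬ good x := fun x => Finset.mem_filter
  have huB : u ∈ B := (hB u).mpr ⟨hu, hu, Reachable.refl _⟩
  have hvA : v ∈ A := by
    rw [hA]
    refine ⟨hv, ?_⟩
    rintro ⟨_, hr⟩
    have hr' : E.Reachable v u := hr.map (Embedding.induce (S : Set V)).toHom
    have hbr := (isAcyclic_iff_forall_adj_isBridge.mp hT) hvu
    rw [isBridge_iff] at hbr
    exact hbr hr'
  have hcross : ∀ a ∈ A, ∀ b ∈ B, T.Adj a b → a = v ∧ b = u := by
    intro a ha b hb hab
    rw [hA] at ha
    rw [hB] at hb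
    by_contra hne'
    apply ha.2
    obtain ⟨hbS, hr⟩ := hb.2
    refine ⟨ha.1, Reachable.trans (Adj.reachable ?_) hr⟩
    change E.Adj a b
    rw [deleteEdges_adj]
    refine ⟨hab, ?_⟩
    rw [Set.mem_singleton_iff, Sym2.eq_iff]
    rintro (h | ⟨rfl, rfl⟩)
    · exact hne' h
    · exact ha.2 ⟨hu, Reachable.refl _⟩
  refine ⟨A, B, u, hvA, huB, ?_, ?_, hvu, hcross, ?_, ?_⟩
  · rw [Finset.disjoint_left]
    intro x h1 h2
    exact ((hA x).mp h1).2 ((hB x).mp h2).2
  · ext x
    rw [Finset.mem_union, hA, hB]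
    tauto
  · -- connectivity of `A`
    have key : ∀ x : (S : Set V), (T.induce (S : Set V)).Reachable x ⟨v, hv⟩ →
        ∀ hx : x.1 ∈ A, (T.induce (A : Set V)).Reachable ⟨x.1, hx⟩ ⟨v, hvA⟩ := by
      rintro x ⟨p⟩
      generalize hz : (⟨v, hv⟩ : (S : Set V)) = z at p
      induction p with
      | nil =>
          intro hx
          subst hz
          exact Reachable.refl _
      | @cons x y z h p ih =>
          intro hx
          by_cases hy : y.1 ∈ A
          · have hadj : (T.induce (A : Set V)).Adj ⟨x.1, hx⟩ ⟨y.1, hy⟩ := h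
            exact hadj.reachable.trans (ih hz hy)
          · have hyB : y.1 ∈ B := by
              rw [hB]
              refine ⟨y.2, ?_⟩
              by_contra hng
              exact hy ((hA _).mpr ⟨y.2, hng⟩)
            have := (hcross x.1 hx y.1 hyB h).1
            simp only [this]
            exact Reachable.refl _
    intro x y
    have hx' := ((hA x.1).mp x.2).1
    have hy' := ((hA y.1).mp y.2).1
    exact (key ⟨x.1, hx'⟩ (hS _ _) x.2).trans (key ⟨y.1, hy'⟩ (hS _ _) y.2).symm
  · -- connectivity of `B`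
    have key : ∀ x : (S : Set V), H.Reachable x ⟨u, hu⟩ →
        ∀ hx : x.1 ∈ B, (T.induce (B : Set V)).Reachable ⟨x.1, hx⟩ ⟨u, huB⟩ := by
      rintro x ⟨p⟩
      generalize hz : (⟨u, hu⟩ : (S : Set V)) = z at p
      induction p with
      | nil =>
          intro hx
          subst hz
          exact Reachable.refl _
      | @cons x y z h p ih =>
          intro hx
          have hyB : y.1 ∈ B := by
            rw [hB]
            subst hz
            exact ⟨y.2, y.2, ⟨p⟩⟩
          have hadj : (T.induce (B : Set V)).Adj ⟨x.1, hx⟩ ⟨y.1, hyB⟩ := by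
            have h' : E.Adj x.1 y.1 := h
            rw [deleteEdges_adj] at h'
            exact h'.1
          exact hadj.reachable.trans (ih hz hyB)
    intro x y
    obtain ⟨hx', hrx⟩ := ((hB x.1).mp x.2).2
    obtain ⟨hy', hry⟩ := ((hB y.1).mp y.2).2
    exact (key ⟨x.1, hx'⟩ hrx x.2).trans (key ⟨y.1, hy'⟩ hry y.2).symm

/-- Induction on rooted branches. -/
theorem branch_induction_set (hT : T.IsAcyclic) (P : Finset V → V → Prop)
    (single : ∀ v, P {v} v)
    (join : ∀ (A B : Finset V) (v u : V), v ∈ A → u ∈ B → Disjoint A B → T.Adj v u →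
      (∀ a ∈ A, ∀ b ∈ B, T.Adj a b → a = v ∧ b = u) → P A v → P B u → P (A ∪ B) v)
    (S : Finset V) (v : V) (hv : v ∈ S) (hS : (T.induce (S : Set V)).Preconnected) : P S v := by
  induction hn : S.card using Nat.strong_induction_on generalizing S v with
  | _ n ih =>
    by_cases hne : S = {v}
    · rw [hne]
      exact single v
    · obtain ⟨A, B, u, hvA, huB, hd, rfl, hvu, hc, hA, hB⟩ := exists_split hT S v hv hS hne
      have hcard := Finset.card_union_of_disjoint hd
      have hA0 : 0 < A.card := Finset.card_pos.mpr ⟨v, hvA⟩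
      have hB0 : 0 < B.card := Finset.card_pos.mpr ⟨u, huB⟩
      exact join A B v u hvA huB hd hvu hc (ih A.card (by omega) A v hvA hA rfl)
        (ih B.card (by omega) B u huB hB rfl)

theorem branch_induction [Fintype V] (hT : T.IsTree) (P : Finset V → V → Prop)
    (single : ∀ v, P {v} v)
    (join : ∀ (A B : Finset V) (v u : V), v ∈ A → u ∈ B → Disjoint A B → T.Adj v u →
      (∀ a ∈ A, ∀ b ∈ B, T.Adj a b → a = v ∧ b = u) → P A v → P B u → P (A ∪ B) v)
    (v : V) : P Finset.univ v := by
  refine branch_induction_set hT.2 P single join Finset.univ v (Finset.mem_univ v) ?_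
  intro x y
  have h := hT.1.preconnected x.1 y.1
  obtain ⟨p⟩ := h
  exact (p.induce _ (fun z _ => by simp)).reachable

end Pool.Agent.X81.TreeInd
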